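import Pool.Agent.Helper320.PCL.Stm2

/-!
A variety whose geometric generic fibre over a base is the projective line with at most one
boundary point is `A¹`-uniruled.
-/

set_option autoImplicit false
set_option linter.overlappingInstances false
set_option linter.unusedSectionVars false

open IntermediateField Module FF Pool.Agent.W619.PQ Pool.Agent.W603.LV
open Pool.Agent.W619.PL (IsA1Uniruled)

namespace Pool.Agent.Helper320.PCL

namespace A1

/-- the transcendence degree of the field of rational functions -/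
theorem trdeg_ratFunc_aux {k K : Type} [Field k] [Field K] [Algebra k K] {n : ℕ}
    (htr : Algebra.trdeg k K = n) : Algebra.trdeg k (RatFunc K) = (n + 1 : ℕ) := by
  have h1 : Algebra.trdeg K (Polynomial K) = 1 := Polynomial.trdeg_of_isDomain
  have h2 : Algebra.IsAlgebraic (Polynomial K) (RatFunc K) :=
    IsLocalization.isAlgebraic _ (nonZeroDivisors (Polynomial K))
  have h3 : Algebra.trdeg (Polynomial K) (RatFunc K) = 0 := trdeg_eq_zero
  have h4 := trdeg_add_eq k K (A := Polynomial K)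
  have h5 := trdeg_add_eq k (Polynomial K) (A := RatFunc K)
  rw [h3, add_zero, ← h4, htr, h1] at h5
  rw [← h5]
  push_cast
  rfl

/-- a generator of a function field of one variable is transcendental -/
theorem transcendental_gen {Λ A : Type} [Field Λ] [Field A] [Algebra Λ A] (hA : IsFF Λ A) (s : A)
    (hs : IntermediateField.adjoin Λ {s} = ⊤) : Transcendental Λ s := by
  intro halg
  obtain ⟨f, hf⟩ := IsFF.exists_transcendental (k := Λ) (K := A)
  apply hf
  have h1 : Algebra.IsAlgebraic Λ (IntermediateField.adjoin Λ {s}) :=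
    IntermediateField.isAlgebraic_adjoin_simple halg.isIntegral
  have h2 : f ∈ IntermediateField.adjoin Λ {s} := by rw [hs]; trivial
  have h3 := h1.isAlgebraic ⟨f, h2⟩
  exact (IntermediateField.isAlgebraic_iff (S := IntermediateField.adjoin Λ {s})).1 h3

/-- models of a subfield of a rational function field over a finitely generated subfield of the
constants -/
theorem model {n : ℕ} {E Λ F : Type} [Field E] [Field Λ] [Field F] [Algebra ℂ E]
    [Algebra ℂ Λ] [Algebra ℂ F] [Algebra Λ F] [IsScalarTower ℂ Λ F] [Algebra.EssFiniteType ℂ E]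
    (hE : Algebra.trdeg ℂ E = (n + 1 : ℕ)) (hΛ : Algebra.trdeg ℂ Λ = (n : ℕ)) (ψ : E →ₐ[ℂ] F)
    (s : F) (hs : Transcendental Λ s) (h : ∀ e, ψ e ∈ IntermediateField.adjoin Λ {s}) :
    ∃ (M : IntermediateField ℂ Λ) (φ : E →ₐ[ℂ] RatFunc M) (ρ : RatFunc M →+* F),
      Algebra.EssFiniteType ℂ M ∧ Algebra.trdeg ℂ M = (n : ℕ) ∧ (∀ f, ρ (φ f) = ψ f) ∧
      ρ RatFunc.X = s ∧ ∀ m : M, ρ (algebraMap M (RatFunc M) m) = algebraMap Λ F (m : Λ) := by
  classical
  obtain ⟨S, hS⟩ := IntermediateField.fg_top ℂ E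
  have h1 : ∀ e : E, ∃ p q : Polynomial Λ,
      ψ e = Polynomial.aeval s p / Polynomial.aeval s q := fun e =>
    IntermediateField.mem_adjoin_simple_iff Λ (ψ e) |>.1 (h e)
  choose p q hpq using h1
  let T : Set Λ := ⋃ e ∈ S, (((p e).coeffs : Set Λ) ∪ ((q e).coeffs : Set Λ))
  have hTfin : T.Finite := by
    refine Set.Finite.biUnion S.finite_toSet fun e _ => ?_
    exact (Finset.finite_toSet _).union (Finset.finite_toSet _)
  let M : IntermediateField ℂ Λ := IntermediateField.adjoin ℂ T
  have hess : Algebra.EssFiniteType ℂ M :=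
    IntermediateField.essFiniteType_iff.2 (IntermediateField.fg_adjoin_of_finite hTfin)
  have hcoef : ∀ e ∈ S, ∀ i, (p e).coeff i ∈ M ∧ (q e).coeff i ∈ M := by
    intro e he i
    have h2 : ∀ f : Polynomial Λ, (f.coeffs : Set Λ) ⊆ T → f.coeff i ∈ M := by
      intro f hf
      by_cases h0 : f.coeff i = 0
      · rw [h0]
        exact zero_mem _
      · refine IntermediateField.subset_adjoin _ _ (hf ?_)
        exact Polynomial.coeff_mem_coeffs h0
    exact ⟨h2 _ (Set.subset_biUnion_of_mem (u := fun e => (((p e).coeffs : Set Λ) ∪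
        ((q e).coeffs : Set Λ))) he |>.trans' Set.subset_union_left),
      h2 _ (Set.subset_biUnion_of_mem (u := fun e => (((p e).coeffs : Set Λ) ∪
        ((q e).coeffs : Set Λ))) he |>.trans' Set.subset_union_right)⟩
  have hT1 : IsScalarTower ℂ M F := IsScalarTower.of_algebraMap_eq fun c => by
    rw [IsScalarTower.algebraMap_apply ℂ Λ F]
    rfl
  let R : IntermediateField M F := IntermediateField.adjoin M {s}
  have hRpoly : ∀ f : Polynomial Λ, (∀ i, f.coeff i ∈ M) → Polynomial.aeval s f ∈ R := by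
    intro f hf
    rw [Polynomial.aeval_eq_sum_range]
    refine sum_mem fun i _ => ?_
    rw [Algebra.smul_def]
    refine mul_mem ?_ (pow_mem (IntermediateField.mem_adjoin_simple_self M s) i)
    exact R.algebraMap_mem ⟨f.coeff i, hf i⟩
  have hmem : ∀ e, ψ e ∈ R.restrictScalars ℂ := by
    have h2 : (⊤ : IntermediateField ℂ E) ≤ (R.restrictScalars ℂ).comap ψ := by
      rw [← hS, IntermediateField.adjoin_le_iff]
      intro e he
      change ψ e ∈ R
      rw [hpq e]
      exact div_mem (hRpoly _ fun i => (hcoef e he i).1) (hRpoly _ fun i => (hcoef e he i).2)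
    exact fun e => h2 trivial
  have hsM : Transcendental M s := by
    intro h2
    exact hs (IsAlgebraic.tower_top Λ h2)
  let e1 : RatFunc M ≃ₐ[M] R := RatFunc.algEquivOfTranscendental s hsM
  let ψ' : E →ₐ[ℂ] R :=
    { toFun := fun e => ⟨ψ e, hmem e⟩
      map_one' := Subtype.ext (map_one _)
      map_mul' := fun a b => Subtype.ext (map_mul _ _ _)
      map_zero' := Subtype.ext (map_zero _)
      map_add' := fun a b => Subtype.ext (map_add _ _ _)
      commutes' := fun c => Subtype.ext (by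
        change ψ (algebraMap ℂ E c) = _
        rw [ψ.commutes]
        rfl) }
  let φ : E →ₐ[ℂ] RatFunc M := (e1.symm.restrictScalars ℂ : R →ₐ[ℂ] RatFunc M).comp ψ'
  have hMle : Algebra.trdeg ℂ M ≤ (n : ℕ) := by
    rw [← hΛ]
    exact trdeg_le_of_injective M.val (Subtype.val_injective)
  obtain ⟨m', hm'⟩ : ∃ m' : ℕ, Algebra.trdeg ℂ M = m' :=
    Cardinal.lt_aleph0.1 (hMle.trans_lt Cardinal.natCast_lt_aleph0)
  have h3 : Algebra.trdeg ℂ (RatFunc M) = (m' + 1 : ℕ) := trdeg_ratFunc_aux hm'
  have h4 : Algebra.trdeg ℂ E ≤ Algebra.trdeg ℂ (RatFunc M) :=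
    trdeg_le_of_injective φ φ.toRingHom.injective
  rw [hE, h3] at h4
  rw [hm'] at hMle
  have h5 : n + 1 ≤ m' + 1 := by exact_mod_cast h4
  have h6 : m' ≤ n := by exact_mod_cast hMle
  have h7 : m' = n := by omega
  refine ⟨M, φ, (algebraMap R F).comp (e1 : RatFunc M →+* R), hess, by rw [hm', h7], ?_, ?_, ?_⟩
  · intro f
    change ((e1 (e1.symm (ψ' f)) : R) : F) = ψ f
    rw [AlgEquiv.apply_symm_apply]
    rfl
  · change ((e1 RatFunc.X : R) : F) = s
    have := RatFunc.algEquivOfTranscendental_X s hsM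
    exact this
  · intro m
    change ((e1 (algebraMap M (RatFunc M) m) : R) : F) = _
    rw [AlgEquiv.commutes]
    rfl

end A1

theorem t_A1 (hEXT : S_EXT) (hP1 : S_P1) : S_A1 := by
  intro n N Λ A _ _ _ _ _ _ _ _ _ _ hFF hN hΛ ψ s hs BN huniq
  have hchar : CharZero Λ := charZero_of_injective_algebraMap (algebraMap ℂ Λ).injective
  -- the choice of the generator
  obtain ⟨s', hs', hneg⟩ : ∃ s' : A, IntermediateField.adjoin Λ {s'} = ⊤ ∧
      ∀ (w : Place Λ A) (v : Place ℂ N) (e : ℕ), 0 < e → (∀ f, w.ord (ψ f) = e * v.ord f) →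
        BN v → w.ord s' < 0 := by
    by_cases h : ∃ (w : Place Λ A) (v : Place ℂ N) (e : ℕ), 0 < e ∧
        (∀ f, w.ord (ψ f) = e * v.ord f) ∧ BN v
    · obtain ⟨w0, v0, e0, he0, h0, hb0⟩ := h
      obtain ⟨s', hs', hlt⟩ := (hP1 hFF s hs).1 w0
      refine ⟨s', hs', fun w v e he hw hb => ?_⟩
      rw [huniq w w0 v v0 e e0 he he0 hw h0 hb hb0]
      exact hlt
    · exact ⟨s, hs, fun w v e he hw hb => absurd ⟨w, v, e, he, hw, hb⟩ h⟩
  have htr : Transcendental Λ s' := A1.transcendental_gen hFF s' hs'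
  obtain ⟨M, φ, ρ, hess, hM, hρφ, hρX, hρc⟩ := A1.model hN hΛ ψ s' htr
    (fun e => by rw [hs']; trivial)
  refine ⟨M, inferInstance, inferInstance, φ, hess, by rw [hM]; push_cast; rfl, ?_⟩
  intro w hX v e he hw hb
  have halg : Algebra.IsAlgebraic M Λ := by
    rw [← trdeg_eq_zero_iff]
    have h1 := trdeg_add_eq ℂ M (A := Λ)
    rw [hM, hΛ] at h1
    have h2 : (n : Cardinal) + Algebra.trdeg M Λ = n + 0 := by rw [h1, add_zero]
    exact Cardinal.eq_of_add_eq_add_left h2 Cardinal.natCast_lt_aleph0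
  obtain ⟨W, e1, he1, hW⟩ := hEXT hFF (algebraMap M Λ) ρ hρc
    (fun c => (halg.isAlgebraic c).isIntegral) w
  have h1 : W.ord s' < 0 := by
    refine hneg W v (e1 * e) (Nat.mul_pos he1 he) (fun f => ?_) hb
    rw [← hρφ f, hW, hw f]
    push_cast
    ring
  have h2 : W.ord s' = e1 * w.ord RatFunc.X := by rw [← hρX, hW]
  have h3 : 0 ≤ w.ord RatFunc.X := by
    rcases hX with h | h
    · rw [h, w.ord_zero]
    · exact h
  have h4 : 0 ≤ (e1 : ℤ) * w.ord RatFunc.X := mul_nonneg (by positivity) h3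
  omega

end Pool.Agent.Helper320.PCL
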