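import Pool.Agent.Helper320.PCL.Stm2
import Pool.Agent.H427R3.ZT.Riem

/-!
Extension of a place to a function field over a larger algebraically closed field of constants
(helper229).
-/

set_option autoImplicit false
set_option linter.overlappingInstances false
set_option linter.unusedSectionVars false

open FF Pool.Agent.W603.LV

namespace Pool.Agent.Helper320.PCL.EXT

/-- An element which is integral over a valuation subring lies in it. -/
theorem mem_of_int {A : Type} [Field A] (V : ValuationSubring A) {x : A} (hx : IsIntegral V x) :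
    x ∈ V := by
  obtain ⟨y, hy⟩ := (IsIntegrallyClosed.isIntegral_iff (R := V) (K := A)).1 hx
  rw [← hy]
  exact y.2

/-- A valuation ring which dominates the image of the valuation ring of a place. -/
theorem exists_V {M R A : Type} [Field M] [Field R] [Field A] [Algebra M R] (ψ : R →+* A)
    (w : Place M R) : ∃ V : ValuationSubring A, (∀ f : R, w.Reg f → ψ f ∈ V) ∧
      ∀ f : R, 0 < w.ord f → ψ f ∈ V.nonunits := by
  let φ : w.O →+* A := ψ.comp w.O.subtype
  have hinj : Function.Injective φ := ψ.injective.comp Subtype.val_injective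
  have hbij : Function.Bijective φ.rangeRestrict :=
    ⟨fun a b hab => hinj (congrArg Subtype.val hab), φ.rangeRestrict_surjective⟩
  let e : w.O ≃+* φ.range := RingEquiv.ofBijective φ.rangeRestrict hbij
  let I : Ideal φ.range := Ideal.comap (e.symm : φ.range →+* w.O) (IsLocalRing.maximalIdeal w.O)
  have hI : I ≠ ⊤ := Ideal.comap_ne_top _ (IsLocalRing.maximalIdeal.isMaximal w.O).ne_top
  obtain ⟨V, hV1, hV2⟩ := Ideal.image_subset_nonunits_valuationSubring I hI
  refine ⟨V, fun f hf => hV1 ⟨⟨f, hf⟩, rfl⟩, fun f hf => hV2 ?_⟩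
  have hf0 : f ≠ 0 := by
    rintro rfl
    rw [w.ord_zero] at hf
    exact lt_irrefl _ hf
  have hreg : w.Reg f := Or.inr hf.le
  refine ⟨e ⟨f, hreg⟩, ?_, rfl⟩
  change (e.symm (e ⟨f, hreg⟩)) ∈ IsLocalRing.maximalIdeal w.O
  rw [RingEquiv.symm_apply_apply, IsLocalRing.mem_maximalIdeal]
  intro hu
  rw [w.isUnit_O_iff] at hu
  rcases hu with ⟨_, h⟩
  omega

end Pool.Agent.Helper320.PCL.EXT

namespace Pool.Agent.Helper320.PCL

open Pool.Agent.Helper320.PCL.EXT

theorem t_EXT : S_EXT := by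
  intro M R Λ A _ _ _ _ _ _ _ _ hFF ι ψ hι hint w
  have := hFF
  obtain ⟨V, hV1, hV2⟩ := exists_V ψ w
  have hM : ∀ m : M, ψ (algebraMap M R m) ∈ V := fun m => hV1 _ (w.reg_const m)
  let j : M →+* V := (ψ.comp (algebraMap M R)).codRestrict V.toSubring hM
  have hk : ∀ a : Λ, algebraMap Λ A a ∈ V := by
    intro c
    apply mem_of_int
    obtain ⟨p, hp, hp0⟩ := hint c
    refine ⟨p.map j, hp.map j, ?_⟩
    rw [Polynomial.eval₂_map]
    have h1 : (algebraMap V A).comp j = (algebraMap Λ A).comp ι := by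
      ext m
      exact hι m
    rw [h1, ← Polynomial.hom_eval₂, hp0, map_zero]
  obtain ⟨t, ht0, ht⟩ := w.surj
  have hψ0 : ∀ {f : R}, f ≠ 0 → ψ f ≠ 0 := fun hf => by
    rwa [Ne, map_eq_zero]
  have hVt : V ≠ ⊤ := by
    rintro rfl
    have h1 := hV2 t (by rw [ht]; exact one_pos)
    rw [ValuationSubring.mem_nonunits_iff_or] at h1
    rcases h1 with h1 | h1
    · exact hψ0 ht0 h1
    · exact h1 trivial
  obtain ⟨W, hW⟩ := Pool.Agent.H427R3.ZT.exists_place_O V hk hVt
  have hpos : ∀ f : R, 0 < w.ord f → 0 < W.ord (ψ f) := by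
    intro f hf
    have hf0 : f ≠ 0 := by
      rintro rfl
      rw [w.ord_zero] at hf
      exact lt_irrefl _ hf
    have h1 := hV2 f hf
    rw [ValuationSubring.mem_nonunits_iff_or] at h1
    rcases h1 with h1 | h1
    · exact absurd h1 (hψ0 hf0)
    · rw [← hW] at h1
      by_contra hcon
      apply h1
      change W.Reg _
      right
      rw [W.ord_inv]
      omega
  have hnn : ∀ f : R, f ≠ 0 → 0 ≤ w.ord f → 0 ≤ W.ord (ψ f) := by
    intro f hf0 hf
    have h1 := hV1 f (Or.inr hf)
    rw [← hW] at h1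
    exact (W.reg_iff (hψ0 hf0)).1 h1
  have hz : ∀ f : R, f ≠ 0 → w.ord f = 0 → W.ord (ψ f) = 0 := by
    intro f hf0 hf
    have h1 := hnn f hf0 hf.ge
    have h2 := hnn f⁻¹ (inv_ne_zero hf0) (by rw [w.ord_inv, hf]; simp)
    rw [map_inv₀, W.ord_inv] at h2
    omega
  have htp : 0 < W.ord (ψ t) := hpos t (by rw [ht]; exact one_pos)
  refine ⟨W, (W.ord (ψ t)).toNat, by omega, fun f => ?_⟩
  have he : ((W.ord (ψ t)).toNat : ℤ) = W.ord (ψ t) := Int.toNat_of_nonneg htp.le
  rw [he]
  by_cases hf : f = 0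
  · subst hf
    rw [map_zero, W.ord_zero, w.ord_zero, mul_zero]
  · have hta : t ^ (w.ord f) ≠ 0 := zpow_ne_zero _ ht0
    have h1 : w.ord (f / t ^ (w.ord f)) = 0 := by
      rw [w.ord_div hf hta, w.ord_zpow, ht]
      ring
    have h2 := hz _ (div_ne_zero hf hta) h1
    rw [map_div₀, map_zpow₀, W.ord_div (hψ0 hf) (zpow_ne_zero _ (hψ0 ht0)), W.ord_zpow] at h2
    linarith

end Pool.Agent.Helper320.PCL
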