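import Pool.Agent.Helper320.PCL.Stm2
import Pool.Agent.W619.PQ.Rat

/-! Functions on the projective line. -/

set_option autoImplicit false
set_option linter.overlappingInstances false
set_option linter.unusedSectionVars false

open FF IntermediateField

namespace Pool.Agent.Helper320.PCL

namespace P1

open Pool.Agent.W603.LV Pool.Agent.W619.PQ

variable {k : Type*} [Field k] [CharZero k] [IsAlgClosed k]
  {E : Type*} [Field E] [Algebra k E] [IsFF k E]

/-- the coordinate of a finite place -/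
theorem coord {x : E} (hx : k⟮x⟯ = ⊤) (Q : Place k E) (hQ : 0 ≤ Q.ord x) :
    ∃ a : k, Q.ord (x - algebraMap k E a) = 1 ∧
      ∀ Q' : Place k E, 0 < Q'.ord (x - algebraMap k E a) → Q' = Q := by
  obtain ⟨D, hD, hDx⟩ := exists_ddx (transcendental_of_top hx)
  exact (vo_finite_place hx hD hDx Q hQ).2

/-- the order of `x - b` at the pole -/
theorem ord_pole {x : E} (hx : k⟮x⟯ = ⊤) {P : Place k E} (hP : P.ord x = -1) (b : k) :
    P.ord (x - algebraMap k E b) = -1 := by
  have ht := transcendental_of_top hx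
  have hx0 : x ≠ 0 := fun h => ht (by rw [h]; exact isAlgebraic_zero)
  by_cases hb : b = 0
  · rw [hb, map_zero, sub_zero, hP]
  · have h2 : P.ord (-(algebraMap k E b)) = 0 := by rw [P.ord_neg, P.ord_const hb]
    have h3 := P.ord_add_eq (f := x) (g := -(algebraMap k E b)) hx0
      (by simpa using hb) (by omega)
    rw [← sub_eq_add_neg, hP] at h3
    exact h3.2

/-- the order of `x - a` at all other places -/
theorem ord_other {x : E} (hx : k⟮x⟯ = ⊤) {P Q : Place k E}
    (hP : ∀ Q : Place k E, Q.ord x < 0 → Q = P) {a : k}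
    (ha : ∀ Q' : Place k E, 0 < Q'.ord (x - algebraMap k E a) → Q' = Q)
    {w : Place k E} (h1 : w ≠ P) (h2 : w ≠ Q) : w.ord (x - algebraMap k E a) = 0 := by
  have ht := transcendental_of_top hx
  have h0 : 0 ≤ w.ord x := by
    by_contra h
    exact h1 (hP w (by omega))
  have h3 : 0 ≤ w.ord (x - algebraMap k E a) := by
    have h4 : Ge w 0 (x - algebraMap k E a) := Ge.sub (Or.inr h0) (Ge.const _)
    exact h4.resolve_left (sub_const_ne ht _)
  by_contra h5
  exact h2 (ha w (by omega))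

theorem main {s : E} (hs : k⟮s⟯ = ⊤) :
    (∀ w : Place k E, ∃ s' : E, k⟮s'⟯ = ⊤ ∧ w.ord s' < 0) ∧
    ∀ w1 w2 : Place k E, w1 ≠ w2 →
      ∃ t : E, t ≠ 0 ∧ 0 < w1.ord t ∧ ∀ w, w ≠ w1 → w ≠ w2 → w.ord t = 0 := by
  have ht := transcendental_of_top hs
  obtain ⟨P, hP, hP2⟩ := pole_unique hs
  have hfin : ∀ Q : Place k E, Q ≠ P → 0 ≤ Q.ord s := by
    intro Q hQ
    by_contra hcon
    exact hQ (hP2 Q (by omega))
  have hne : ∀ a : k, s - algebraMap k E a ≠ 0 := fun a => sub_const_ne ht a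
  refine ⟨fun w => ?_, fun w1 w2 h12 => ?_⟩
  · by_cases hw : w = P
    · exact ⟨s, hs, by rw [hw, hP]; norm_num⟩
    · obtain ⟨a, ha1, -⟩ := coord hs w (hfin w hw)
      refine ⟨(s - algebraMap k E a)⁻¹, ?_, ?_⟩
      · rw [adjoin_inv, top_sub hs a]
      · rw [w.ord_inv, ha1]; norm_num
  · by_cases h2P : w2 = P
    · subst h2P
      obtain ⟨a, ha1, ha2⟩ := coord hs w1 (hfin w1 h12)
      refine ⟨s - algebraMap k E a, hne a, by rw [ha1]; norm_num, fun w hw1 hw2 => ?_⟩
      exact ord_other hs hP2 ha2 hw2 hw1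
    · obtain ⟨b, hb1, hb2⟩ := coord hs w2 (hfin w2 h2P)
      by_cases h1P : w1 = P
      · subst h1P
        refine ⟨(s - algebraMap k E b)⁻¹, inv_ne_zero (hne b), ?_, fun w hw1 hw2 => ?_⟩
        · rw [w1.ord_inv, ord_pole hs hP]; norm_num
        · rw [w.ord_inv, ord_other hs hP2 hb2 hw1 hw2, neg_zero]
      · obtain ⟨a, ha1, ha2⟩ := coord hs w1 (hfin w1 h1P)
        refine ⟨(s - algebraMap k E a) / (s - algebraMap k E b), div_ne_zero (hne a) (hne b),
          ?_, fun w hw1 hw2 => ?_⟩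
        · rw [w1.ord_div (hne a) (hne b), ha1, ord_other hs hP2 hb2 h1P h12]; norm_num
        · rw [w.ord_div (hne a) (hne b)]
          by_cases hwP : w = P
          · subst hwP
            rw [ord_pole hs hP, ord_pole hs hP]; norm_num
          · rw [ord_other hs hP2 ha2 hwP hw1, ord_other hs hP2 hb2 hwP hw2]; norm_num

end P1

theorem t_P1 : S_P1 := by
  intro Λ E _ _ _ _ _ hF s hs
  haveI := hF
  exact P1.main hs

end Pool.Agent.Helper320.PCL
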