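import Pool.Agent.Helper320.PCL.Stm2

/-!
Functions on the product of a curve and a variety with zeros and poles over finitely many points
of the curve.
-/

set_option autoImplicit false
set_option linter.overlappingInstances false
set_option linter.unusedSectionVars false

open FF Pool.Agent.W603.LV
open Pool.Agent.W619.TW (Cur)

namespace Pool.Agent.Helper320.PCL

namespace TWO

variable {k L : Type} [Field k] [Field L] [Algebra k L] [CharZero k] [IsAlgClosed k]
  {M F : IntermediateField k L}

/-- the bound of the order of an element of the ring is read off from the coefficients -/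
theorem ge_iff (hcur : Cur M F) (w : Place M L) (q : Place k F)
    (hw : ∀ β : F, w.ord (β : L) = q.ord β)
    (s : Finset (Module.Basis.ofVectorSpaceIndex k M))
    (β : Module.Basis.ofVectorSpaceIndex k M → F) (N : ℤ) :
    Ge w N (∑ i ∈ s, ((Module.Basis.ofVectorSpace k M i : M) : L) * (β i : L)) ↔
      ∀ i ∈ s, Ge q N (β i) := by
  have hff := hcur.ff
  have hb := (Module.Basis.ofVectorSpace k M).linearIndependent
  constructor
  · intro h
    exact Pool.Agent.W619.TW.res' w q 1 one_pos (fun β => by rw [hw]; simp) s _ hb β N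
      (by simpa using h)
  · intro h
    refine Ge.sum s _ fun i hi => ?_
    have h2 : Ge w N ((β i : F) : L) := by
      rcases h i hi with h0 | h0
      · left; rw [h0]; rfl
      · right; rw [hw]; exact h0
    have h3 := (Pool.Agent.W619.TW.ge_M w (Module.Basis.ofVectorSpace k M i).2).mul h2
    simpa using h3

theorem ord_eq_of_ge {w w' : Place M L} {y : L} (hy : y ≠ 0) (h : ∀ N, Ge w N y ↔ Ge w' N y) :
    w.ord y = w'.ord y := by
  apply le_antisymm
  · exact ((h _).1 (Or.inr le_rfl)).resolve_left hy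
  · exact ((h _).2 (Or.inr le_rfl)).resolve_left hy

/-- uniqueness of the extension -/
theorem uniq (hcur : Cur M F) (w w' : Place M L) (q : Place k F)
    (hw : ∀ β : F, w.ord (β : L) = q.ord β) (hw' : ∀ β : F, w'.ord (β : L) = q.ord β) (y : L) :
    w.ord y = w'.ord y := by
  have hR : ∀ a ∈ Pool.Agent.W619.TW.RR M F, w.ord a = w'.ord a := by
    intro a ha
    by_cases ha0 : a = 0
    · rw [ha0, w.ord_zero, w'.ord_zero]
    obtain ⟨s, β, hs⟩ := Pool.Agent.W619.TW.RR.expand ha
    refine ord_eq_of_ge ha0 fun N => ?_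
    rw [hs, ge_iff hcur w q hw, ge_iff hcur w' q hw']
  obtain ⟨a, ha, b, hb, hb0, rfl⟩ := hcur.frac y
  by_cases ha0 : a = 0
  · rw [ha0, zero_div, w.ord_zero, w'.ord_zero]
  · rw [w.ord_div ha0 hb0, w'.ord_div ha0 hb0, hR a ha, hR b hb]

/-- a function of the curve without poles is algebraic -/
theorem alg_of_no_pole [IsFF k F] (u : F) (h : ∀ P : Place k F, Ge P 0 u) : IsAlgebraic k u := by
  by_contra hcon
  obtain ⟨S, hS, hS2⟩ := poles (k := k) (K := F) hcon
  have hfin := IsFF.finite hcon
  have hpos : 0 < Module.finrank (IntermediateField.adjoin k {u}) F := Module.finrank_pos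
  obtain ⟨P, hP⟩ : S.Nonempty := by
    rw [Finset.nonempty_iff_ne_empty]
    rintro rfl
    rw [Finset.sum_empty] at hS2
    omega
  have h2 := (hS P).1 hP
  rcases h P with h3 | h3
  · rw [h3, P.ord_zero] at h2
    omega
  · omega

/-- a function of the product without zeros and poles is a function of the variety -/
theorem mem_M (hcur : Cur M F) (z : L) (hord : ∀ w : Place M L, Ge w 0 z) : z ∈ M := by
  classical
  have hff := hcur.ff
  obtain ⟨s, β, hs, hβ⟩ := hcur.mem_span (0 : Place k F →₀ ℤ) z (fun w _ => hord w)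
    (fun w q _ => by simpa using hord w)
  rw [hs]
  refine sum_mem fun i hi => ?_
  refine mul_mem (Subtype.property _) ?_
  have h1 : IsAlgebraic k (β i) := by
    refine alg_of_no_pole _ fun P => ?_
    rcases (mem_LL.1 (hβ i hi)) with h3 | h3
    · exact Or.inl h3
    · right
      have h4 := h3 P
      simpa using h4
  obtain ⟨a, h2⟩ := minpoly.mem_range_of_degree_eq_one k (β i)
    (IsAlgClosed.degree_eq_one_of_irreducible k (minpoly.irreducible h1.isIntegral))
  rw [← h2]
  exact M.algebraMap_mem a

/-- a function of the curve with zeros at least those of `z` -/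
theorem exists_fun (hcur : Cur M F) (D : Place k F →₀ ℤ) (z : L) (hz : z ≠ 0)
    (h1 : ∀ w : Place M L, (∀ β : F, w.ord (β : L) = 0) → w.ord z = 0)
    (h2 : ∀ (w : Place M L) (q : Place k F), (∀ β : F, w.ord (β : L) = q.ord β) →
      w.ord z = - D q) : ∃ u : F, u ≠ 0 ∧ ∀ P : Place k F, - D P ≤ P.ord u := by
  have hff := hcur.ff
  obtain ⟨s, β, hs, hβ⟩ := hcur.mem_span D z (fun w hw => Or.inr (h1 w hw).ge)
    (fun w q hw => Or.inr (h2 w q hw).ge)
  have hne : ∃ i ∈ s, β i ≠ 0 := by
    by_contra hcon
    push Not at hcon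
    apply hz
    rw [hs]
    refine Finset.sum_eq_zero fun i hi => ?_
    rw [hcon i hi]
    simp
  obtain ⟨i, hi, hi0⟩ := hne
  exact ⟨β i, hi0, (mem_LL.1 (hβ i hi)).resolve_left hi0⟩

end TWO

theorem t_TWO : S_TWO := by
  intro k L _ _ _ _ _ M F hcur B z hz hB
  classical
  have hff := hcur.ff
  choose W hW using fun q => hcur.exists_ext q
  -- the divisor
  obtain ⟨D, hD⟩ : ∃ D : Place k F →₀ ℤ, ∀ q, D q = if q ∈ B then -((W q).ord z) else 0 := by
    refine ⟨Finsupp.onFinset B (fun q => if q ∈ B then -((W q).ord z) else 0) ?_, fun q => rfl⟩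
    intro q hq
    by_contra h
    exact hq (if_neg h)
  have ht1 : ∀ w : Place M L, (∀ β : F, w.ord (β : L) = 0) → w.ord z = 0 := by
    intro w hw
    by_contra hne
    obtain ⟨q, -, hq⟩ := hB w hne
    obtain ⟨t, -, ht⟩ := q.surj
    have := hq t
    rw [hw, ht] at this
    omega
  have ht2 : ∀ (w : Place M L) (q : Place k F), (∀ β : F, w.ord (β : L) = q.ord β) →
      w.ord z = - D q := by
    intro w q hw
    rw [hD]
    by_cases hq : q ∈ B
    · rw [if_pos hq, neg_neg]
      exact TWO.uniq hcur w (W q) q hw (hW q) z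
    · rw [if_neg hq, neg_zero]
      by_contra hne
      obtain ⟨q', hq', h3⟩ := hB w hne
      have h4 : q = q' := by
        apply Place.ext
        funext β
        rw [← hw, h3]
      exact hq (h4 ▸ hq')
  obtain ⟨u, hu0, hu⟩ := TWO.exists_fun hcur D z hz ht1 ht2
  obtain ⟨u', hu0', hu'⟩ := TWO.exists_fun hcur (-D) z⁻¹ (inv_ne_zero hz)
    (fun w hw => by rw [w.ord_inv, ht1 w hw, neg_zero])
    (fun w q hw => by rw [w.ord_inv, ht2 w q hw]; simp)
  have hsum : ∀ P : Place k F, P.ord u + P.ord u' = 0 := by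
    intro P
    have h1 : IsAlgebraic k (u * u') := by
      refine TWO.alg_of_no_pole _ fun P => Or.inr ?_
      rw [P.ord_mul hu0 hu0']
      have h2 := hu P
      have h3 := hu' P
      simp only [Finsupp.neg_apply, neg_neg] at h3
      linarith
    rw [← P.ord_mul hu0 hu0']
    by_contra hne
    exact (P.transcendental_of_ord_ne hne) h1
  have hord : ∀ P : Place k F, P.ord u = - D P := by
    intro P
    have h2 := hu P
    have h3 := hu' P
    have h4 := hsum P
    simp only [Finsupp.neg_apply, neg_neg] at h3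
    linarith
  have huL : (u : L) ≠ 0 := fun h => hu0 (Subtype.ext h)
  refine ⟨u, hu0, fun P hP => ?_, z / (u : L), ?_, ?_⟩
  · rw [hord, hD, if_neg hP, neg_zero]
  · refine TWO.mem_M hcur _ fun w => Or.inr ?_
    rw [w.ord_div hz huL]
    rcases hcur.trichotomy w with h1 | ⟨q, hq⟩
    · rw [ht1 w h1, h1 u]; simp
    · rw [ht2 w q hq, hq u, hord q]; simp
  · rw [div_mul_cancel₀ _ huL]

end Pool.Agent.Helper320.PCL
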