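import Pool.Agent.Helper320.PCL.Stm2
import Pool.Agent.Helper320.PC.Spf
import Pool.Agent.TH466.QG.Low

/-!
Images of products of open curves: at most one place of the geometric generic fibre is in the
boundary.
-/

set_option autoImplicit false
set_option linter.overlappingInstances false
set_option linter.unusedSectionVars false

open FF Pool.Agent.W603.LV
open Pool.Agent.W619.TW (Cur)

namespace Pool.Agent.Helper320.PCL.UNI

open Pool.Agent.Helper320.PC

/-- two normalised places which are proportional are equal -/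
theorem pl_eq {k N : Type} [Field k] [CharZero k] [Field N] [Algebra k N] {P P' : Place k N} {a b : ℕ}
    (ha : 0 < a) (h : ∀ f, (a : ℤ) * P.ord f = b * P'.ord f) : P = P' := by
  obtain ⟨f, -, hf⟩ := P.surj
  obtain ⟨f', -, hf'⟩ := P'.surj
  have h2 := h f
  have h3 := h f'
  rw [hf, mul_one] at h2
  rw [hf', mul_one] at h3
  have h4 : (b : ℤ) ∣ a := ⟨_, h2⟩
  have h5 : (a : ℤ) ∣ b := ⟨_, h3.symm⟩
  have h6 : a = b := Nat.dvd_antisymm (by exact_mod_cast h5) (by exact_mod_cast h4)
  subst h6
  refine Pool.Agent.Y172.place_ext fun f => ?_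
  have he : (a : ℤ) ≠ 0 := by positivity
  exact mul_left_cancel₀ he (h f)

/-- a place over the constants `Λ` as a place over the image of `Λ` -/
def pImg {Λ A : Type} [Field Λ] [Algebra ℂ Λ] [Field A] [Algebra Λ A] [Algebra ℂ A]
    [IsScalarTower ℂ Λ A] (W : Place Λ A) :
    Place (SPF.img (k := ℂ) (Λ := Λ) (A := A)) A where
  ord := W.ord
  ord_zero := W.ord_zero
  ord_mul := W.ord_mul
  ord_add := W.ord_add
  ord_const := fun {c} hc => by
    obtain ⟨a, ha⟩ : ∃ a : Λ, algebraMap Λ A a = (c : A) := c.2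
    change W.ord (c : A) = 0
    rw [← ha]
    refine W.ord_const ?_
    rintro rfl
    rw [map_zero] at ha
    exact hc (Subtype.ext ha.symm)
  surj := W.surj

/-- a place over the image of `Λ` as a place over `Λ` -/
def pLam {Λ A : Type} [Field Λ] [Algebra ℂ Λ] [Field A] [Algebra Λ A] [Algebra ℂ A]
    [IsScalarTower ℂ Λ A] (w : Place (SPF.img (k := ℂ) (Λ := Λ) (A := A)) A) :
    Place Λ A where
  ord := w.ord
  ord_zero := w.ord_zero
  ord_mul := w.ord_mul
  ord_add := w.ord_add
  ord_const := fun {c} hc => by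
    have h1 : algebraMap Λ A c ∈ SPF.img (k := ℂ) (Λ := Λ) (A := A) := ⟨c, rfl⟩
    exact w.ord_const (c := ⟨algebraMap Λ A c, h1⟩) (fun h => hc (by
      have h2 := congrArg Subtype.val h
      exact (map_eq_zero (algebraMap Λ A)).1 h2))
  surj := w.surj

/-- restriction of the constants of a place -/
def pCon {k Λ A : Type} [Field k] [Field Λ] [Algebra k Λ] [Field A] [Algebra Λ A] [Algebra k A]
    [IsScalarTower k Λ A] (W : Place Λ A) : Place k A where
  ord := W.ord
  ord_zero := W.ord_zero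
  ord_mul := W.ord_mul
  ord_add := W.ord_add
  ord_const := fun {c} hc => by
    rw [IsScalarTower.algebraMap_apply k Λ A]
    exact W.ord_const (fun h => hc ((map_eq_zero _).1 h))
  surj := W.surj

end Pool.Agent.Helper320.PCL.UNI

namespace Pool.Agent.Helper320.PCL

open Pool.Agent.Helper320.PC

theorem t_UNI (hTWO : S_TWO) (hP1 : S_P1) : S_UNI := by
  intro K _ _ M0 Fi hcur B N _ BN hBN hN Λ A _ _ _ _ _ _ _ _ _ hKA hFF hgen hM0 htr FE _ hFEN s hs
    w1 w2 v1 v2 e1 e2 he1 he2 hw1 hw2 hB1 hB2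
  classical
  by_contra hne
  have hΛ0 : CharZero Λ := charZero_of_injective_algebraMap (algebraMap ℂ Λ).injective
  have hess : Algebra.EssFiniteType Λ A := hFF.ess
  have hessE : Algebra.EssFiniteType Λ FE := Pool.Agent.TH466.QG.ess_below (K := A)
  have htrE : Algebra.trdeg Λ FE = 1 := by
    have h1 := trdeg_add_eq Λ FE (A := A)
    have h2 : Algebra.trdeg FE A = 0 := trdeg_eq_zero
    rw [h2, add_zero, hFF.trdeg] at h1
    exact h1
  have hFFE : IsFF Λ FE := ⟨hessE, htrE⟩
  obtain ⟨t, ht0, ht1, ht2⟩ := (hP1 hFFE s hs).2 w1 w2 hne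
  have hz0 : (t : A) ≠ 0 := fun h => ht0 (Subtype.ext h)
  let φ : K →ₐ[ℂ] A := IsScalarTower.toAlgHom ℂ K A
  have hφ : ∀ y, φ y = algebraMap K A y := fun y => rfl
  have hcur' : Cur (SPF.img (k := ℂ) (Λ := Λ) (A := A)) (Fi.map φ) :=
    SPF.cur_img hcur φ hgen hM0 htr
  let e := Fi.equivMap φ
  have he : ∀ w : Fi, ((e w : Fi.map φ) : A) = φ (w : K) := fun w => rfl
  -- the places at which `t` has a zero or a pole
  have claim : ∀ W : Place Λ A, W.ord (t : A) ≠ 0 →
      ∃ p ∈ B, ∀ β : Fi, W.ord (algebraMap K A (β : K)) = p.ord β := by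
    intro W hW
    obtain ⟨w, ew, hew⟩ := Pool.Agent.Y172.exists_below (K := FE) W
    have hwt : w.ord t ≠ 0 := by
      intro h
      apply hW
      have h1 := hew.2 t
      rw [h, mul_zero] at h1
      exact h1
    obtain ⟨v, e', he', hv, hBv⟩ : ∃ (v : Place ℂ N) (e' : ℕ), 0 < e' ∧
        (∀ (f : N) (g : FE), (g : A) = algebraMap K A f → w.ord g = e' * v.ord f) ∧ BN v := by
      by_cases h1 : w = w1
      · subst h1
        exact ⟨v1, e1, he1, hw1, hB1⟩
      · by_cases h2 : w = w2
        · subst h2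
          exact ⟨v2, e2, he2, hw2, hB2⟩
        · exact absurd (ht2 w h1 h2) hwt
    obtain ⟨Q, eQ, hQ⟩ := Pool.Agent.Y172.exists_below (k := ℂ) (K := K) (UNI.pCon (k := ℂ) W)
    have hQ0 : (eQ : ℤ) ≠ 0 := by
      have := hQ.1
      positivity
    have hQW : ∀ y : K, W.ord (algebraMap K A y) = eQ * Q.ord y := hQ.2
    have hQM : ∀ z ∈ M0, Q.ord z = 0 := by
      intro z hz
      obtain ⟨a, ha⟩ := hM0 z hz
      have h1 := hQW z
      rw [← ha] at h1
      have h2 : W.ord (algebraMap Λ A a) = 0 := by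
        by_cases ha0 : a = 0
        · rw [ha0, map_zero, W.ord_zero]
        · exact W.ord_const ha0
      rw [h2] at h1
      exact (mul_eq_zero.1 h1.symm).resolve_left hQ0
    obtain ⟨v', ev, hev⟩ := Pool.Agent.Y172.exists_below (k := ℂ) (K := N) Q
    have hvv : v' = v := by
      refine UNI.pl_eq (a := eQ * ev) (b := ew * e') (Nat.mul_pos hQ.1 hev.1) fun f => ?_
      have h1 : algebraMap K A (f : K) ∈ FE := (hFEN _).2 f.2
      have h2 := hv f ⟨_, h1⟩ rfl
      have h3 := hew.2 ⟨_, h1⟩
      have h4 := hQW (f : K)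
      have h5 := hev.2 f
      change W.ord (algebraMap K A (f : K)) = _ at h3
      change Q.ord (f : K) = _ at h5
      rw [h2, h4, h5] at h3
      push_cast
      linarith
    rw [hvv] at hev
    obtain ⟨p, hp, e4, hp4⟩ := hBN v Q ev hev hQM hBv
    have hWp : ∀ β : Fi, W.ord (algebraMap K A (β : K)) = (eQ * e4 : ℕ) * p.ord β := by
      intro β
      have h1 := hQW (β : K)
      have h2 := hp4.2 β
      change Q.ord (β : K) = _ at h2
      rw [h1, h2]
      push_cast
      ring
    have hone : eQ * e4 = 1 := by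
      refine hcur'.ram_one (UNI.pImg W) (SPF.tpl e p) (eQ * e4) (Nat.mul_pos hQ.1 hp4.1)
        fun β => ?_
      have h1 := hWp (e.symm β)
      have h2 : algebraMap K A ((e.symm β : Fi) : K) = (β : A) := by
        rw [← hφ, ← he, e.apply_symm_apply]
      rw [h2] at h1
      exact h1
    refine ⟨p, hp, fun β => ?_⟩
    rw [hWp, hone]
    push_cast
    ring
  obtain ⟨u, hu0, huB, m, hm, hzm⟩ := hTWO (SPF.img (k := ℂ) (Λ := Λ) (A := A)) (Fi.map φ) hcur'
    (B.image (SPF.tpl e)) (t : A) hz0 (by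
      intro w hw
      obtain ⟨p, hp, hpβ⟩ := claim (UNI.pLam w) hw
      refine ⟨SPF.tpl e p, Finset.mem_image_of_mem _ hp, fun β => ?_⟩
      have h1 := hpβ (e.symm β)
      have h2 : algebraMap K A ((e.symm β : Fi) : K) = (β : A) := by
        rw [← hφ, ← he, e.apply_symm_apply]
      rw [h2] at h1
      exact h1)
  obtain ⟨a, ha⟩ : ∃ a : Λ, algebraMap Λ A a = m := hm
  have hm0 : m ≠ 0 := by
    rintro rfl
    rw [zero_mul] at hzm
    exact hz0 hzm
  have hu : (u : A) = algebraMap K A ((e.symm u : Fi) : K) := by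
    rw [← hφ, ← he, e.apply_symm_apply]
  have huFE : algebraMap K A ((e.symm u : Fi) : K) ∈ FE := by
    rw [← hu]
    have h1 : (u : A) = (t : A) / m := by
      rw [hzm, mul_div_cancel_left₀ _ hm0]
    rw [h1, ← ha]
    exact div_mem t.2 (FE.algebraMap_mem a)
  have huN := (hFEN _).1 huFE
  have hualg : IsAlgebraic ℂ (e.symm u : Fi) := by
    refine hN _ huN fun P hP => ?_
    have h1 : SPF.tpl e P ∉ B.image (SPF.tpl e) := by
      intro h
      obtain ⟨P', hP', h2⟩ := Finset.mem_image.1 h
      apply hP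
      have h3 : P' = P := by
        refine Pool.Agent.Y172.place_ext fun f => ?_
        have h4 := congrArg (fun R : Place ℂ (Fi.map φ) => R.ord (e f)) h2
        change P'.ord (e.symm (e f)) = P.ord (e.symm (e f)) at h4
        rwa [e.symm_apply_apply] at h4
      rwa [← h3]
    exact huB _ h1
  have h1 : IsAlgebraic Λ (u : A) := by
    rw [hu]
    have h2 : IsAlgebraic ℂ (algebraMap K A ((e.symm u : Fi) : K)) := by
      have h3 : IsAlgebraic ℂ ((e.symm u : Fi) : K) := by
        exact hualg.algHom (Fi.val)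
      exact h3.algHom φ
    exact h2.extendScalars (algebraMap ℂ Λ).injective
  have h2 : IsAlgebraic Λ (t : A) := by
    rw [hzm, ← ha]
    exact (isAlgebraic_algebraMap a).mul h1
  have h3 : Transcendental Λ t := w1.transcendental_of_ord_ne (by omega)
  exact h3 ((isAlgebraic_algebraMap_iff (algebraMap FE A).injective).1 h2)

end Pool.Agent.Helper320.PCL
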