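import Pool.Agent.Helper320.PCL.Main
import Pool.Agent.Helper320.PCL.Two
import Pool.Agent.Helper320.PCL.Ext
import Pool.Agent.Helper320.PCL.P1
import Pool.Agent.Helper320.PCL.Uni
import Pool.Agent.Helper320.PCL.A1

/-!
Images of products of open curves of large gonality: `A¹`-uniruled or of large Kodaira dimension.
-/

set_option autoImplicit false
set_option linter.overlappingInstances false
set_option linter.unusedSectionVars false
set_option maxHeartbeats 4000000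
set_option synthInstance.maxHeartbeats 400000

open FF Pool.Agent.W603.LV
open Pool.Agent.W602.GT (IsPluri Divisorial RegAt LogAt KodGe LogSec)
open Pool.Agent.W619.PQ (extForm IsUniruled)
open Pool.Agent.W619.PL (IsA1Uniruled)
open Pool.Agent.W619.TW (MM Cur)
open Pool.Agent.Y172 (exists_crd exists_lift lift_dual pluri_coord)
open Pool.Agent.Y184.NT (trForm trForm_pluri trForm_reg)
open Pool.Agent.Helper320.PC (ess_sup form_eq exists_basis_reg alg_mem trdeg_MM)

namespace Pool.Agent.Helper320.PCL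

/-- places of a subfield -/
theorem over_mid {K L : Type} [Field K] [Algebra ℂ K] [Field L] [Algebra ℂ L] [Algebra L K]
    [IsScalarTower ℂ L K] (N : IntermediateField ℂ K) (hmem : ∀ z : L, algebraMap L K z ∈ N)
    {Q Q' : Place ℂ K} {v : Place ℂ N} {e e0 : ℕ} (h : Over Q v e) (h0 : Over Q' v e0)
    {P : Place ℂ L} {e' : ℕ} (hP : Over Q' P e') : ∃ e'' : ℕ, Over Q P e'' := by
  have h1 : ∀ f : L, Q.ord (algebraMap L K f) = e * v.ord ⟨algebraMap L K f, hmem f⟩ :=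
    fun f => h.2 ⟨algebraMap L K f, hmem f⟩
  have h2 : ∀ f : L, (e0 : ℤ) * v.ord ⟨algebraMap L K f, hmem f⟩ = e' * P.ord f := by
    intro f
    rw [← hP.2 f]
    exact (h0.2 ⟨algebraMap L K f, hmem f⟩).symm
  obtain ⟨t, -, ht⟩ := P.surj
  have he0 : (0 : ℤ) < e0 := by exact_mod_cast h0.1
  have he' : (0 : ℤ) < e' := by exact_mod_cast hP.1
  have h3 := h2 t
  rw [ht, mul_one] at h3
  obtain ⟨a, ha⟩ : ∃ a : ℤ, a = v.ord ⟨algebraMap L K t, hmem t⟩ := ⟨_, rfl⟩
  rw [← ha] at h3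
  have ha0 : 0 < a := by
    by_contra hcon
    have : (e0 : ℤ) * a ≤ 0 := mul_nonpos_of_nonneg_of_nonpos he0.le (not_lt.1 hcon)
    omega
  have h4 : ∀ f : L, v.ord ⟨algebraMap L K f, hmem f⟩ = a * P.ord f := by
    intro f
    apply mul_left_cancel₀ he0.ne'
    rw [h2, ← h3]
    ring
  refine ⟨e * a.toNat, Nat.mul_pos h.1 (by omega), fun f => ?_⟩
  rw [h1, h4]
  push_cast
  rw [Int.toNat_of_nonneg ha0.le]
  ring

/-- **Logarithmic genus zero implies `A¹`-uniruled.** -/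
theorem a1_main {m : ℕ} {K : Type} [Field K] [Algebra ℂ K]
    (hK : Algebra.trdeg ℂ K = (m + 1 : ℕ)) (F : Fin (m + 1) → IntermediateField ℂ K)
    [hF : ∀ i, IsFF ℂ (F i)] (B : ∀ i, Finset (Place ℂ (F i))) (hsup : ⨆ i, F i = ⊤)
    (L : Type) [Field L] [Algebra ℂ L] [Algebra L K] [IsScalarTower ℂ L K]
    [FiniteDimensional L K] (I : Finset (Fin (m + 1))) (γ : Fin (m + 1) → ℕ)
    (hγ : ∀ i, LGonGe ℂ (F i) (B i) (γ i)) (L' : IntermediateField L K)
    (hL' : L' = IntermediateField.adjoin L (⋃ i ∈ I, (F i : Set K)))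
    (hI : ∀ i ∈ I, Module.finrank L (IntermediateField.adjoin L (F i : Set K)) < γ i)
    (hJ : ∀ i, i ∉ I → 2 ≤ γ i)
    (h1 : ∀ i j, i ∉ I → j ∉ I → i ≠ j → Module.finrank L' K + 3 ≤ γ i + γ j)
    (h2 : (∀ i j, i ∉ I → j ∉ I → i = j) ∨ ∀ i, i ∉ I → Module.finrank L' K + 1 ≤ 2 * γ i)
    (BL : Place ℂ L → Prop)
    (hBL : ∀ (P : Place ℂ L) (Q : Place ℂ K) (e : ℕ), Over Q P e → (BL P ↔ BdK F B Q))
    (hg : ∀ ω : (Fin (m + 1) → Derivation ℂ L L) → L, LogSec ℂ L (m + 1) 1 BL ω →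
      ∀ D, ω D = 0) :
    IsA1Uniruled ℂ L (m + 1) BL ∧
      ∃ i, i ∉ I ∧ γ i ≤ Module.finrank L' K ∧ ∀ j, j ≠ i → ∀ z ∈ F j, z ∈ L' := by
  classical
  have hess : Algebra.EssFiniteType ℂ K := ess_sup F hsup
  have hessL : Algebra.EssFiniteType ℂ L := Pool.Agent.TH466.QG.ess_below (K := K)
  have hL : Algebra.trdeg ℂ L = (m + 1 : ℕ) := Pool.Agent.Y184.NT.trdeg_below (K := K) hK
  have hD0 : ∀ i, der ℂ (F i) ≠ 0 := fun i => der_ne
  choose x hx using fun i => IsFF.exists_transcendental (k := ℂ) (K := F i)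
  have hγ2 : ∀ i, 2 ≤ γ i := by
    intro i
    by_cases h : i ∈ I
    · have h4 := hI i h
      have h5 : 0 < Module.finrank L (IntermediateField.adjoin L (F i : Set K)) :=
        Module.finrank_pos
      omega
    · exact hJ i h
  choose c0 hc0 hc0r using fun i => exists_log (hγ i) (hγ2 i) (hD0 i)
  obtain ⟨z, E, hz, hE⟩ := exists_crd (k := ℂ) (K := L) hL
  choose E' hE' using fun i => exists_lift (k := ℂ) (K := L) (L := K) hL (E i)
  have hzK : IsTranscendenceBasis ℂ (fun j => algebraMap L K (z j)) := hz.algebraMap_comp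
  have hE'd := lift_dual hE hE'
  obtain ⟨δ, hδ⟩ : ∃ δ : K, δ = (∏ i, algebraMap (F i) K (1 / (der ℂ (F i) (x i)) ^ 1)) *
    (Matrix.det (Matrix.of fun j i => E' j (algebraMap (F i) K (x i)))) ^ 1 := ⟨_, rfl⟩
  have hform : ∀ c : ∀ i, F i, extForm (K := K) 1 (fun i => der ℂ (F i)) x c E' =
      (∏ i, (c i : K)) * δ := fun c => form_eq F (fun i => der ℂ (F i)) x c E' hδ
  have hrel : ∀ c : ∀ i, F i, (∀ i, IsLogD (B i) (der ℂ (F i)) (c i)) →
      Algebra.trace L K ((∏ i, (c i : K)) * δ) = 0 := by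
    intro c hc
    obtain ⟨h3, h4⟩ := t_REGL F B (fun i => der ℂ (F i)) hD0 x c hx hc
    rw [← hform]
    have h5 := hg (trForm z (Algebra.trace L K (extForm (K := K) 1 (fun i => der ℂ (F i)) x c E')))
      ⟨trForm_pluri _ _, fun P hP => (Pool.Agent.R882.LT.trForm_sec hL hz hE hE' _ h3
        (fun P Q e hQ => (hBL P Q e hQ).2) (fun Q _ => h4 Q) P hP).1, fun P hP hB =>
        (Pool.Agent.R882.LT.trForm_sec hL hz hE hE' _ h3
        (fun P Q e hQ => (hBL P Q e hQ).2) (fun Q _ => h4 Q) P hP).2 hB⟩ E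
    have h6 : (Matrix.of fun i j => E i (z j) : Matrix (Fin (m + 1)) (Fin (m + 1)) L) = 1 := by
      ext a b
      rw [Matrix.of_apply, hE, Matrix.one_apply]
    rw [trForm, h6, Matrix.det_one, one_mul] at h5
    exact h5
  have hδ0 : δ ≠ 0 := by
    have hxb : IsTranscendenceBasis ℂ fun i => algebraMap (F i) K (x i) :=
      Pool.Agent.W619.PQ.basis_of_iSup F hsup hK x hx
    obtain ⟨G, hG⟩ := Pool.Agent.W619.PQ.extForm_ne 1 (fun i => der ℂ (F i)) x (fun _ => 1)
      (fun _ => one_ne_zero) (fun i => der_ne_zero (hD0 i) (hx i)) hxb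
    intro h0
    apply hG
    rw [pluri_coord hzK hE'd (Pool.Agent.W619.PQ.extForm_pluri 1 _ x _) G, hform, h0, mul_zero,
      mul_zero]
  obtain ⟨⟨i, hiI, hγi, hjL⟩, hrel'⟩ := t_CORE2L' F B hsup I γ hγ L' hL' hI hJ
    (fun i => der ℂ (F i)) hD0 δ hδ0 hrel h1 h2
  refine ⟨?_, i, hiI, hγi, hjL⟩
  have hmem : ∀ z : L, algebraMap L K z ∈ L'.restrictScalars ℂ := fun z => L'.algebraMap_mem z
  have hfin : FiniteDimensional (L'.restrictScalars ℂ) K :=
    inferInstanceAs (FiniteDimensional L' K)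
  refine a1_sub L (L'.restrictScalars ℂ) hmem BL (a1_of_rel (t_UNI t_TWO t_P1) (t_A1 t_EXT t_P1) hK F B
    hsup (fun i => der ℂ (F i)) hD0 x hx c0 hc0 hc0r (L'.restrictScalars ℂ) i
    (fun j hj z hz => hjL j hj z hz) (fun l => hmem (z l)) hzK hE'd (fun c hc => ?_) _
    fun v Q e hQ hv => ?_)
  · rw [hform]
    have h5 : ((Algebra.trace L' K ((∏ i, (c i : K)) * δ) : L') : K) = 0 := by
      rw [hrel' c hc]
      rfl
    exact Subtype.ext h5
  · obtain ⟨Q', e0, P, e', h3, h4, h5⟩ := hv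
    obtain ⟨e'', h6⟩ := over_mid (L'.restrictScalars ℂ) hmem hQ h3 h4
    exact (hBL P Q e'' h6).1 h5

/-- **`A¹`-uniruled or of large Kodaira dimension.** -/
theorem kodL_main {m : ℕ} {K : Type} [Field K] [Algebra ℂ K]
    (hK : Algebra.trdeg ℂ K = (m + 1 : ℕ)) (F : Fin (m + 1) → IntermediateField ℂ K)
    [hF : ∀ i, IsFF ℂ (F i)] (B : ∀ i, Finset (Place ℂ (F i))) (hsup : ⨆ i, F i = ⊤)
    (L : Type) [Field L] [Algebra ℂ L] [Algebra L K] [IsScalarTower ℂ L K]
    [FiniteDimensional L K] (I : Finset (Fin (m + 1))) (hI0 : I.Nonempty) (γ : Fin (m + 1) → ℕ)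
    (hγ : ∀ i, LGonGe ℂ (F i) (B i) (γ i)) (L' : IntermediateField L K)
    (hL' : L' = IntermediateField.adjoin L (⋃ i ∈ I, (F i : Set K)))
    (hI : ∀ i ∈ I, 2 * Module.finrank L (IntermediateField.adjoin L (F i : Set K)) < γ i)
    (hJ : ∀ i, i ∉ I → 2 ≤ γ i)
    (h1 : ∀ i j, i ∉ I → j ∉ I → i ≠ j → Module.finrank L' K + 3 ≤ γ i + γ j)
    (h2 : (∀ i j, i ∉ I → j ∉ I → i = j) ∨ ∀ i, i ∉ I → Module.finrank L' K + 1 ≤ 2 * γ i)
    (BL : Place ℂ L → Prop)
    (hBL : ∀ (P : Place ℂ L) (Q : Place ℂ K) (e : ℕ), Over Q P e → (BL P ↔ BdK F B Q)) :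
    IsA1Uniruled ℂ L (m + 1) BL ∨ KodGe ℂ L (m + 1) BL I.card := by
  classical
  have hess : Algebra.EssFiniteType ℂ K := ess_sup F hsup
  have hL : Algebra.trdeg ℂ L = (m + 1 : ℕ) := Pool.Agent.Y184.NT.trdeg_below (K := K) hK
  have hD0 : ∀ i, der ℂ (F i) ≠ 0 := fun i => der_ne
  choose x hx using fun i => IsFF.exists_transcendental (k := ℂ) (K := F i)
  have hγ2 : ∀ i, 2 ≤ γ i := by
    intro i
    by_cases h : i ∈ I
    · have h4 := hI i h
      have h5 : 0 < Module.finrank L (IntermediateField.adjoin L (F i : Set K)) :=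
        Module.finrank_pos
      omega
    · exact hJ i h
  choose c0 hc0 hc0r using fun i => exists_log (hγ i) (hγ2 i) (hD0 i)
  obtain ⟨z, E, hz, hE⟩ := exists_crd (k := ℂ) (K := L) hL
  choose E' hE' using fun i => exists_lift (k := ℂ) (K := L) (L := K) hL (E i)
  have hzK : IsTranscendenceBasis ℂ (fun j => algebraMap L K (z j)) := hz.algebraMap_comp
  have hE'd := lift_dual hE hE'
  obtain ⟨δ, hδ⟩ : ∃ δ : K, δ = (∏ i, algebraMap (F i) K (1 / (der ℂ (F i) (x i)) ^ 1)) *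
    (Matrix.det (Matrix.of fun j i => E' j (algebraMap (F i) K (x i)))) ^ 1 := ⟨_, rfl⟩
  have hform : ∀ c : ∀ i, F i, extForm (K := K) 1 (fun i => der ℂ (F i)) x c E' =
      (∏ i, (c i : K)) * δ := fun c => form_eq F (fun i => der ℂ (F i)) x c E' hδ
  have hδ0 : δ ≠ 0 := by
    have hxb : IsTranscendenceBasis ℂ fun i => algebraMap (F i) K (x i) :=
      Pool.Agent.W619.PQ.basis_of_iSup F hsup hK x hx
    obtain ⟨G, hG⟩ := Pool.Agent.W619.PQ.extForm_ne 1 (fun i => der ℂ (F i)) x (fun _ => 1)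
      (fun _ => one_ne_zero) (fun i => der_ne_zero (hD0 i) (hx i)) hxb
    intro h0
    apply hG
    rw [pluri_coord hzK hE'd (Pool.Agent.W619.PQ.extForm_pluri 1 _ x _) G, hform, h0, mul_zero,
      mul_zero]
  rcases dichotomyL t_COREJL' Pool.Agent.Helper320.PC.t_KOD Pool.Agent.Helper320.PC.t_TRD hK F B hsup L I hI0 γ hγ L' hL' hI
    (fun i => der ℂ (F i)) hD0 x hx hz hE hE' BL
    (fun P Q e hQ => (hBL P Q e hQ).2) with hkod | hrel
  · exact Or.inr hkod
  left
  have hT : IsScalarTower ℂ L' K := IsScalarTower.of_algebraMap_eq fun c => by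
    rw [IsScalarTower.algebraMap_apply ℂ L K, IsScalarTower.algebraMap_apply ℂ L L',
      ← IsScalarTower.algebraMap_apply L L' K]
  have hFL : ∀ i ∈ I, ∀ y ∈ F i, y ∈ L' := by
    intro i hi y hy
    rw [hL']
    exact IntermediateField.subset_adjoin L _ (Set.mem_iUnion₂.2 ⟨i, hi, hy⟩)
  have hbot : (⊥ : IntermediateField L' K) =
      IntermediateField.adjoin L' (⋃ i ∈ I, (F i : Set K)) := by
    apply le_antisymm bot_le
    rw [IntermediateField.adjoin_le_iff]
    intro y hy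
    obtain ⟨i, hi, hy⟩ := Set.mem_iUnion₂.1 hy
    exact (⊥ : IntermediateField L' K).algebraMap_mem ⟨y, hFL i hi y hy⟩
  have hbot' : ∀ i ∈ I, IntermediateField.adjoin L' (F i : Set K) = ⊥ := by
    intro i hi
    apply le_antisymm _ bot_le
    rw [IntermediateField.adjoin_le_iff]
    intro y hy
    exact (⊥ : IntermediateField L' K).algebraMap_mem ⟨y, hFL i hi y hy⟩
  have hfr : Module.finrank (⊥ : IntermediateField L' K) K = Module.finrank L' K :=
    IntermediateField.finrank_bot'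
  obtain ⟨⟨i, hiI, -, hj⟩, -⟩ := t_CORE2L' (K := K) (L := L') F B hsup I γ hγ ⊥ hbot
    (fun i hi => by
      rw [hbot' i hi, IntermediateField.finrank_bot]
      have := hγ2 i
      omega) (fun i _ => hγ2 i)
    (fun i => der ℂ (F i)) hD0 δ hδ0 (fun c hc => by
      have h3 := hrel c fun i _ => hc i
      rw [hform] at h3
      exact h3) (by rw [hfr]; exact h1) (by rw [hfr]; exact h2)
  have hmem : ∀ z : L, algebraMap L K z ∈ L'.restrictScalars ℂ := fun z => L'.algebraMap_mem z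
  have hfin : FiniteDimensional (L'.restrictScalars ℂ) K :=
    inferInstanceAs (FiniteDimensional L' K)
  refine a1_sub L (L'.restrictScalars ℂ) hmem BL (a1_of_rel (t_UNI t_TWO t_P1) (t_A1 t_EXT t_P1) hK F B
    hsup (fun i => der ℂ (F i)) hD0 x hx c0 hc0 hc0r (L'.restrictScalars ℂ) i
    (fun j hji z hz => ?_) (fun l => hmem (z l)) hzK hE'd (fun c hc => ?_) _
    fun v Q e hQ hv => ?_)
  · obtain ⟨y, hy⟩ := IntermediateField.mem_bot.1 (hj j hji z hz)
    rw [← hy]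
    exact y.2
  · have h5 : ((Algebra.trace L' K (extForm (K := K) 1 (fun i => der ℂ (F i)) x c E') : L') : K) =
        0 := by
      rw [hrel c fun i _ => hc i]
      rfl
    exact Subtype.ext h5
  · obtain ⟨Q', e0, P, e', h3, h4, h5⟩ := hv
    obtain ⟨e'', h6⟩ := over_mid (L'.restrictScalars ℂ) hmem hQ h3 h4
    exact (hBL P Q e'' h6).1 h5

end Pool.Agent.Helper320.PCL
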