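import Pool.Agent.Helper320.PCL.Stm3
import Pool.Agent.R882.LOver

/-!
`K + D` is not pseudo-effective on `A¹`-uniruled varieties.
-/

set_option autoImplicit false
set_option linter.overlappingInstances false
set_option linter.unusedSectionVars false

open FF IntermediateField Pool.Agent.W619.PQ Pool.Agent.W619.PL Pool.Agent.W619.TW
  Pool.Agent.W619.Y Pool.Agent.W602.GT
open Pool.Agent.W603.LV

namespace Pool.Agent.Helper320.PCL

namespace NPS

open Pool.Agent.Y199.NN in
theorem main {k K : Type} [Field k] [CharZero k] [Field K] [Algebra k K]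
    [Algebra.EssFiniteType k K] {n : ℕ} (htr : Algebra.trdeg k K = n)
    {Bd : Place k K → Prop} (h : IsA1Uniruled k K n Bd) :
    ∃ (E : Type) (_ : Field E) (_ : Algebra k E) (_ : Algebra K E) (_ : IsScalarTower k K E),
      Algebra.EssFiniteType k E ∧ Algebra.trdeg k E = n ∧ FiniteDimensional K E ∧
      ∃ (δ : Derivation k E E) (σ : E) (M : IntermediateField k E), σ ≠ 0 ∧ δ σ = σ ∧ M.FG ∧
        M ≤ consts δ ∧ IntermediateField.adjoin M {σ} = ⊤ ∧
        ∀ P : Place k E, (∀ c : E, δ c = 0 → c ≠ 0 → P.ord c = 0) → 0 ≤ P.ord σ →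
          ∀ (v : Place k K) (e : ℕ), 0 < e →
            (∀ f : K, P.ord (algebraMap K E f) = e * v.ord f) → ¬ Bd v := by
  classical
  obtain ⟨M, iF, iA, φ, hess, htrM, hA⟩ := h
  let _ : Algebra K (RatFunc M) := φ.toRingHom.toAlgebra
  have t1 : IsScalarTower k K (RatFunc M) := IsScalarTower.of_algebraMap_eq fun c => by
    change _ = φ (algebraMap k K c)
    rw [φ.commutes]
  have hmap : ∀ f : K, algebraMap K (RatFunc M) f = φ f := fun _ => rfl
  have hXM : Transcendental M (RatFunc.X : RatFunc M) := RatFunc.transcendental_X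
  have htopM : M⟮(RatFunc.X : RatFunc M)⟯ = ⊤ := RatFunc.adjoin_X
  have hessXM : Algebra.EssFiniteType M (RatFunc M) := by
    have h1 : (⊤ : IntermediateField M (RatFunc M)).FG := by
      rw [← htopM]
      exact ⟨{RatFunc.X}, by simp⟩
    have h2 : Algebra.EssFiniteType M (⊤ : IntermediateField M (RatFunc M)) :=
      (IntermediateField.essFiniteType_iff).2 h1
    exact (Algebra.EssFiniteType.iff_of_algEquiv (IntermediateField.topEquiv
      (F := M) (E := RatFunc M))).1 h2
  have hessR : Algebra.EssFiniteType k (RatFunc M) := Algebra.EssFiniteType.comp k M (RatFunc M)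
  have htrX : IsTranscendenceBasis M (fun _ : Unit => (RatFunc.X : RatFunc M)) := by
    have h1 : AlgebraicIndependent M (fun _ : Unit => (RatFunc.X : RatFunc M)) :=
      (algebraicIndependent_unique_type_iff).2 hXM
    rw [h1.isTranscendenceBasis_iff_isAlgebraic]
    have h2 : Set.range (fun _ : Unit => (RatFunc.X : RatFunc M)) = {RatFunc.X} := by simp
    rw [h2]
    have h3 : Algebra.IsAlgebraic M⟮(RatFunc.X : RatFunc M)⟯ (RatFunc M) := by
      rw [htopM]
      exact ⟨fun z => isAlgebraic_algebraMap
        (⟨z, trivial⟩ : (⊤ : IntermediateField M (RatFunc M)))⟩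
    exact alg_adjoin h3
  have hR : Algebra.trdeg k (RatFunc M) = n := by
    have h1 := _root_.trdeg_add_eq k M (A := RatFunc M)
    have h2 : Algebra.trdeg M (RatFunc M) = 1 := by
      rw [← htrX.cardinalMk_eq_trdeg]
      simp
    rw [← h1, h2]
    exact htrM
  -- finiteness
  obtain ⟨y, hy⟩ := basis_of_trdeg htr
  have hyR : AlgebraicIndependent k (fun i => φ (y i)) := hy.1.map' φ.injective
  have hyb : IsTranscendenceBasis k (fun i => φ (y i)) := by
    refine hyR.isTranscendenceBasis_of_lift_trdeg_le_of_finite ?_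
    rw [hR]
    simp
  have halg : Algebra.IsAlgebraic K (RatFunc M) := by
    have h1 : Algebra.IsAlgebraic (IntermediateField.adjoin k (Set.range fun i => φ (y i)))
      (RatFunc M) := hyb.isAlgebraic_field
    refine ⟨fun z => ?_⟩
    have h2 := h1.isAlgebraic z
    have hle : IntermediateField.adjoin k (Set.range fun i => φ (y i)) ≤ φ.fieldRange := by
      rw [adjoin_le_iff]
      rintro _ ⟨i, rfl⟩
      exact ⟨y i, rfl⟩
    let e : K ≃ₐ[k] φ.fieldRange := AlgEquiv.ofInjectiveField φ
    let g : IntermediateField.adjoin k (Set.range fun i => φ (y i)) →+* K :=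
      (e.symm : φ.fieldRange →+* K).comp (inclusion hle).toRingHom
    refine h2.ringHom_of_comp_eq g (RingHom.id _) g.injective ?_
    ext w
    change φ (e.symm (inclusion hle w)) = (w : RatFunc M)
    have h3 : e (e.symm (inclusion hle w)) = inclusion hle w := e.apply_symm_apply _
    exact congrArg Subtype.val h3
  have hfd : FiniteDimensional K (RatFunc M) := by
    have h1 : Algebra.EssFiniteType K (RatFunc M) := Algebra.EssFiniteType.of_comp k K (RatFunc M)
    obtain ⟨s, hs⟩ := IntermediateField.fg_top K (RatFunc M)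
    have h2 : FiniteDimensional K (IntermediateField.adjoin K (s : Set (RatFunc M))) :=
      IntermediateField.finiteDimensional_adjoin fun x _ => (halg.isAlgebraic x).isIntegral
    rw [hs] at h2
    exact h2.equiv IntermediateField.topEquiv.toLinearEquiv
  -- the derivation
  have hcM : CharZero M := charZero_of_injective_algebraMap (algebraMap k M).injective
  obtain ⟨d0, hd0⟩ := exists_der (L := M) (fun _ : Unit => (RatFunc.X : RatFunc M)) htrX
    (fun _ => RatFunc.X)
  let δ : Derivation k (RatFunc M) (RatFunc M) := d0.restrictScalars k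
  have hδX : δ RatFunc.X = RatFunc.X := hd0 ()
  have hδM : ∀ c : M, δ (algebraMap M (RatFunc M) c) = 0 := fun c => d0.map_algebraMap c
  let ψ : M →ₐ[k] RatFunc M := IsScalarTower.toAlgHom k M (RatFunc M)
  have hFG : ψ.fieldRange.FG := by
    have h2 : Algebra.EssFiniteType k ψ.fieldRange :=
      (Algebra.EssFiniteType.iff_of_algEquiv (AlgEquiv.ofInjectiveField ψ)).1 hess
    exact (IntermediateField.essFiniteType_iff).1 h2
  refine ⟨RatFunc M, inferInstance, inferInstance, inferInstance, t1, hessR, hR, hfd, δ,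
    RatFunc.X, ψ.fieldRange, RatFunc.X_ne_zero, hδX, hFG, ?_, ?_, ?_⟩
  · rintro _ ⟨c, rfl⟩
    exact hδM c
  · rw [eq_top_iff]
    intro f _
    have hf : f ∈ M⟮(RatFunc.X : RatFunc M)⟯ := by rw [htopM]; exact mem_top
    induction hf using IntermediateField.adjoin_induction with
    | mem x hx =>
      rw [Set.mem_singleton_iff] at hx
      rw [hx]
      exact IntermediateField.mem_adjoin_simple_self _ _
    | algebraMap c =>
      exact (ψ.fieldRange⟮(RatFunc.X : RatFunc M)⟯).algebraMap_mem
        ⟨algebraMap M (RatFunc M) c, ⟨c, rfl⟩⟩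
    | add x y _ _ hx hy => exact add_mem (hx mem_top) (hy mem_top)
    | inv x _ hx => exact inv_mem (hx mem_top)
    | mul x y _ _ hx hy => exact mul_mem (hx mem_top) (hy mem_top)
  · intro P h1 h2 v e he hov hb
    let w : Place M (RatFunc M) :=
      { ord := P.ord
        ord_zero := P.ord_zero
        ord_mul := fun {f g} hf hg => P.ord_mul hf hg
        ord_add := fun {f g} hf hg hfg => P.ord_add hf hg hfg
        ord_const := fun {c} hc => h1 _ (hδM c) ((map_ne_zero _).2 hc)
        surj := P.surj }
    exact hA w (Or.inr h2) v e he (fun f => hov f) hb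

end NPS

theorem t_NPS : S_NPS := by
  intro L _ _ _ n htr BL h
  obtain ⟨E, iE, iCE, iLE, iT, hess, hR, hfd, δ, σ, M, h1, h2, h3, h4, h5, h6⟩ :=
    NPS.main htr h
  refine Pool.Agent.R882.LT.a1_not_psef (E := E) (L := L) hR htr
    (BE := fun Q => ∃ (P : Place ℂ L) (e : ℕ), Over Q P e ∧ BL P)
    (fun P Q e hov hb => ⟨P, e, hov, hb⟩) ⟨δ, σ, M, h1, h2, h3, h4, h5, ?_⟩
  rintro P hP hPσ ⟨v, e, hov, hb⟩
  exact h6 P hP hPσ v e hov.1 (fun f => hov.2 f) hb

end Pool.Agent.Helper320.PCL
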