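import Pool.Agent.Helper320.PCL.Stm3
import Pool.Agent.Helper320.PC.Main
import Pool.Agent.R882.LOver

/-!
Products of open curves one of which is the affine line.
-/

set_option autoImplicit false
set_option linter.overlappingInstances false
set_option linter.unusedSectionVars false
set_option maxHeartbeats 4000000

open FF Pool.Agent.W603.LV
open Pool.Agent.W619.PL (IsA1Uniruled)
open Pool.Agent.W619.TW (MM Cur)

namespace Pool.Agent.Helper320.PCL

theorem t_RAT : S_RAT := by
  intro K _ _ n hK F hF hsup B i t ht htB L _ _ _ _ _ BL hBL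
  classical
  obtain ⟨m, rfl⟩ : ∃ m, n = m + 1 := ⟨n - 1, by have := i.pos; omega⟩
  have hess : Algebra.EssFiniteType ℂ K := Pool.Agent.Helper320.PC.ess_sup F hsup
  have hessL : Algebra.EssFiniteType ℂ L := Pool.Agent.TH466.QG.ess_below (K := K)
  have hcur := Pool.Agent.W619.TW.cur_MM F hsup hK i
  refine Pool.Agent.R882.LT.a1_down' (E := K) (BE := BdK F B) hBL ?_
  have htt : Transcendental (MM F i) (t : K) :=
    hcur.tr t (Pool.Agent.W619.PQ.transcendental_of_top ht)
  have ht0 : (t : K) ≠ 0 := fun h => htt (by rw [h]; exact isAlgebraic_zero)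
  have hs : Transcendental (MM F i) ((t : K)⁻¹) := fun h => htt (by
    have := h.inv
    rwa [inv_inv] at this)
  have htop : IntermediateField.adjoin (MM F i) {((t : K)⁻¹)} = ⊤ := by
    have hmem : (t : K) ∈ IntermediateField.adjoin (MM F i) {((t : K)⁻¹)} := by
      have h1 := inv_mem (IntermediateField.mem_adjoin_simple_self (MM F i) ((t : K)⁻¹))
      rwa [inv_inv] at h1
    have h1 : (⊤ : IntermediateField ℂ K) ≤
        (IntermediateField.adjoin (MM F i) {((t : K)⁻¹)}).restrictScalars ℂ := by
      rw [← hsup]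
      refine iSup_le fun j z hz => ?_
      rw [IntermediateField.mem_restrictScalars]
      by_cases hj : j = i
      · subst hj
        have h2 : (⟨z, hz⟩ : F j) ∈ IntermediateField.adjoin ℂ {t} := by rw [ht]; trivial
        have h3 : IntermediateField.adjoin ℂ {t} ≤
            ((IntermediateField.adjoin (MM F j) {((t : K)⁻¹)}).restrictScalars ℂ).comap
              (F j).val := by
          rw [IntermediateField.adjoin_simple_le_iff]
          exact hmem
        exact h3 h2
      · exact (IntermediateField.adjoin (MM F i) {((t : K)⁻¹)}).algebraMap_mem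
          ⟨z, Pool.Agent.W619.TW.le_MM F hj hz⟩
    rw [eq_top_iff]
    intro z _
    exact h1 (by trivial : z ∈ (⊤ : IntermediateField ℂ K))
  have hessM : Algebra.EssFiniteType ℂ (MM F i) := by
    rw [IntermediateField.essFiniteType_iff]
    exact IntermediateField.fg_iSup fun j => IntermediateField.essFiniteType_iff.1 (hF j.1).ess
  have htrM : Algebra.trdeg ℂ (MM F i) = (m : ℕ) := Pool.Agent.Helper320.PC.trdeg_MM hK hcur
  let e1 : RatFunc (MM F i) ≃ₐ[MM F i] IntermediateField.adjoin (MM F i) {((t : K)⁻¹)} :=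
    RatFunc.algEquivOfTranscendental ((t : K)⁻¹) hs
  let e2 : IntermediateField.adjoin (MM F i) {((t : K)⁻¹)} ≃ₐ[MM F i] K :=
    (IntermediateField.equivOfEq htop).trans IntermediateField.topEquiv
  let e : K ≃ₐ[MM F i] RatFunc (MM F i) := (e1.trans e2).symm
  have heX : e ((t : K)⁻¹) = RatFunc.X := by
    have h1 : e.symm RatFunc.X = (t : K)⁻¹ := by
      change e2 (e1 RatFunc.X) = _
      have h2 : ((e1 RatFunc.X : IntermediateField.adjoin (MM F i) {((t : K)⁻¹)}) : K) =
          (t : K)⁻¹ := RatFunc.algEquivOfTranscendental_X _ _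
      exact h2
    rw [← h1, AlgEquiv.apply_symm_apply]
  refine ⟨MM F i, inferInstance, inferInstance, ((e.restrictScalars ℂ : K ≃ₐ[ℂ] _) : K →ₐ[ℂ] _),
    hessM, by rw [htrM]; push_cast; rfl, ?_⟩
  intro w hX v a ha hv hb
  have hv' : ∀ f : K, w.ord (e f) = a * v.ord f := hv
  obtain ⟨j, p, hp, e', hpv⟩ := hb
  have hep : 0 < e' := hpv.1
  by_cases hj : j = i
  · subst hj
    have h1 := htB p hp
    have h2 := hpv.2 t
    have h3 : 0 < v.ord (t : K) := by
      have h4 : v.ord (algebraMap (F j) K t) = e' * p.ord t := h2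
      have h5 : (0 : ℤ) < e' := by exact_mod_cast hep
      have h6 : 0 < (e' : ℤ) * p.ord t := mul_pos h5 h1
      rw [← h4] at h6
      exact h6
    have h4 := hv' ((t : K)⁻¹)
    rw [heX, v.ord_inv] at h4
    have h5 : (0 : ℤ) < a := by exact_mod_cast ha
    have h6 : w.ord (RatFunc.X : RatFunc (MM F j)) < 0 := by
      rw [h4]
      have := mul_pos h5 h3
      linarith
    rcases hX with h7 | h7
    · exact RatFunc.X_ne_zero h7
    · omega
  · obtain ⟨f, -, hf⟩ := p.surj
    have h2 := hpv.2 f
    have h3 := hv' (algebraMap (F j) K f)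
    have h4 : w.ord (e (algebraMap (F j) K f)) = 0 := by
      have h5 : e (algebraMap (F j) K f) =
          algebraMap (MM F i) (RatFunc (MM F i))
            ⟨(f : K), Pool.Agent.W619.TW.le_MM F hj f.2⟩ :=
        e.commutes ⟨(f : K), Pool.Agent.W619.TW.le_MM F hj f.2⟩
      rw [h5]
      refine w.ord_const fun h => ?_
      have h6 : (f : K) = 0 := congrArg Subtype.val h
      have h7 : f = 0 := Subtype.ext h6
      rw [h7, p.ord_zero] at hf
      exact zero_ne_one hf
    rw [h4, h2, hf] at h3
    have h5 : (0 : ℤ) < a := by exact_mod_cast ha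
    have h6 : (0 : ℤ) < e' := by exact_mod_cast hep
    have := mul_pos h5 h6
    rw [mul_one] at h3
    omega

end Pool.Agent.Helper320.PCL
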