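import Pool.Agent.Helper320.PCL.Main2
import Pool.Agent.Helper320.PCL.Nps
import Pool.Agent.Helper320.PCL.Rat

/-!
Images of products of open curves of large gonality: final statements.
-/

set_option autoImplicit false
set_option linter.overlappingInstances false
set_option linter.unusedSectionVars false
set_option maxHeartbeats 4000000
set_option synthInstance.maxHeartbeats 400000

open FF Pool.Agent.W603.LV
open Pool.Agent.W602.GT
open Pool.Agent.W619.PL (IsA1Uniruled)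

namespace Pool.Agent.Helper320.PCL

theorem lgonGe_two {F : Type} [Field F] [Algebra ℂ F] [IsFF ℂ F] {B : Finset (Place ℂ F)}
    (h : ¬ ∃ t : F, IntermediateField.adjoin ℂ {t} = ⊤ ∧ ∀ P ∈ B, 0 < P.ord t) :
    LGonGe ℂ F B 2 := by
  intro t ht htB
  have hfin := IsFF.finite ht
  have h1 : 0 < Module.finrank (IntermediateField.adjoin ℂ {t}) F := Module.finrank_pos
  by_contra hcon
  have h2 : Module.finrank (IntermediateField.adjoin ℂ {t}) F = 1 := by omega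
  exact h ⟨t, IntermediateField.finrank_eq_one_iff_eq_top.1 h2, htB⟩

theorem lgonGe_max {F : Type} [Field F] [Algebra ℂ F] [IsFF ℂ F] {B : Finset (Place ℂ F)}
    (h : ¬ ∃ t : F, IntermediateField.adjoin ℂ {t} = ⊤ ∧ ∀ P ∈ B, 0 < P.ord t) {γ : ℕ}
    (hγ : LGonGe ℂ F B γ) : LGonGe ℂ F B (max γ 2) :=
  fun t ht htB => max_le (hγ t ht htB) (lgonGe_two h t ht htB)

/-- genus zero or a section -/
theorem kodGe_zero_of {L : Type} [Field L] [Algebra ℂ L] {n : ℕ} {Bd : Place ℂ L → Prop}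
    {ω : (Fin n → Derivation ℂ L L) → L} (hω : LogSec ℂ L n 1 Bd ω)
    {D : Fin n → Derivation ℂ L L} (hne : ω D ≠ 0) : KodGe ℂ L n Bd 0 :=
  ⟨1, one_pos, fun _ => ω, fun _ => hω, D, hne, algebraicIndependent_empty_type⟩

theorem fin_genus {n : ℕ} (hn : 1 ≤ n) {K : Type} [Field K] [Algebra ℂ K]
    (hK : Algebra.trdeg ℂ K = n) (F : Fin n → IntermediateField ℂ K)
    (hFF : ∀ i, IsFF ℂ (F i)) (B : ∀ i, Finset (Place ℂ (F i))) (hsup : ⨆ i, F i = ⊤)
    (γ : Fin n → ℕ) (hγ : ∀ i, LGonGe ℂ (F i) (B i) (γ i))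
    (L : Type) [Field L] [Algebra ℂ L] [Algebra L K] [IsScalarTower ℂ L K]
    [FiniteDimensional L K] (Bd : Place ℂ L → Prop)
    (hBd : ∀ (P : Place ℂ L) (Q : Place ℂ K) (e : ℕ), Over Q P e → (Bd P ↔ BdK F B Q))
    (I : Finset (Fin n))
    (hI : ∀ i ∈ I, Module.finrank L (IntermediateField.adjoin L (F i : Set K)) < γ i)
    (h1 : ∀ i j, i ∉ I → j ∉ I → i ≠ j →
      Module.finrank (IntermediateField.adjoin L (⋃ i ∈ I, (F i : Set K))) K + 3 ≤ γ i + γ j)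
    (h2 : (∀ i j, i ∉ I → j ∉ I → i = j) ∨ ∀ i, i ∉ I →
      Module.finrank (IntermediateField.adjoin L (⋃ i ∈ I, (F i : Set K))) K + 1 ≤ 2 * γ i) :
    [∀ ω : (Fin n → Derivation ℂ L L) → L, LogSec ℂ L n 1 Bd ω → ∀ D, ω D = 0,
      ¬ KodGe ℂ L n Bd 0, ¬ Psef ℂ L n Bd, IsA1Uniruled ℂ L n Bd].TFAE ∧
    ((∀ i, i ∉ I → 2 ≤ γ i) →
      (∀ ω : (Fin n → Derivation ℂ L L) → L, LogSec ℂ L n 1 Bd ω → ∀ D, ω D = 0) →
      ∃ i, i ∉ I ∧
        γ i ≤ Module.finrank (IntermediateField.adjoin L (⋃ i ∈ I, (F i : Set K))) K ∧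
        ∀ j, j ≠ i → ∀ z ∈ F j, z ∈ IntermediateField.adjoin L (⋃ i ∈ I, (F i : Set K))) := by
  classical
  obtain ⟨m, rfl⟩ : ∃ m, n = m + 1 := ⟨n - 1, by omega⟩
  have hess : Algebra.EssFiniteType ℂ K := Pool.Agent.Helper320.PC.ess_sup F hsup
  have hessL : Algebra.EssFiniteType ℂ L := Pool.Agent.TH466.QG.ess_below (K := K)
  have hL : Algebra.trdeg ℂ L = (m + 1 : ℕ) := Pool.Agent.Y184.NT.trdeg_below (K := K) hK
  refine ⟨?_, fun hJ hg => (a1_main hK F B hsup L I γ hγ _ rfl hI hJ h1 h2 Bd hBd hg).2⟩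
  tfae_have 1 → 4 := by
    intro hg
    by_cases hrat : ∃ i, ∃ t : F i, IntermediateField.adjoin ℂ {t} = ⊤ ∧ ∀ P ∈ B i, 0 < P.ord t
    · obtain ⟨i, t, ht, htB⟩ := hrat
      exact t_RAT hK F hsup B i t ht htB L Bd fun P Q e hQ hP => (hBd P Q e hQ).1 hP
    have hrat' : ∀ i, ¬ ∃ t : F i, IntermediateField.adjoin ℂ {t} = ⊤ ∧
      ∀ P ∈ B i, 0 < P.ord t := fun i h => hrat ⟨i, h⟩
    exact (a1_main hK F B hsup L I (fun i => max (γ i) 2)
      (fun i => lgonGe_max (hrat' i) (hγ i)) _ rfl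
      (fun i hi => lt_of_lt_of_le (hI i hi) (le_max_left _ _)) (fun i _ => le_max_right _ _)
      (fun i j hi hj hij => (h1 i j hi hj hij).trans
        (add_le_add (le_max_left _ _) (le_max_left _ _)))
      (h2.imp id fun h i hi => (h i hi).trans
        (Nat.mul_le_mul_left 2 (le_max_left _ _))) Bd hBd hg).1
  tfae_have 4 → 3 := fun h => t_NPS hL Bd h
  tfae_have 3 → 2 := fun h h' => h (psef_of_kodGe h')
  tfae_have 2 → 1 := by
    intro h ω hω D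
    by_contra hne
    exact h (kodGe_zero_of hω hne)
  tfae_finish

theorem fin_kod {n : ℕ} (hn : 1 ≤ n) {K : Type} [Field K] [Algebra ℂ K]
    (hK : Algebra.trdeg ℂ K = n) (F : Fin n → IntermediateField ℂ K)
    (hFF : ∀ i, IsFF ℂ (F i)) (B : ∀ i, Finset (Place ℂ (F i))) (hsup : ⨆ i, F i = ⊤)
    (γ : Fin n → ℕ) (hγ : ∀ i, LGonGe ℂ (F i) (B i) (γ i))
    (L : Type) [Field L] [Algebra ℂ L] [Algebra L K] [IsScalarTower ℂ L K]
    [FiniteDimensional L K] (Bd : Place ℂ L → Prop)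
    (hBd : ∀ (P : Place ℂ L) (Q : Place ℂ K) (e : ℕ), Over Q P e → (Bd P ↔ BdK F B Q))
    (I : Finset (Fin n))
    (hI : ∀ i ∈ I, 2 * Module.finrank L (IntermediateField.adjoin L (F i : Set K)) < γ i)
    (h1 : ∀ i j, i ∉ I → j ∉ I → i ≠ j →
      Module.finrank (IntermediateField.adjoin L (⋃ i ∈ I, (F i : Set K))) K + 3 ≤ γ i + γ j)
    (h2 : (∀ i j, i ∉ I → j ∉ I → i = j) ∨ ∀ i, i ∉ I →
      Module.finrank (IntermediateField.adjoin L (⋃ i ∈ I, (F i : Set K))) K + 1 ≤ 2 * γ i) :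
    (IsA1Uniruled ℂ L n Bd ∧ ¬ Psef ℂ L n Bd) ∨ KodGe ℂ L n Bd I.card := by
  classical
  obtain ⟨m, rfl⟩ : ∃ m, n = m + 1 := ⟨n - 1, by omega⟩
  have hess : Algebra.EssFiniteType ℂ K := Pool.Agent.Helper320.PC.ess_sup F hsup
  have hessL : Algebra.EssFiniteType ℂ L := Pool.Agent.TH466.QG.ess_below (K := K)
  have hL : Algebra.trdeg ℂ L = (m + 1 : ℕ) := Pool.Agent.Y184.NT.trdeg_below (K := K) hK
  suffices h : IsA1Uniruled ℂ L (m + 1) Bd ∨ KodGe ℂ L (m + 1) Bd I.card from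
    h.imp (fun h => ⟨h, t_NPS hL Bd h⟩) id
  by_cases hrat : ∃ i, ∃ t : F i, IntermediateField.adjoin ℂ {t} = ⊤ ∧ ∀ P ∈ B i, 0 < P.ord t
  · obtain ⟨i, t, ht, htB⟩ := hrat
    exact Or.inl (t_RAT hK F hsup B i t ht htB L Bd fun P Q e hQ hP => (hBd P Q e hQ).1 hP)
  have hrat' : ∀ i, ¬ ∃ t : F i, IntermediateField.adjoin ℂ {t} = ⊤ ∧
    ∀ P ∈ B i, 0 < P.ord t := fun i h => hrat ⟨i, h⟩
  have hγ' := fun i => lgonGe_max (hrat' i) (hγ i)
  have h1' : ∀ i j, i ∉ I → j ∉ I → i ≠ j →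
      Module.finrank (IntermediateField.adjoin L (⋃ i ∈ I, (F i : Set K))) K + 3 ≤
        max (γ i) 2 + max (γ j) 2 := fun i j hi hj hij =>
    (h1 i j hi hj hij).trans (add_le_add (le_max_left _ _) (le_max_left _ _))
  have h2' : (∀ i j, i ∉ I → j ∉ I → i = j) ∨
      ∀ i, i ∉ I → Module.finrank (IntermediateField.adjoin L (⋃ i ∈ I, (F i : Set K))) K + 1 ≤
        2 * max (γ i) 2 :=
    h2.imp id fun h i hi => (h i hi).trans (Nat.mul_le_mul_left 2 (le_max_left _ _))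
  rcases Finset.eq_empty_or_nonempty I with hI0 | hI0
  · by_cases hg : ∀ ω : (Fin (m + 1) → Derivation ℂ L L) → L, LogSec ℂ L (m + 1) 1 Bd ω →
      ∀ D, ω D = 0
    · exact Or.inl (a1_main hK F B hsup L I (fun i => max (γ i) 2) hγ' _ rfl
        (fun i hi => by rw [hI0] at hi; exact absurd hi (Finset.notMem_empty i))
        (fun i _ => le_max_right _ _) h1' h2' Bd hBd hg).1
    · right
      push Not at hg
      obtain ⟨ω, hω, D, hne⟩ := hg
      rw [hI0, Finset.card_empty]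
      exact kodGe_zero_of hω hne
  · exact kodL_main hK F B hsup L I hI0 (fun i => max (γ i) 2) hγ' _ rfl
      (fun i hi => lt_of_lt_of_le (hI i hi) (le_max_left _ _)) (fun i _ => le_max_right _ _)
      h1' h2' Bd hBd

end Pool.Agent.Helper320.PCL
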