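import Pool.Agent.Helper320.PCL.Stm
import Pool.Agent.Helper320.PC.Rrm

/-!
Riemann-Roch for effective divisors of small degree on an open curve.
-/

set_option autoImplicit false
set_option linter.overlappingInstances false
set_option linter.unusedSectionVars false

open Polynomial FF IsDedekindDomain IntermediateField

namespace Pool.Agent.Helper320.PCL.RRL

open Pool.Agent.W603.LV Pool.Agent.W619.PQ Pool.Agent.W619.TW Pool.Agent.Helper320.PC

section

variable {k F : Type*} [Field k] [Field F] [Algebra k F]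

/-- functions which vanish at all poles of `x` -/
def BV (x : F) : Submodule k F where
  carrier := {y | ∀ P : Place k F, P.ord x < 0 → Ge P 1 y}
  add_mem' := fun ha hb P hP => (ha P hP).add (hb P hP)
  zero_mem' := fun P _ => Ge.zero
  smul_mem' := by
    intro c y hy P hP
    rw [Algebra.smul_def]
    simpa using (Ge.const (P := P) c).mul (hy P hP)

variable {x : F} (lam : F →ₗ[k] k)

theorem bddV [CharZero k] [IsFF k F] (hI : ∀ y ∈ BV (k := k) x, lam y = 0) (y : F) :
    BddBelow (Function.support fun j : ℤ => lam (x ^ (j - 1) * y)) := by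
  classical
  have hfin := finite_support (k := k) y
  refine ⟨-((∑ P ∈ hfin.toFinset, (P.ord y).natAbs : ℕ) : ℤ) + 1, ?_⟩
  intro j hj
  by_contra hcon
  push Not at hcon
  apply hj
  apply hI
  intro P hP
  by_cases hy : y = 0
  · left; rw [hy, mul_zero]
  have hx0 : x ≠ 0 := by
    rintro rfl
    rw [P.ord_zero] at hP; omega
  right
  rw [P.ord_mul (zpow_ne_zero _ hx0) hy, P.ord_zpow]
  have h1 : -((∑ P ∈ hfin.toFinset, (P.ord y).natAbs : ℕ) : ℤ) ≤ P.ord y := by
    by_cases h2 : P ∈ hfin.toFinset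
    · have := Finset.single_le_sum (f := fun P : Place k F => (P.ord y).natAbs)
        (fun _ _ => Nat.zero_le _) h2
      have h3 : (P.ord y).natAbs ≤ ∑ P ∈ hfin.toFinset, (P.ord y).natAbs := this
      omega
    · have h3 : P.ord y = 0 := by
        by_contra h
        exact h2 (hfin.mem_toFinset.2 h)
      rw [h3]
      have : (0 : ℤ) ≤ ((∑ P ∈ hfin.toFinset, (P.ord y).natAbs : ℕ) : ℤ) := by positivity
      omega
  have h2 : (j - 1) * (-1) ≤ (j - 1) * P.ord x := by
    apply mul_le_mul_of_nonpos_left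
    · omega
    · have : (0 : ℤ) ≤ ((∑ P ∈ hfin.toFinset, (P.ord y).natAbs : ℕ) : ℤ) := by positivity
      omega
  omega

/-- the generating series of the values of the functional on `x ^ j y` -/
noncomputable def SV [CharZero k] [IsFF k F] (hI : ∀ y ∈ BV (k := k) x, lam y = 0) :
    F →+ HahnSeries ℤ k where
  toFun y := HahnSeries.ofSuppBddBelow (fun j : ℤ => lam (x ^ (j - 1) * y)) (bddV lam hI y)
  map_zero' := by
    ext j
    simp
  map_add' a b := by
    ext j
    simp [mul_add]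

variable [CharZero k] [IsFF k F] (hI : ∀ y ∈ BV (k := k) x, lam y = 0)

theorem SV_coeff (y : F) (j : ℤ) : (SV lam hI y).coeff j = lam (x ^ (j - 1) * y) := rfl

theorem SV_C (a : k) (y : F) : SV lam hI (algebraMap k F a * y) = HahnSeries.C a * SV lam hI y := by
  ext j
  rw [SV_coeff, HahnSeries.C_mul_eq_smul, HahnSeries.coeff_smul, SV_coeff, ← Algebra.smul_def,
    mul_smul_comm, map_smul]

theorem SV_X (hx0 : x ≠ 0) (y : F) : SV lam hI (x * y) = U * SV lam hI y := by
  ext j
  have h := HahnSeries.coeff_single_mul_add (r := (1 : k)) (x := SV lam hI y) (a := j + 1) (b := (-1 : ℤ))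
  rw [show j + 1 + (-1 : ℤ) = j by ring] at h
  unfold U
  rw [h, SV_coeff, SV_coeff, one_mul, ← mul_assoc, ← zpow_add_one₀ hx0]
  congr 2
  ring_nf

theorem SV_poly (hx0 : x ≠ 0) (p : k[X]) : ∀ y : F,
    SV lam hI (aeval x p * y) = eU p * SV lam hI y := by
  induction p using Polynomial.induction_on' with
  | add p q hp hq =>
    intro y
    rw [map_add, map_add, add_mul, add_mul, map_add, hp, hq]
  | monomial n a =>
    induction n generalizing a with
    | zero =>
      intro y
      rw [monomial_zero_left, aeval_C, eU_C, SV_C]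
    | succ n ih =>
      intro y
      rw [← monomial_mul_X, map_mul (aeval x), map_mul eU, aeval_X, eU_X, mul_assoc, ih,
        SV_X lam hI hx0, mul_assoc]

end

section

variable {k F : Type*} [Field k] [Field F] [Algebra k F] {x : F} (lam : F →ₗ[k] k)
  [CharZero k] [IsFF k F] (hI : ∀ y ∈ BV (k := k) x, lam y = 0)

theorem SV_of_BB (hB : ∀ y ∈ BB (k := k) x, lam y = 0) {y : F} (hy : y ∈ BB (k := k) x) :
    ∃ p : k[X], eU p = SV lam hI y := by
  apply exists_poly_of_coeff
  intro j hj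
  rw [SV_coeff]
  apply hB
  obtain ⟨n, hn⟩ := Int.eq_ofNat_of_zero_le (show 0 ≤ j - 1 by omega)
  rw [hn, zpow_natCast]
  exact BB_mul_pow hy n

variable [IsAlgClosed k]

theorem SV_mem (hx : Transcendental k x) (hB : ∀ y ∈ BB (k := k) x, lam y = 0) (y : F) :
    ∃ r : k⟮x⟯, iota hx r = SV lam hI y := by
  have hx0 : x ≠ 0 := by
    rintro rfl
    exact hx isAlgebraic_zero
  obtain ⟨g, hg, hgy, -⟩ := clear hx y
  obtain ⟨p, hp⟩ := SV_of_BB lam hI hB hgy
  rw [SV_poly lam hI hx0] at hp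
  refine ⟨px x p / px x g, ?_⟩
  rw [map_div₀, iota_px, iota_px, hp, mul_div_cancel_left₀ _ (eU_ne hg)]

theorem SV_smul (hx : Transcendental k x) (r : k⟮x⟯) (y : F) :
    SV lam hI ((r : F) * y) = iota hx r * SV lam hI y := by
  have hx0 : x ≠ 0 := by
    rintro rfl
    exact hx isAlgebraic_zero
  obtain ⟨p, g, hg, h⟩ := exists_px_div r
  have h1 : (r : F) * aeval x g = aeval x p := by
    have := congrArg (Subtype.val : k⟮x⟯ → F) h
    rw [← coe_px, ← coe_px]
    exact this
  have h2 := SV_poly lam hI hx0 g ((r : F) * y)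
  rw [← mul_assoc, mul_comm (aeval x g), h1, SV_poly lam hI hx0] at h2
  have h3 := congrArg (iota hx) h
  rw [map_mul, iota_px, iota_px] at h3
  apply mul_left_cancel₀ (eU_ne hg)
  rw [← h2, ← h3]; ring

/-- The functional is the coefficient functional of the trace form with a fixed multiplier. -/
theorem exists_multV (hx : Transcendental k x) (hB : ∀ y ∈ BB (k := k) x, lam y = 0)
    (hne : lam ≠ 0) :
    ∃ f : F, f ≠ 0 ∧ ∀ y, iota hx (Algebra.trace k⟮x⟯ F (f * y)) = SV lam hI y := by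
  classical
  choose T hT using SV_mem lam hI hx hB
  let T' : F →ₗ[k⟮x⟯] k⟮x⟯ :=
    { toFun := T
      map_add' := by
        intro a b
        apply iota_injective hx
        rw [map_add, hT, hT, hT, map_add]
      map_smul' := by
        intro r y
        apply iota_injective hx
        rw [hT, RingHom.id_apply, smul_eq_mul, map_mul, hT]
        exact SV_smul lam hI hx r y }
  have hfin := IsFF.finite hx
  have hchar : CharZero k⟮x⟯ := charZero_of_injective_algebraMap (algebraMap k k⟮x⟯).injective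
  have hsep : Algebra.IsSeparable k⟮x⟯ F := inferInstance
  have hnd := traceForm_nondegenerate k⟮x⟯ F
  obtain ⟨f, hf⟩ := (LinearMap.BilinForm.toDual (Algebra.traceForm k⟮x⟯ F) hnd).surjective T'
  have hf' : ∀ y, Algebra.trace k⟮x⟯ F (f * y) = T y := by
    intro y
    have := congrArg (fun φ : Module.Dual k⟮x⟯ F => φ y) hf
    have h2 : Algebra.trace k⟮x⟯ F (f * y) = T' y := by
      simpa [LinearMap.BilinForm.toDual_def, Algebra.traceForm_apply] using this
    exact h2
  refine ⟨f, ?_, fun y => by rw [hf', hT]⟩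
  rintro rfl
  apply hne
  ext y
  have h1 := hf' y
  rw [zero_mul, map_zero] at h1
  have h2 := hT y
  rw [← h1, map_zero] at h2
  have h3 := congrArg (fun s : HahnSeries ℤ k => s.coeff 1) h2
  simp only [SV_coeff, HahnSeries.coeff_zero, sub_self, zpow_zero, one_mul] at h3
  rw [← h3]; rfl

end

section

variable {k F : Type} [Field k] [Field F] [Algebra k F] [CharZero k] [IsFF k F] [IsAlgClosed k]

theorem mult_regularV {x : F} (hx : Transcendental k x) (D : Derivation k F F) (hD : D x = 1)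
    (lam : F →ₗ[k] k) (hI : ∀ y ∈ BV (k := k) x, lam y = 0) (hB : ∀ y ∈ BB (k := k) x, lam y = 0)
    {f : F} (hf0 : f ≠ 0)
    (hf : ∀ y, iota hx (Algebra.trace k⟮x⟯ F (f * y)) = SV lam hI y) (P : Place k F)
    (hPx : 0 ≤ P.ord x) :
    vo P D ≤ P.ord f := by
  classical
  have hD0 : D ≠ 0 := by
    rintro rfl
    simp at hD
  have hfin := IsFF.finite hx
  have hx0 : x ≠ 0 := by
    rintro rfl
    exact hx isAlgebraic_zero
  by_contra hcon
  push Not at hcon
  have hsF : IsScalarTower k k⟮x⟯ F := inferInstance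
  let xx : k⟮x⟯ := ⟨x, mem_adjoin_simple_self k x⟩
  obtain ⟨c, hc⟩ := exists_const P (f := x) (Or.inr hPx)
  have hs0 := sub_const_ne (k := k) hx c
  have hc' := hc.resolve_left hs0
  set s : F := x - algebraMap k F c with hs
  let ss : k⟮x⟯ := xx - algebraMap k k⟮x⟯ c
  have hss : algebraMap k⟮x⟯ F ss = s := rfl
  obtain ⟨e0, q, hq⟩ := exists_over (K := k⟮x⟯) P ⟨ss, by
    rw [hss]; omega⟩
  have hDs : D s = 1 := by
    rw [hs, map_sub, hD, Derivation.map_algebraMap, sub_zero]
  have hvo := (ord_der P hD0 (f := s) (by omega)).2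
  rw [hDs, P.ord_one] at hvo
  have hfs := finite_support (k := k) s
  have hqs : 0 < q.ord ss := by
    have h1 := hq.2 ss
    rw [hss] at h1
    have h16 : (0 : ℤ) < e0 * q.ord ss := by omega
    exact (pos_iff_pos_of_mul_pos h16).1 (by exact_mod_cast hq.1)
  obtain ⟨b, hb1, hb2⟩ := exists_contra q P e0 hq (hfs.toFinset.filter fun w => 0 < w.ord s)
    (by
      intro w e hw
      have h1 := hw.2 ss
      rw [hss] at h1
      have h3 := hw.1
      have h4 : 0 < (e : ℤ) * q.ord ss := mul_pos (by exact_mod_cast h3) hqs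
      rw [Finset.mem_filter, hfs.mem_toFinset]
      refine ⟨?_, by omega⟩
      show w.ord s ≠ 0
      omega)
    (s * f) (mul_ne_zero hs0 hf0) (by rw [P.ord_mul hs0 hf0]; omega)
  apply hb2
  set r := Algebra.trace k⟮x⟯ F (f * b) with hr
  have h5 : Algebra.trace k⟮x⟯ F (s * f * b) = ss * r := by
    rw [hr, mul_assoc]
    exact trace_mul_left ss (f * b)
  rw [h5]
  -- clear denominators
  obtain ⟨g, hg0, hgB, hgc⟩ := clear hx b
  have hgc' : g.eval c ≠ 0 := by
    apply hgc
    intro w hw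
    change 0 < w.ord s at hw
    apply hb1
    rw [Finset.mem_filter, hfs.mem_toFinset]
    refine ⟨?_, hw⟩
    show w.ord s ≠ 0
    omega
  obtain ⟨p, hp⟩ := SV_of_BB lam hI hB hgB
  have h6 : px x g * r = px x p := by
    apply iota_injective hx
    rw [map_mul, iota_px, iota_px, hp, SV_poly lam hI hx0, ← hf b]
  -- regularity at q
  have hqx : Ge q 0 xx := by
    have h7 : Ge q 1 ss := Or.inr (by omega)
    have h8 := (h7.mono (by omega : (0 : ℤ) ≤ 1)).add (Ge.const (P := q) c)
    have e : ss + algebraMap k k⟮x⟯ c = xx := sub_add_cancel _ _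
    rwa [e] at h8
  have hpr : Ge q 0 (px x p) := ge_aeval q hqx p
  have hgr : q.ord (px x g) = 0 := by
    have h7 : Ge q 0 (px x g) := ge_aeval q hqx g
    have h8 : Ge q 1 (px x g - algebraMap k k⟮x⟯ (g.eval c)) := by
      have h9 : X - C c ∣ g - C (g.eval c) := by
        rw [dvd_iff_isRoot]; simp
      obtain ⟨g', hg'⟩ := h9
      have h10 : px x g - algebraMap k k⟮x⟯ (g.eval c) = ss * px x g' := by
        have := congrArg (px x) hg'
        rw [map_sub, map_mul, map_sub] at this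
        have e1 : px x (C (g.eval c)) = algebraMap k k⟮x⟯ (g.eval c) := by
          unfold px; rw [aeval_C]
        have e2 : px x (X : k[X]) - px x (C c) = ss := by
          unfold px; rw [aeval_X, aeval_C]
        rw [e1, e2] at this
        exact this
      rw [h10]
      have h11 : Ge q 1 ss := Or.inr (by omega)
      have h12 : Ge q 0 (px x g') := ge_aeval q hqx g'
      have h13 := h11.mul h12
      rwa [add_zero] at h13
    have h12 : q.ord (algebraMap k k⟮x⟯ (g.eval c)) = 0 := q.ord_const hgc'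
    have hne : algebraMap k k⟮x⟯ (g.eval c) ≠ 0 := by simpa using hgc'
    by_cases h13 : px x g - algebraMap k k⟮x⟯ (g.eval c) = 0
    · rw [sub_eq_zero.1 h13, h12]
    · have h14 := h8.resolve_left h13
      have h15 := q.ord_add_eq hne h13 (by omega)
      rw [add_sub_cancel, h12] at h15
      exact h15.2
  have hr1 : Ge q 0 r := by
    have h7 := Ge.of_mul' (P := q) (N := 0) (m := 0) (h := px x g) (f := r)
      (fun h => hg0 (px_injective hx (by rw [h, map_zero]))) hgr (by rw [h6]; simpa using hpr)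
    simpa using h7
  have h11 : Ge q 1 ss := Or.inr (by omega)
  simpa using h11.mul hr1


/-- functions whose order at the poles `w` of `x` is at least `-Z w` -/
def BT (x : F) (Z : Place k F → ℤ) : Submodule k F where
  carrier := {y | ∀ w : Place k F, w.ord x < 0 → Ge w (-Z w) y}
  add_mem' := fun ha hb w hw => (ha w hw).add (hb w hw)
  zero_mem' := fun w _ => Ge.zero
  smul_mem' := by
    intro c y hy w hw
    rw [Algebra.smul_def]
    simpa using (Ge.const (P := w) c).mul (hy w hw)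

theorem BV_le_BT (x : F) (Z : Place k F → ℤ) (hZ : ∀ w, -1 ≤ Z w) : BV (k := k) x ≤ BT x Z := by
  intro y hy w hw
  exact (hy w hw).mono (by have := hZ w; omega)

theorem zpow_mul_BT {x : F} {Z : Place k F → ℤ} {y : F} (hy : y ∈ BT x Z) {j : ℤ} (hj : j ≤ 0) :
    x ^ j * y ∈ BT x Z := by
  intro w hw
  have h8 : Ge w 0 (x ^ j) := by
    right
    rw [w.ord_zpow]
    exact mul_nonneg_of_nonpos_of_nonpos hj hw.le
  simpa using h8.mul (hy w hw)

/-- an element of order `n` at `P` which vanishes at the other poles of `x` -/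
theorem exists_pole {x : F} (hx : Transcendental k x) (P : Place k F) (n : ℤ) :
    ∃ t : F, t ≠ 0 ∧ P.ord t = n ∧
      ∀ w : Place k F, w.ord x < 0 → w ≠ P → Ge w 1 t := by
  classical
  obtain ⟨S, hS, -⟩ := poles (k := k) (K := F) hx
  obtain ⟨π, hπ0, hπ⟩ := P.surj
  obtain ⟨y, hy1, hy2⟩ := approx_one (S.erase P) P (by simp) (π ^ n) (max (n + 1) 1)
  have hπi : P.ord (π ^ n) = n := by rw [P.ord_zpow, hπ, mul_one]
  have h2 : y ≠ 0 ∧ P.ord y = n := by
    by_cases h3 : y - π ^ n = 0
    · rw [sub_eq_zero.1 h3]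
      exact ⟨zpow_ne_zero _ hπ0, hπi⟩
    · have h4 := hy1.resolve_left h3
      have h5 := P.ord_add_eq (f := π ^ n) (g := y - π ^ n)
        (zpow_ne_zero _ hπ0) h3 (by
          have := le_max_left (n + 1) 1
          omega)
      rwa [add_sub_cancel, hπi] at h5
  exact ⟨y, h2.1, h2.2, fun w hw hwP =>
    (hy2 w (Finset.mem_erase.2 ⟨hwP, (hS w).2 hw⟩)).mono (le_max_right _ _)⟩

theorem notMem_sup {x : F} {T B : Finset (Place k F)} {Z : Place k F → ℕ}
    (hZ : ∀ Q, Q ∉ T → Z Q = 0) (hTB : ∀ Q ∈ T, Q ∉ B) {P : Place k F} (hPB : P ∉ B)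
    (hPx : P.ord x < 0) (hBx : ∀ Q ∈ B, Q.ord x < 0)
    (hgon : ∀ t : F, Transcendental k t → (∀ Q ∈ B, 0 < Q.ord t) →
      (∑ Q ∈ T, Z Q) + 2 ≤ Module.finrank k⟮t⟯ F)
    {y : F} (hy0 : y ≠ 0) (hy1 : P.ord y = -((Z P + 1 : ℕ) : ℤ))
    (hy2 : ∀ w : Place k F, w.ord x < 0 → w ≠ P → Ge w 1 y) :
    y ∉ BB (k := k) x ⊔ BT x (fun Q => (Z Q : ℤ) - bt B Q) := by
  classical
  intro hy
  obtain ⟨b, hb, c, hc, hbc⟩ := Submodule.mem_sup.1 hy
  have hbP0 : bt B P = 0 := by unfold bt; rw [if_neg hPB]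
  have hcP : Ge P (-(Z P : ℤ)) c := (hc P hPx).mono (by simp only [hbP0]; omega)
  have e : b = y - c := by rw [← hbc]; ring
  have h2 : b ≠ 0 ∧ P.ord b = -((Z P + 1 : ℕ) : ℤ) := by
    have h1 : Ge P (-(Z P : ℤ)) (b - y) := by
      have e' : b - y = 0 - c := by rw [e]; ring
      rw [e']
      exact Ge.zero.sub hcP
    by_cases h3 : b - y = 0
    · rw [sub_eq_zero.1 h3]
      exact ⟨hy0, hy1⟩
    · have h4 := h1.resolve_left h3
      have h5 := P.ord_add_eq (f := y) (g := b - y) hy0 h3 (by rw [hy1]; omega)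
      rwa [add_sub_cancel, hy1] at h5
  have hbt : Transcendental k b := P.transcendental_of_ord_ne (by omega)
  have hbB : ∀ Q ∈ B, 0 < Q.ord b := by
    intro Q hQ
    have hQP : Q ≠ P := by
      rintro rfl
      exact hPB hQ
    have h1 : bt B Q = 1 := by unfold bt; rw [if_pos hQ]
    have h3 : Z Q = 0 := hZ Q fun h => hTB Q h hQ
    have h4 : Ge Q 1 c := (hc Q (hBx Q hQ)).mono (by simp only [h1, h3]; omega)
    have h5 : Ge Q 1 b := by
      rw [e]
      exact (hy2 Q (hBx Q hQ) hQP).sub h4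
    have := h5.resolve_left h2.1
    omega
  obtain ⟨S, hS, hS2⟩ := poles (k := k) (K := F) hbt
  have h3 : ∀ Q ∈ S, -Q.ord b ≤ Z Q + if Q = P then 1 else 0 := by
    intro Q hQ
    have hQb := (hS Q).1 hQ
    have hQx : Q.ord x < 0 := by
      by_contra hcon
      have := (hb Q (not_lt.1 hcon)).resolve_left h2.1
      omega
    by_cases hQP : Q = P
    · subst hQP
      rw [if_pos rfl]
      omega
    · rw [if_neg hQP]
      have h4 := hy2 Q hQx hQP
      have hQB : Q ∉ B := fun h => by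
        have := hbB Q h
        omega
      have h1 : bt B Q = 0 := by unfold bt; rw [if_neg hQB]
      have h5 : Ge Q (-(Z Q : ℤ)) b := by
        rw [e]
        exact (h4.mono (by omega)).sub ((hc Q hQx).mono (by simp only [h1]; omega))
      have := h5.resolve_left h2.1
      omega
  have h4 : ∑ w ∈ S, (-w.ord b).toNat * w.deg ≤ ∑ w ∈ S, (Z w + if w = P then 1 else 0) := by
    apply Finset.sum_le_sum
    intro w hw
    rw [deg_one, mul_one]
    have h6 := h3 w hw
    by_cases hwP : w = P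
    · rw [if_pos hwP] at h6 ⊢
      omega
    · rw [if_neg hwP] at h6 ⊢
      omega
  rw [hS2, Finset.sum_add_distrib, Finset.sum_ite_eq'] at h4
  have h5 : ∑ w ∈ S, Z w ≤ ∑ w ∈ T, Z w := by
    apply Finset.sum_le_sum_of_ne_zero
    intro w _ hw
    by_contra hcon
    exact hw (hZ w hcon)
  have h6 := hgon b hbt hbB
  have h7 : Module.finrank k⟮b⟯ F = Module.finrank (IntermediateField.adjoin k {b}) F := rfl
  have h8 : (if P ∈ S then 1 else 0) ≤ 1 := by split_ifs <;> norm_num
  omega

theorem rrl_core {x : F} {T B : Finset (Place k F)} {Z : Place k F → ℕ}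
    (hZ : ∀ Q, Q ∉ T → Z Q = 0) (hTB : ∀ Q ∈ T, Q ∉ B) {P : Place k F} (hPB : P ∉ B)
    (hPx : P.ord x < 0) (hT : ∀ Q ∈ T, Q.ord x < 0) (hBx : ∀ Q ∈ B, Q.ord x < 0)
    (hgon : ∀ t : F, Transcendental k t → (∀ Q ∈ B, 0 < Q.ord t) →
      (∑ Q ∈ T, Z Q) + 2 ≤ Module.finrank k⟮t⟯ F)
    {D : Derivation k F F} (hD : D x = 1) :
    ∃ f : F, f ≠ 0 ∧ (∀ Q : Place k F, vo Q D + Z Q - bt B Q ≤ Q.ord f) ∧
      P.ord f = vo P D + Z P := by
  classical
  have hD0 : D ≠ 0 := by
    rintro rfl
    simp at hD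
  have hx : Transcendental k x := P.transcendental_of_ord_ne (by omega)
  have hx0 : x ≠ 0 := by
    rintro rfl
    exact hx isAlgebraic_zero
  have hfin := IsFF.finite hx
  have hsF : IsScalarTower k k⟮x⟯ F := inferInstance
  have hbtr : ∀ Q, 0 ≤ bt B Q ∧ bt B Q ≤ 1 := by
    intro Q
    unfold bt
    split_ifs <;> norm_num
  have hbP0 : bt B P = 0 := by unfold bt; rw [if_neg hPB]
  set Zi : Place k F → ℤ := fun Q => (Z Q : ℤ) - bt B Q with hZi
  have hZ1 : ∀ w, -1 ≤ Zi w := by
    intro w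
    have := hbtr w
    simp only [hZi]
    omega
  obtain ⟨y, hy0, hyP, hy2⟩ := exists_pole hx P (-((Z P + 1 : ℕ) : ℤ))
  have hnot := notMem_sup hZ hTB hPB hPx hBx hgon hy0 hyP hy2
  obtain ⟨lam, hlam, hle⟩ := Submodule.exists_le_ker_of_notMem hnot
  have hB : ∀ z ∈ BB (k := k) x, lam z = 0 := fun z hz => hle (Submodule.mem_sup_left hz)
  have hTT : ∀ z ∈ BT (k := k) x Zi, lam z = 0 := fun z hz => hle (Submodule.mem_sup_right hz)
  have hI : ∀ z ∈ BV (k := k) x, lam z = 0 := fun z hz => hTT z (BV_le_BT x Zi hZ1 hz)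
  have hlam0 : lam ≠ 0 := by
    rintro rfl
    exact hlam rfl
  obtain ⟨f, hf0, hf⟩ := exists_multV lam hI hx hB hlam0
  have hvo : ∀ Q : Place k F, Q.ord x < 0 → Q.ord x = 1 - vo Q D := by
    intro Q hQ
    have h := (ord_der Q hD0 (f := x) (by omega)).2
    rw [hD, Q.ord_one] at h
    omega
  have hfs := finite_support (k := k) x
  have hmemZ : ∀ w : Place k F, w.ord x < 0 → w ∈ hfs.toFinset.filter fun w => w.ord x < 0 := by
    intro w hw
    rw [Finset.mem_filter, hfs.mem_toFinset]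
    refine ⟨?_, hw⟩
    show w.ord x ≠ 0
    omega
  -- the order at all places
  have hall : ∀ Q : Place k F, vo Q D + Zi Q ≤ Q.ord f := by
    intro Q
    rcases lt_or_ge (Q.ord x) 0 with hQx | hQx
    swap
    · have h1 := mult_regularV hx D hD lam hI hB hf0 hf Q hQx
      have h2 : Z Q = 0 := hZ Q fun h => by
        have := hT Q h
        omega
      have h3 := hbtr Q
      simp only [hZi, h2]
      omega
    by_contra hcon
    obtain ⟨e0, q, hq, hover⟩ := RRS.exists_under hx hQx
    obtain ⟨t, ht0, htQ, ht2⟩ := exists_pole hx Q (-Zi Q)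
    have h3 := hvo Q hQx
    obtain ⟨b, hb1, hb2⟩ := exists_contra q Q e0 hq (hfs.toFinset.filter fun w => w.ord x < 0)
      (fun w e hw => hmemZ w (hover w e hw))
      (x * f * t) (mul_ne_zero (mul_ne_zero hx0 hf0) ht0) (by
        rw [Q.ord_mul (mul_ne_zero hx0 hf0) ht0, Q.ord_mul hx0 hf0]
        omega)
    apply hb2
    have hbT : t * b ∈ BT (k := k) x Zi := by
      intro w hw
      have h4 : Ge w 0 b := hb1 w (hmemZ w hw)
      by_cases hwQ : w = Q
      · subst hwQ
        have h5 : Ge w (-Zi w) t := Or.inr htQ.ge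
        exact (h5.mul h4).mono (by omega)
      · have h5 := (ht2 w hw hwQ).mul h4
        exact h5.mono (by have := hZ1 w; omega)
    have h5 : Algebra.trace k⟮x⟯ F (x * f * t * b) =
        (⟨x, mem_adjoin_simple_self k x⟩ : k⟮x⟯) * Algebra.trace k⟮x⟯ F (f * (t * b)) := by
      have e1 : x * f * t * b = x * (f * (t * b)) := by ring
      rw [e1]
      exact trace_mul_left (⟨x, mem_adjoin_simple_self k x⟩ : k⟮x⟯) (f * (t * b))
    rw [h5]
    refine RRS.ge_of_coeff hx hQx _ hq fun j hj => ?_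
    rw [hf (t * b), SV_coeff]
    exact hTT _ (zpow_mul_BT hbT (by omega))
  refine ⟨f, hf0, fun Q => ?_, ?_⟩
  · have := hall Q
    simp only [hZi] at this
    omega
  -- the order at `P`
  by_contra hcon
  have h1 : vo P D + Z P + 1 ≤ P.ord f := by
    have := hall P
    simp only [hZi, hbP0] at this
    omega
  apply hlam
  obtain ⟨e0, q, hq, hover⟩ := RRS.exists_under hx hPx
  have h2 : ∀ w : Place k F, w.ord x < 0 → Ge w 1 (x * f * y) := by
    intro w hw
    have h3 := hvo w hw
    have h4 : Ge w (1 - vo w D) x := Or.inr h3.ge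
    by_cases hwP : w = P
    · subst hwP
      have h5 : Ge w (vo w D + Z w + 1) f := Or.inr h1
      have h6 : Ge w (-((Z w + 1 : ℕ) : ℤ)) y := Or.inr hyP.ge
      refine ((h4.mul h5).mul h6).mono (by push_cast; omega)
    · have h5 : Ge w (vo w D + Zi w) f := Or.inr (hall w)
      refine ((h4.mul h5).mul (hy2 w hw hwP)).mono (by have := hZ1 w; omega)
  obtain ⟨t, ht0, ht⟩ := q.surj
  set Z' := hfs.toFinset.filter fun w => w.ord x < 0 with hZ'
  have h3 : Ge q 1 (Algebra.trace k⟮x⟯ F (x * f * y)) := by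
    refine RRS.trace_ge q (x * f * y) (∑ w ∈ Z', (w.ord (algebraMap k⟮x⟯ F t)).natAbs) ?_ ?_
    · intro w e hw
      have h4 := hmemZ w (hover w e hw)
      have h5 := Finset.single_le_sum (f := fun w : Place k F => (w.ord (algebraMap k⟮x⟯ F t)).natAbs)
        (fun _ _ => Nat.zero_le _) h4
      refine le_trans ?_ h5
      change e ≤ (w.ord (algebraMap k⟮x⟯ F t)).natAbs
      rw [hw.2, ht]
      omega
    · intro w e hw
      exact h2 w (hover w e hw)
  have h5 : Algebra.trace k⟮x⟯ F (x * f * y) =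
      (⟨x, mem_adjoin_simple_self k x⟩ : k⟮x⟯) * Algebra.trace k⟮x⟯ F (f * y) := by
    rw [mul_assoc]
    exact trace_mul_left (⟨x, mem_adjoin_simple_self k x⟩ : k⟮x⟯) (f * y)
  rw [h5] at h3
  have h6 := RRS.coeff_of_ge hx hPx _ hq h3
  rw [hf y, SV_coeff, sub_self, zpow_zero, one_mul] at h6
  exact h6

theorem rrl {T B : Finset (Place k F)} {Z : Place k F → ℕ}
    (hZ : ∀ Q, Q ∉ T → Z Q = 0) (hTB : ∀ Q ∈ T, Q ∉ B) (P : Place k F) (hPB : P ∉ B)
    (hgon : ∀ t : F, Transcendental k t → (∀ Q ∈ B, 0 < Q.ord t) →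
      (∑ Q ∈ T, Z Q) + 2 ≤ Module.finrank k⟮t⟯ F)
    {D : Derivation k F F} (hD : D ≠ 0) :
    ∃ f : F, f ≠ 0 ∧ (∀ Q : Place k F, vo Q D + Z Q - bt B Q ≤ Q.ord f) ∧
      P.ord f = vo P D + Z P := by
  classical
  obtain ⟨x, hxT⟩ := exists_poles_at (insert P (T ∪ B))
  have hPx := hxT P (Finset.mem_insert_self _ _)
  have hx : Transcendental k x := P.transcendental_of_ord_ne (by omega)
  have hDx := der_ne_zero hD hx
  obtain ⟨f, hf0, hf1, hf2⟩ := rrl_core hZ hTB hPB hPx
    (fun Q hQ => hxT Q (Finset.mem_insert_of_mem (Finset.mem_union_left _ hQ)))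
    (fun Q hQ => hxT Q (Finset.mem_insert_of_mem (Finset.mem_union_right _ hQ))) hgon
    (D := (D x)⁻¹ • D) (by simp [hDx])
  have hvo : ∀ Q : Place k F, vo Q ((D x)⁻¹ • D) = -Q.ord (D x) + vo Q D := fun Q => by
    rw [vo_smul Q hD (inv_ne_zero hDx), Q.ord_inv]
  have hmul : ∀ Q : Place k F, Q.ord (f * D x) = Q.ord f + Q.ord (D x) := fun Q =>
    Q.ord_mul hf0 hDx
  refine ⟨f * D x, mul_ne_zero hf0 hDx, fun Q => ?_, ?_⟩
  · have h1 := hf1 Q
    rw [hvo] at h1
    rw [hmul]
    omega
  · rw [hvo] at hf2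
    rw [hmul]
    omega

end

end Pool.Agent.Helper320.PCL.RRL

namespace Pool.Agent.Helper320.PCL

theorem t_RRL : S_RRL := by
  intro k F _ _ _ _ _ _ B Z T hZ hTB P hPB hgon D hD
  exact RRL.rrl hZ hTB P hPB hgon hD

end Pool.Agent.Helper320.PCL
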