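import Pool.Agent.Helper320.PCL.Stm

/-!
Images of products of open curves: the core with derivatives, assembled from its parts.
-/

set_option autoImplicit false
set_option linter.overlappingInstances false
set_option linter.unusedSectionVars false

open FF Pool.Agent.W603.LV

namespace Pool.Agent.Helper320.PCL

namespace COREJL

section

variable {K L : Type} [Field K] [Field L] [Algebra ℂ K] [Algebra ℂ L]
  [Algebra L K] [IsScalarTower ℂ L K]

/-- restriction of an embedding to the factor -/
noncomputable abbrev pr {n : ℕ} (F : Fin n → IntermediateField ℂ K) (i : Fin n)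
    (σ : K →ₐ[L] AlgebraicClosure K) : F i →ₐ[ℂ] AlgebraicClosure K :=
  (σ.restrictScalars ℂ).comp (F i).val

/-- the inclusion -/
noncomputable abbrev s0 (K L : Type) [Field K] [Field L] [Algebra L K] :
    K →ₐ[L] AlgebraicClosure K :=
  IsScalarTower.toAlgHom L K (AlgebraicClosure K)

/-- The number of the restrictions of the embeddings to a factor is at most its degree. -/
theorem card_le [FiniteDimensional L K] [DecidableEq (K →ₐ[L] AlgebraicClosure K)] {n : ℕ}
    (F : Fin n → IntermediateField ℂ K) (i : Fin n)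
    [DecidableEq (F i →ₐ[ℂ] AlgebraicClosure K)] :
    (Finset.univ.image (pr (L := L) F i)).card ≤
      Module.finrank L (IntermediateField.adjoin L (F i : Set K)) := by
  have : CharZero L := charZero_of_injective_algebraMap (algebraMap ℂ L).injective
  set E := IntermediateField.adjoin L (F i : Set K) with hE
  have hsub : ∀ z ∈ F i, z ∈ E := fun z hz => IntermediateField.subset_adjoin L _ hz
  let inc : F i →ₐ[ℂ] E :=
    { toFun := fun z => ⟨z.1, hsub z.1 z.2⟩
      map_one' := rfl
      map_mul' := fun _ _ => rfl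
      map_zero' := rfl
      map_add' := fun _ _ => rfl
      commutes' := fun r => by
        apply Subtype.ext
        show algebraMap ℂ K r = algebraMap E K (algebraMap ℂ E r)
        rw [IsScalarTower.algebraMap_apply ℂ L K, IsScalarTower.algebraMap_apply ℂ L E]
        rfl }
  have h1 : Finset.univ.image (pr (L := L) F i) ⊆
      Finset.univ.image (fun τ : E →ₐ[L] AlgebraicClosure K => (τ.restrictScalars ℂ).comp inc) := by
    intro x hx
    rw [Finset.mem_image] at hx ⊢
    obtain ⟨σ, _, rfl⟩ := hx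
    refine ⟨σ.comp E.val, Finset.mem_univ _, ?_⟩
    ext z
    rfl
  refine (Finset.card_le_card h1).trans (Finset.card_image_le.trans ?_)
  rw [Finset.card_univ, AlgHom.card L E (AlgebraicClosure K)]

/-- The embeddings with the same restrictions as the inclusion to the factors in `I` are the
embeddings over `L'`. -/
theorem mem_range {n : ℕ} (F : Fin n → IntermediateField ℂ K) (I : Finset (Fin n))
    (L' : IntermediateField L K)
    (hL' : L' = IntermediateField.adjoin L (⋃ i ∈ I, (F i : Set K)))
    (σ : K →ₐ[L] AlgebraicClosure K)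
    (h : ∀ i ∈ I, pr F i σ = pr F i (s0 K L)) :
    ∃ τ : K →ₐ[L'] AlgebraicClosure K, τ.restrictScalars L = σ := by
  let E : IntermediateField L K :=
    { AlgHom.equalizer σ (s0 K L) with
      inv_mem' := by
        intro x hx
        have hx' : σ x = s0 K L x := hx
        show σ x⁻¹ = s0 K L x⁻¹
        rw [map_inv₀, map_inv₀, hx'] }
  have h1 : L' ≤ E := by
    rw [hL', IntermediateField.adjoin_le_iff]
    intro z hz
    simp only [Set.mem_iUnion] at hz
    obtain ⟨i, hi, hz⟩ := hz
    have h2 := DFunLike.congr_fun (h i hi) ⟨z, hz⟩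
    exact h2
  refine ⟨{ σ with commutes' := fun r => ?_ }, ?_⟩
  · have h2 : (r : K) ∈ E := h1 r.2
    exact h2
  · ext z
    rfl

theorem pr_of_range {n : ℕ} (F : Fin n → IntermediateField ℂ K) (I : Finset (Fin n))
    (L' : IntermediateField L K)
    (hL' : L' = IntermediateField.adjoin L (⋃ i ∈ I, (F i : Set K)))
    (τ : K →ₐ[L'] AlgebraicClosure K) (i : Fin n) (hi : i ∈ I) :
    pr F i (τ.restrictScalars L) = pr F i (s0 K L) := by
  ext z
  have h1 : (z : K) ∈ L' := by
    rw [hL']
    refine IntermediateField.subset_adjoin L _ ?_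
    simp only [Set.mem_iUnion]
    exact ⟨i, hi, z.2⟩
  exact τ.commutes ⟨(z : K), h1⟩

theorem restrict_inj (L' : IntermediateField L K) :
    Function.Injective
      (fun τ : K →ₐ[L'] AlgebraicClosure K => (τ.restrictScalars L : K →ₐ[L] AlgebraicClosure K)) := by
  intro τ τ' h
  ext z
  exact DFunLike.congr_fun h z

end

end COREJL

open COREJL in
theorem t_COREJL (hSEPJL : S_SEPJL) (hMULJL : S_MULJL) : S_COREJL := by
  classical
  intro K L _ _ _ _ _ _ _ n F _ B hF I γ hγ L' hL' hdeg D hD a δ lam l₀ hl₀ hlam hlamL hrel c hc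
  have : CharZero L := charZero_of_injective_algebraMap (algebraMap ℂ L).injective
  have : CharZero L' := charZero_of_injective_algebraMap (algebraMap L L').injective
  have : FiniteDimensional L' K := FiniteDimensional.right L L' K
  -- the choice of `w`
  have hw : ∀ i, ∃ w ∈ WspJL (AlgebraicClosure K) (B i) (D i),
      (i ∈ I → ∀ t ∈ (Finset.univ.image (pr (L := L) F i)).erase (pr F i (s0 K L)), w t = 0) ∧
      (i ∈ I → i ≠ l₀ → (w (pr F i (s0 K L))).1 ≠ 0) ∧
      (i = l₀ → (w (pr F i (s0 K L))).1 = 0 ∧ (w (pr F i (s0 K L))).2 ≠ 0) ∧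
      (i ∉ I → ∀ s, w s = (s (c i), s (D i (c i)))) := by
    intro i
    by_cases hi : i ∈ I
    · have h1 : pr F i (s0 K L) ∈ Finset.univ.image (pr (L := L) F i) :=
        Finset.mem_image_of_mem _ (Finset.mem_univ _)
      have h2 := hSEPJL (k := ℂ) (F := F i) (Ω := AlgebraicClosure K) (B i)
        (T := (Finset.univ.image (pr (L := L) F i)).erase (pr F i (s0 K L)))
        (q := pr F i (s0 K L)) (Finset.notMem_erase _ _)
        (fun t ht htB => by
          have h3 := hγ i t ht htB
          have h4 := hdeg i hi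
          have h5 := card_le (L := L) F i
          have h6 := Finset.card_erase_of_mem h1
          have h7 := Finset.card_pos.2 ⟨_, h1⟩
          omega) (hD i)
      by_cases hil : i = l₀
      · obtain ⟨w, hw, h8, h9, h10⟩ := h2.2
        exact ⟨w, hw, fun _ => h10, fun _ h => absurd hil h, fun _ => ⟨h8, h9⟩,
          fun h => absurd hi h⟩
      · obtain ⟨w, hw, h8, h9⟩ := h2.1
        exact ⟨w, hw, fun _ => h9, fun _ _ => h8, fun h => absurd h hil,
          fun h => absurd hi h⟩
    · refine ⟨fun s => (s (c i), s (D i (c i))), ?_, fun h => absurd h hi, fun h => absurd h hi,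
        fun h => absurd (h ▸ hl₀) hi, fun _ _ => rfl⟩
      exact Submodule.subset_span ⟨⟨c i, hc i hi⟩, rfl⟩
  choose w hwW hwT hw1 hw2 hw3 using hw
  have hsum := hMULJL F B D a δ lam hrel w hwW
  -- the constant
  set C : AlgebraicClosure K := algebraMap K (AlgebraicClosure K) (lam l₀) *
    (w l₀ (pr F l₀ (s0 K L))).2 * ∏ i ∈ I.erase l₀, (w i (pr F i (s0 K L))).1 with hC
  have hC0 : C ≠ 0 := by
    refine mul_ne_zero (mul_ne_zero ?_ (hw2 l₀ rfl).2) ?_
    · rw [Ne, map_eq_zero]
      exact hlam
    · refine Finset.prod_ne_zero_iff.2 fun i hi => ?_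
      rw [Finset.mem_erase] at hi
      exact hw1 i hi.2 hi.1
  have hoff : ∀ σ : K →ₐ[L] AlgebraicClosure K,
      σ ∉ Finset.univ.image
        (fun τ : K →ₐ[L'] AlgebraicClosure K => (τ.restrictScalars L : K →ₐ[L] _)) →
      ((∏ i, (w i (pr F i σ)).1) * σ a +
        ∑ l, σ δ * σ (lam l) * (w l (pr F l σ)).2 *
          ∏ i ∈ Finset.univ.erase l, (w i (pr F i σ)).1) = 0 := by
    intro σ hσ
    have h1 : ∃ i ∈ I, pr F i σ ≠ pr F i (s0 K L) := by
      by_contra h
      push Not at h
      obtain ⟨τ, hτ⟩ := mem_range F I L' hL' σ h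
      exact hσ (Finset.mem_image.2 ⟨τ, Finset.mem_univ _, hτ⟩)
    obtain ⟨i, hi, hne⟩ := h1
    have h2 : w i (pr F i σ) = 0 := hwT i hi _ (Finset.mem_erase.2
      ⟨hne, Finset.mem_image_of_mem _ (Finset.mem_univ _)⟩)
    have h3 : ∏ i, (w i (pr F i σ)).1 = 0 :=
      Finset.prod_eq_zero (Finset.mem_univ i) (by rw [h2]; rfl)
    rw [h3, zero_mul, zero_add]
    refine Finset.sum_eq_zero fun l _ => ?_
    by_cases hl : l = i
    · subst hl
      rw [h2]
      simp
    · have h4 : ∏ i ∈ Finset.univ.erase l, (w i (pr F i σ)).1 = 0 :=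
        Finset.prod_eq_zero (Finset.mem_erase.2 ⟨fun h => hl h.symm, Finset.mem_univ i⟩)
          (by rw [h2]; rfl)
      rw [h4, mul_zero]
  have hon : ∀ τ : K →ₐ[L'] AlgebraicClosure K,
      ((∏ i, (w i (pr F i (τ.restrictScalars L))).1) * (τ.restrictScalars L) a +
        ∑ l, (τ.restrictScalars L) δ * (τ.restrictScalars L) (lam l) *
          (w l (pr F l (τ.restrictScalars L))).2 *
          ∏ i ∈ Finset.univ.erase l, (w i (pr F i (τ.restrictScalars L))).1) =
      C * τ (δ * ∏ i ∈ Iᶜ, (c i : K)) := by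
    intro τ
    have h1 : ∀ i ∈ I, pr F i (τ.restrictScalars L) = pr F i (s0 K L) :=
      fun i hi => pr_of_range F I L' hL' τ i hi
    have h2 : (w l₀ (pr F l₀ (τ.restrictScalars L))).1 = 0 := by
      rw [h1 l₀ hl₀]
      exact (hw2 l₀ rfl).1
    have h3 : ∏ i, (w i (pr F i (τ.restrictScalars L))).1 = 0 :=
      Finset.prod_eq_zero (Finset.mem_univ l₀) h2
    rw [h3, zero_mul, zero_add, Finset.sum_eq_single l₀]
    · have h4 : Finset.univ.erase l₀ = I.erase l₀ ∪ Iᶜ := by
        ext i
        simp only [Finset.mem_erase, Finset.mem_univ, and_true, Finset.mem_union,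
          Finset.mem_compl]
        constructor
        · intro h
          by_cases hi : i ∈ I
          · exact Or.inl ⟨h, hi⟩
          · exact Or.inr hi
        · rintro (h | h)
          · exact h.1
          · rintro rfl
            exact h hl₀
      have h5 : Disjoint (I.erase l₀) Iᶜ := by
        rw [Finset.disjoint_left]
        intro i hi hi'
        exact (Finset.mem_compl.1 hi') (Finset.mem_of_mem_erase hi)
      have h6 : ∏ i ∈ I.erase l₀, (w i (pr F i (τ.restrictScalars L))).1 =
          ∏ i ∈ I.erase l₀, (w i (pr F i (s0 K L))).1 :=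
        Finset.prod_congr rfl fun i hi => by rw [h1 i (Finset.mem_of_mem_erase hi)]
      have h7 : ∏ i ∈ Iᶜ, (w i (pr F i (τ.restrictScalars L))).1 = ∏ i ∈ Iᶜ, τ (c i : K) :=
        Finset.prod_congr rfl fun i hi => by
          rw [hw3 i (Finset.mem_compl.1 hi)]
          rfl
      have h8 : (τ.restrictScalars L) (lam l₀) = algebraMap K (AlgebraicClosure K) (lam l₀) :=
        τ.commutes ⟨lam l₀, hlamL⟩
      have h9 : (τ.restrictScalars L) δ = τ δ := rfl
      rw [h4, Finset.prod_union h5, h6, h7, h1 l₀ hl₀, h8, h9, map_mul, map_prod, hC]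
      ring
    · intro l _ hl
      have h4 : ∏ i ∈ Finset.univ.erase l, (w i (pr F i (τ.restrictScalars L))).1 = 0 :=
        Finset.prod_eq_zero (Finset.mem_erase.2 ⟨fun h => hl h.symm, Finset.mem_univ l₀⟩) h2
      rw [h4, mul_zero]
    · intro h
      exact absurd (Finset.mem_univ _) h
  have hS : ∑ τ : K →ₐ[L'] AlgebraicClosure K, τ (δ * ∏ i ∈ Iᶜ, (c i : K)) = 0 := by
    have h1 := Finset.sum_subset (Finset.subset_univ (Finset.univ.image
      (fun τ : K →ₐ[L'] AlgebraicClosure K => (τ.restrictScalars L : K →ₐ[L] _))))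
      (fun σ _ hσ => hoff σ hσ)
    rw [Finset.sum_image fun τ _ τ' _ h => restrict_inj L' h] at h1
    have h2 : ∑ τ : K →ₐ[L'] AlgebraicClosure K, C * τ (δ * ∏ i ∈ Iᶜ, (c i : K)) = 0 := by
      rw [← Finset.sum_congr rfl fun τ _ => hon τ]
      rw [h1]
      exact hsum
    rw [← Finset.mul_sum] at h2
    exact (mul_eq_zero.1 h2).resolve_left hC0
  -- the trace
  have hI : ∏ i ∈ I, (c i : K) ∈ L' := by
    refine prod_mem fun i hi => ?_
    rw [hL']
    refine IntermediateField.subset_adjoin L _ ?_
    simp only [Set.mem_iUnion]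
    exact ⟨i, hi, (c i).2⟩
  have hprod : (∏ i, (c i : K)) * δ = (∏ i ∈ I, (c i : K)) * (δ * ∏ i ∈ Iᶜ, (c i : K)) := by
    rw [← Finset.prod_mul_prod_compl I]
    ring
  apply (algebraMap L' (AlgebraicClosure K)).injective
  rw [map_zero, trace_eq_sum_embeddings (AlgebraicClosure K), hprod]
  have h1 : ∀ τ : K →ₐ[L'] AlgebraicClosure K,
      τ ((∏ i ∈ I, (c i : K)) * (δ * ∏ i ∈ Iᶜ, (c i : K))) =
        algebraMap K (AlgebraicClosure K) (∏ i ∈ I, (c i : K)) *
          τ (δ * ∏ i ∈ Iᶜ, (c i : K)) := by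
    intro τ
    rw [map_mul]
    congr 1
    exact τ.commutes ⟨_, hI⟩
  rw [Finset.sum_congr rfl fun τ _ => h1 τ, ← Finset.mul_sum, hS, mul_zero]

end Pool.Agent.Helper320.PCL
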