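import Pool.Agent.Helper320.PCL.Stm
import Pool.Agent.Helper320.PC.MulJ

/-!
Images of products of open curves: the relation between the embeddings, with derivatives.
-/

set_option autoImplicit false
set_option linter.overlappingInstances false
set_option linter.unusedSectionVars false

open FF Pool.Agent.W603.LV

namespace Pool.Agent.Helper320.PCL.MULJL

open Finset Pool.Agent.Helper320.PC.MULJ

theorem step {k K L Ω : Type} [Field k] [Field K] [Field L] [Field Ω] [CharZero L] [Algebra k K]
    [Algebra k L] [Algebra L K] [IsScalarTower k L K] [Algebra k Ω] [Algebra L Ω]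
    [IsScalarTower k L Ω] [FiniteDimensional L K] [IsAlgClosed Ω] {n : ℕ}
    (F : Fin n → IntermediateField k K) (Bd : ∀ i, Finset (Place k (F i)))
    (D : ∀ i, Derivation k (F i) (F i)) (a δ : K)
    (lam : Fin n → K)
    (h : ∀ c : ∀ i, F i, (∀ i, IsLogD (Bd i) (D i) (c i)) →
      Algebra.trace L K ((∏ i, (c i : K)) * a +
        ∑ l, δ * lam l * (D l (c l) : K) * ∏ i ∈ Finset.univ.erase l, (c i : K)) = 0)
    (S : Finset (Fin n)) :
    ∀ (w : ∀ i, (F i →ₐ[k] Ω) → Ω × Ω), (∀ i ∈ S, w i ∈ WspJL Ω (Bd i) (D i)) →
      (∀ i, i ∉ S → ∃ c : F i, IsLogD (Bd i) (D i) c ∧ w i = fun s => (s c, s (D i c))) →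
      ∑ σ : K →ₐ[L] Ω, Phi F a δ lam w σ = 0 := by
  induction S using Finset.induction_on with
  | empty =>
    intro w _ hw
    choose c hc1 hc2 using fun i => hw i (Finset.notMem_empty i)
    have h1 := base (Ω := Ω) F D a δ lam c (h c hc1)
    rw [show w = fun i s => (s (c i), s (D i (c i))) from funext fun i => hc2 i]
    exact h1
  | insert i0 S hi0 ih =>
    intro w hw1 hw2
    obtain ⟨A, B, hAB⟩ := key (L := L) F a δ lam w i0
    have hmain : ∀ u ∈ WspJL Ω (Bd i0) (D i0),
        ∑ σ : K →ₐ[L] Ω, ((ev (F i0) u σ).1 * A σ + (ev (F i0) u σ).2 * B σ) = 0 := by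
      intro u hu
      induction hu using Submodule.span_induction with
      | mem u hu =>
        obtain ⟨c, rfl⟩ := hu
        have h1 := ih (Function.update w i0 fun s => (s c.1, s (D i0 c.1))) (by
          intro i hi
          have hne : i ≠ i0 := fun e => hi0 (e ▸ hi)
          rw [Function.update_of_ne hne]
          exact hw1 i (Finset.mem_insert_of_mem hi)) (by
          intro i hi
          by_cases hne : i = i0
          · subst hne
            exact ⟨c.1, c.2, by rw [Function.update_self]⟩
          · rw [Function.update_of_ne hne]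
            exact hw2 i (by
              rw [Finset.mem_insert]
              push Not
              exact ⟨hne, hi⟩))
        rw [← h1]
        exact Finset.sum_congr rfl fun σ _ => (hAB _ σ).symm
      | zero =>
        apply Finset.sum_eq_zero
        intro σ _
        simp [ev]
      | add u v _ _ hu hv =>
        have h2 : ∀ σ : K →ₐ[L] Ω, (ev (F i0) (u + v) σ).1 * A σ + (ev (F i0) (u + v) σ).2 * B σ =
            ((ev (F i0) u σ).1 * A σ + (ev (F i0) u σ).2 * B σ) +
            ((ev (F i0) v σ).1 * A σ + (ev (F i0) v σ).2 * B σ) := by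
          intro σ
          simp only [ev, Pi.add_apply, Prod.fst_add, Prod.snd_add]
          ring
        rw [Finset.sum_congr rfl fun σ _ => h2 σ, Finset.sum_add_distrib, hu, hv, add_zero]
      | smul r u _ hu =>
        have h2 : ∀ σ : K →ₐ[L] Ω, (ev (F i0) (r • u) σ).1 * A σ + (ev (F i0) (r • u) σ).2 * B σ =
            r * ((ev (F i0) u σ).1 * A σ + (ev (F i0) u σ).2 * B σ) := by
          intro σ
          simp only [ev, Pi.smul_apply, Prod.smul_fst, Prod.smul_snd, smul_eq_mul]
          ring
        rw [Finset.sum_congr rfl fun σ _ => h2 σ, ← Finset.mul_sum, hu, mul_zero]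
    have h3 := hmain (w i0) (hw1 i0 (Finset.mem_insert_self _ _))
    rw [← h3]
    refine Finset.sum_congr rfl fun σ _ => ?_
    rw [← hAB, Function.update_eq_self]

end Pool.Agent.Helper320.PCL.MULJL

namespace Pool.Agent.Helper320.PCL

theorem t_MULJL : S_MULJL := by
  intro k K L Ω _ _ _ _ _ _ _ _ _ _ _ _ _ _ n F B D a δ lam h w hw
  have := MULJL.step (Ω := Ω) F B D a δ lam h Finset.univ w (fun i _ => hw i)
    (fun i hi => absurd (Finset.mem_univ i) hi)
  simp only [Pool.Agent.Helper320.PC.MULJ.Phi, Pool.Agent.Helper320.PC.MULJ.ev] at this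
  convert this

end Pool.Agent.Helper320.PCL
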