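import Pool.Agent.Helper320.PC.Base

/-!
Images of products of open curves: statements.
-/

set_option autoImplicit false
set_option linter.overlappingInstances false
set_option linter.unusedSectionVars false

open FF Pool.Agent.W603.LV

namespace Pool.Agent.Helper320.PCL

open scoped Classical in
/-- `1` at the points of the boundary, `0` at all others -/
noncomputable def bt {k F : Type} [Field k] [Field F] [Algebra k F] (B : Finset (Place k F))
    (P : Place k F) : ℤ := if P ∈ B then 1 else 0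

/-- The differential whose value on the vector field `D` is `c` has at most simple poles at the
points of `B` and is regular at all others. -/
def IsLogD {k F : Type} [Field k] [Field F] [Algebra k F] (B : Finset (Place k F))
    (D : Derivation k F F) (c : F) : Prop :=
  ∀ P : Place k F, Ge P (vo P D - bt B P) c

/-- The space of the functions of a point `σ` of the curve in `Ω`, which is generated by the values
`σ c` of the `c` with `IsLogD B D c`. -/
def WspL {k F : Type} [Field k] [Field F] [Algebra k F] (Ω : Type) [Field Ω] [Algebra k Ω]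
    (B : Finset (Place k F)) (D : Derivation k F F) : Submodule Ω ((F →ₐ[k] Ω) → Ω) :=
  Submodule.span Ω (Set.range fun c : {c : F // IsLogD B D c} => fun σ : F →ₐ[k] Ω => σ c.1)

/-- The same with the values of the derivatives. -/
def WspJL {k F : Type} [Field k] [Field F] [Algebra k F] (Ω : Type) [Field Ω] [Algebra k Ω]
    (B : Finset (Place k F)) (D : Derivation k F F) : Submodule Ω ((F →ₐ[k] Ω) → Ω × Ω) :=
  Submodule.span Ω
    (Set.range fun c : {c : F // IsLogD B D c} => fun σ : F →ₐ[k] Ω => (σ c.1, σ (D c.1)))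

/-- The gonality of the open curve is at least `γ`: all nonconstant functions which vanish at the
points of `B` have degree at least `γ`. -/
def LGonGe (k F : Type) [Field k] [Field F] [Algebra k F] (B : Finset (Place k F)) (γ : ℕ) : Prop :=
  ∀ t : F, Transcendental k t → (∀ P ∈ B, 0 < P.ord t) →
    γ ≤ Module.finrank (IntermediateField.adjoin k {t}) F

/-- Riemann-Roch for effective divisors of small degree on an open curve of given gonality -/
def S_RRL : Prop :=
  ∀ {k F : Type} [Field k] [Field F] [Algebra k F] [CharZero k] [IsFF k F] [IsAlgClosed k]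
    (B : Finset (Place k F)) (Z : Place k F → ℕ) (T : Finset (Place k F))
    (_ : ∀ Q, Q ∉ T → Z Q = 0) (_ : ∀ Q ∈ T, Q ∉ B) (P : Place k F) (_ : P ∉ B)
    (_ : ∀ t : F, Transcendental k t → (∀ Q ∈ B, 0 < Q.ord t) →
      (∑ Q ∈ T, Z Q) + 2 ≤ Module.finrank (IntermediateField.adjoin k {t}) F)
    {D : Derivation k F F} (_ : D ≠ 0),
    ∃ f : F, f ≠ 0 ∧ (∀ Q : Place k F, vo Q D + Z Q - bt B Q ≤ Q.ord f) ∧ P.ord f = vo P D + Z P

/-- separation of the points of an open curve over an arbitrary extension of the field of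
constants -/
def S_SEPL : Prop :=
  ∀ {k F Ω : Type} [Field k] [Field F] [Algebra k F] [CharZero k] [IsFF k F] [IsAlgClosed k]
    [Field Ω] [Algebra k Ω] (B : Finset (Place k F)) {T : Finset (F →ₐ[k] Ω)} {q : F →ₐ[k] Ω}
    (_ : q ∉ T)
    (_ : ∀ t : F, Transcendental k t → (∀ P ∈ B, 0 < P.ord t) →
      T.card + 2 ≤ Module.finrank (IntermediateField.adjoin k {t}) F)
    {D : Derivation k F F} (_ : D ≠ 0),
    ∃ w ∈ WspL Ω B D, w q ≠ 0 ∧ ∀ t ∈ T, w t = 0

/-- separation of the points of order one -/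
def S_SEPJL : Prop :=
  ∀ {k F Ω : Type} [Field k] [Field F] [Algebra k F] [CharZero k] [IsFF k F] [IsAlgClosed k]
    [Field Ω] [Algebra k Ω] (B : Finset (Place k F)) {T : Finset (F →ₐ[k] Ω)} {q : F →ₐ[k] Ω}
    (_ : q ∉ T)
    (_ : ∀ t : F, Transcendental k t → (∀ P ∈ B, 0 < P.ord t) →
      2 * T.card + 3 ≤ Module.finrank (IntermediateField.adjoin k {t}) F)
    {D : Derivation k F F} (_ : D ≠ 0),
    (∃ w ∈ WspJL Ω B D, (w q).1 ≠ 0 ∧ ∀ t ∈ T, w t = 0) ∧
      ∃ w ∈ WspJL Ω B D, (w q).1 = 0 ∧ (w q).2 ≠ 0 ∧ ∀ t ∈ T, w t = 0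

/-- the relation between the embeddings -/
def S_MULL : Prop :=
  ∀ {k K L Ω : Type} [Field k] [Field K] [Field L] [Field Ω] [CharZero L] [Algebra k K]
    [Algebra k L] [Algebra L K] [IsScalarTower k L K] [Algebra k Ω] [Algebra L Ω]
    [IsScalarTower k L Ω] [FiniteDimensional L K] [IsAlgClosed Ω] {n : ℕ}
    (F : Fin n → IntermediateField k K) (B : ∀ i, Finset (Place k (F i)))
    (D : ∀ i, Derivation k (F i) (F i)) (δ : K)
    (_ : ∀ c : ∀ i, F i, (∀ i, IsLogD (B i) (D i) (c i)) →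
      Algebra.trace L K ((∏ i, (c i : K)) * δ) = 0)
    (w : ∀ i, (F i →ₐ[k] Ω) → Ω) (_ : ∀ i, w i ∈ WspL Ω (B i) (D i)),
    ∑ σ : K →ₐ[L] Ω, σ δ * ∏ i, w i ((σ.restrictScalars k).comp (F i).val) = 0

/-- the relation between the embeddings, with derivatives -/
def S_MULJL : Prop :=
  ∀ {k K L Ω : Type} [Field k] [Field K] [Field L] [Field Ω] [CharZero L] [Algebra k K]
    [Algebra k L] [Algebra L K] [IsScalarTower k L K] [Algebra k Ω] [Algebra L Ω]
    [IsScalarTower k L Ω] [FiniteDimensional L K] [IsAlgClosed Ω] {n : ℕ}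
    (F : Fin n → IntermediateField k K) (B : ∀ i, Finset (Place k (F i)))
    (D : ∀ i, Derivation k (F i) (F i)) (a δ : K) (lam : Fin n → K)
    (_ : ∀ c : ∀ i, F i, (∀ i, IsLogD (B i) (D i) (c i)) →
      Algebra.trace L K ((∏ i, (c i : K)) * a +
        ∑ l, δ * lam l * (D l (c l) : K) * ∏ i ∈ Finset.univ.erase l, (c i : K)) = 0)
    (w : ∀ i, (F i →ₐ[k] Ω) → Ω × Ω) (_ : ∀ i, w i ∈ WspJL Ω (B i) (D i)),
    ∑ σ : K →ₐ[L] Ω, ((∏ i, (w i ((σ.restrictScalars k).comp (F i).val)).1) * σ a +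
      ∑ l, σ δ * σ (lam l) * (w l ((σ.restrictScalars k).comp (F l).val)).2 *
        ∏ i ∈ Finset.univ.erase l, (w i ((σ.restrictScalars k).comp (F i).val)).1) = 0

/-- The relation between the traces: if the degree over `L` of the factors `F i`, `i ∈ I`, is smaller
than their gonality then the relation holds over the compositum `L'` of `L` with these factors, and
all other factors but one lie in `L'`. -/
def S_CORE2L : Prop :=
  ∀ {K L : Type} [Field K] [Field L] [Algebra ℂ K] [Algebra ℂ L] [Algebra L K]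
    [IsScalarTower ℂ L K] [FiniteDimensional L K] {n : ℕ} (F : Fin n → IntermediateField ℂ K)
    [∀ i, IsFF ℂ (F i)] (B : ∀ i, Finset (Place ℂ (F i))) (_ : ⨆ i, F i = ⊤)
    (I : Finset (Fin n)) (γ : Fin n → ℕ)
    (_ : ∀ i, LGonGe ℂ (F i) (B i) (γ i)) (L' : IntermediateField L K)
    (_ : L' = IntermediateField.adjoin L (⋃ i ∈ I, (F i : Set K)))
    (_ : ∀ i ∈ I, Module.finrank L (IntermediateField.adjoin L (F i : Set K)) < γ i)
    (_ : ∀ i, i ∉ I → 2 ≤ γ i)
    (D : ∀ i, Derivation ℂ (F i) (F i)) (_ : ∀ i, D i ≠ 0) (δ : K) (_ : δ ≠ 0)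
    (_ : ∀ c : ∀ i, F i, (∀ i, IsLogD (B i) (D i) (c i)) →
      Algebra.trace L K ((∏ i, (c i : K)) * δ) = 0)
    (_ : ∀ i j, i ∉ I → j ∉ I → i ≠ j → Module.finrank L' K + 3 ≤ γ i + γ j)
    (_ : (∀ i j, i ∉ I → j ∉ I → i = j) ∨ ∀ i, i ∉ I → Module.finrank L' K + 1 ≤ 2 * γ i),
    (∃ i, i ∉ I ∧ γ i ≤ Module.finrank L' K ∧ ∀ j, j ≠ i → ∀ z ∈ F j, z ∈ L') ∧
    ∀ c : ∀ i, F i, (∀ i, IsLogD (B i) (D i) (c i)) →
      Algebra.trace L' K ((∏ i, (c i : K)) * δ) = 0

/-- The relation between the traces, with derivatives: if twice the degree over `L` of the factors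
`F i`, `i ∈ I`, is smaller than their gonality then a relation with derivatives implies the relation
over the compositum `L'` of `L` with these factors. -/
def S_COREJL : Prop :=
  ∀ {K L : Type} [Field K] [Field L] [Algebra ℂ K] [Algebra ℂ L] [Algebra L K]
    [IsScalarTower ℂ L K] [FiniteDimensional L K] {n : ℕ} (F : Fin n → IntermediateField ℂ K)
    [∀ i, IsFF ℂ (F i)] (B : ∀ i, Finset (Place ℂ (F i))) (_ : ⨆ i, F i = ⊤)
    (I : Finset (Fin n)) (γ : Fin n → ℕ)
    (_ : ∀ i, LGonGe ℂ (F i) (B i) (γ i)) (L' : IntermediateField L K)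
    (_ : L' = IntermediateField.adjoin L (⋃ i ∈ I, (F i : Set K)))
    (_ : ∀ i ∈ I, 2 * Module.finrank L (IntermediateField.adjoin L (F i : Set K)) < γ i)
    (D : ∀ i, Derivation ℂ (F i) (F i)) (_ : ∀ i, D i ≠ 0) (a δ : K)
    (lam : Fin n → K) (l₀ : Fin n) (_ : l₀ ∈ I) (_ : lam l₀ ≠ 0) (_ : lam l₀ ∈ L')
    (_ : ∀ c : ∀ i, F i, (∀ i, IsLogD (B i) (D i) (c i)) →
      Algebra.trace L K ((∏ i, (c i : K)) * a +
        ∑ l, δ * lam l * (D l (c l) : K) * ∏ i ∈ Finset.univ.erase l, (c i : K)) = 0),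
    ∀ c : ∀ i, F i, (∀ i, i ∉ I → IsLogD (B i) (D i) (c i)) →
      Algebra.trace L' K ((∏ i, (c i : K)) * δ) = 0

end Pool.Agent.Helper320.PCL
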