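import Pool.Agent.Helper320.PCL.Stm
import Pool.Agent.W619.PL.LMain
import Pool.Agent.W602.GT.KDefs
import Pool.Agent.W619.PQ.Core
import Pool.Agent.W619.PQ.Final

/-!
Exterior products of logarithmic differentials are logarithmic.
-/

set_option autoImplicit false
set_option linter.overlappingInstances false
set_option linter.unusedSectionVars false

open FF Pool.Agent.W603.LV
open Pool.Agent.W602.GT (IsPluri Divisorial RegAt LogAt)
open Pool.Agent.W619.PQ (extForm)

namespace Pool.Agent.Helper320.PCL

/-- The boundary of the product of open curves: the places over a boundary point of some factor. -/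
def BdK {K : Type} [Field K] [Algebra ℂ K] {n : ℕ} (F : Fin n → IntermediateField ℂ K)
    (B : ∀ i, Finset (Place ℂ (F i))) (P : Place ℂ K) : Prop :=
  ∃ i, ∃ p ∈ B i, ∃ e : ℕ, Over P p e

theorem bt_nonneg {k F : Type} [Field k] [Field F] [Algebra k F] (B : Finset (Place k F))
    (P : Place k F) : 0 ≤ bt B P := by
  unfold bt
  split_ifs <;> norm_num

theorem bt_le_one {k F : Type} [Field k] [Field F] [Algebra k F] (B : Finset (Place k F))
    (P : Place k F) : bt B P ≤ 1 := by
  unfold bt
  split_ifs <;> norm_num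

theorem bt_of_notMem {k F : Type} [Field k] [Field F] [Algebra k F] {B : Finset (Place k F)}
    {P : Place k F} (h : P ∉ B) : bt B P = 0 := by
  unfold bt
  rw [if_neg h]

open scoped Classical in
theorem t_REGL {K : Type} [Field K] [Algebra ℂ K] {n : ℕ} (F : Fin n → IntermediateField ℂ K)
    [∀ i, IsFF ℂ (F i)] (B : ∀ i, Finset (Place ℂ (F i)))
    (D0 : ∀ i, Derivation ℂ (F i) (F i)) (hD0 : ∀ i, D0 i ≠ 0)
    (x c : ∀ i, F i) (hx : ∀ i, Transcendental ℂ (x i)) (hc : ∀ i, IsLogD (B i) (D0 i) (c i)) :
    IsPluri 1 (extForm (K := K) 1 D0 x c) ∧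
      ∀ P : Place ℂ K, LogAt P (extForm (K := K) 1 D0 x c) ∧
        (¬ BdK F B P → RegAt P (extForm (K := K) 1 D0 x c)) := by
  refine ⟨Pool.Agent.W619.PQ.extForm_pluri 1 D0 x c, ?_⟩
  intro P
  by_cases hz : ∃ i, c i = 0
  · obtain ⟨i, hi⟩ := hz
    have h0 : ∀ D, extForm (K := K) 1 D0 x c D = 0 := by
      intro D
      unfold extForm
      rw [Finset.prod_eq_zero (Finset.mem_univ i) (by rw [hi, zero_div, map_zero]), zero_mul]
    refine ⟨fun D _ => ?_, fun _ D _ => ?_⟩
    · rw [h0]
      exact P.reg_zero
    · rw [h0]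
      exact P.reg_zero
  have hz' : ∀ i, c i ≠ 0 := fun i hi => hz ⟨i, hi⟩
  refine ⟨fun D hD => ?_, fun hP D hD => ?_⟩
  · refine Pool.Agent.W619.PL.extForm_logregular 1 D0 hD0 x c hx hz' P (fun i => ?_) D hD
    by_cases htriv : ∀ f : F i, P.ord (algebraMap (F i) K f) = 0
    · exact Or.inl htriv
    · right
      push Not at htriv
      obtain ⟨e, p, hp⟩ := exists_over (K := F i) P htriv
      refine ⟨p, e, hp, ?_⟩
      have h1 := (hc i p).resolve_left (hz' i)
      have h2 := bt_le_one (B i) p
      push_cast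
      omega
  · let s : Fin n → ℚ := fun i =>
      if ∀ f : F i, P.ord (algebraMap (F i) K f) = 0 then 0 else 1
    have hs0 : ∀ i, 0 ≤ s i := by
      intro i
      simp only [s]
      split_ifs <;> norm_num
    refine Pool.Agent.W619.PQ.extForm_regular 1 D0 hD0 x c hx hz' P s ?_ ?_ D hD
    · intro i
      by_cases htriv : ∀ f : F i, P.ord (algebraMap (F i) K f) = 0
      · exact Or.inl ⟨htriv, if_pos htriv⟩
      · right
        have hs1 : s i = 1 := if_neg htriv
        push Not at htriv
        obtain ⟨e, p, hp⟩ := exists_over (K := F i) P htriv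
        refine ⟨p, e, hp, ?_⟩
        have hpB : p ∉ B i := fun h => hP ⟨i, p, h, e, hp⟩
        have h1 : vo p (D0 i) ≤ p.ord (c i) := by
          have h2 := (hc i p).resolve_left (hz' i)
          rw [bt_of_notMem hpB] at h2
          omega
        have he : 1 ≤ e := hp.1
        have h1' : (vo p (D0 i) : ℚ) ≤ (p.ord (c i) : ℚ) := by exact_mod_cast h1
        have he' : (1 : ℚ) ≤ e := by exact_mod_cast he
        rw [hs1]
        push_cast
        nlinarith
    · by_cases hall : ∀ i, ∀ f : F i, P.ord (algebraMap (F i) K f) = 0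
      · exact Or.inl hall
      · right
        push Not at hall
        obtain ⟨i, f, hf⟩ := hall
        refine le_trans ?_ (Finset.single_le_sum (fun i _ => hs0 i) (Finset.mem_univ i))
        have hs1 : s i = 1 := if_neg fun h => hf (h f)
        rw [hs1]

end Pool.Agent.Helper320.PCL
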