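import Pool.Agent.Helper320.PCL.Stm
import Pool.Agent.Helper320.PC.Sep

/-!
Separation of the points of an open curve over an arbitrary extension of the field of constants
(helper369).
-/

set_option autoImplicit false
set_option linter.overlappingInstances false
set_option linter.unusedSectionVars false

open FF Pool.Agent.W603.LV

namespace Pool.Agent.Helper320.PCL.SEPL

open Pool.Agent.Helper320.PC.SEP (exists_ev exists_pl ge_const exists_notMem)

section

variable {k F : Type} [Field k] [Field F] [Algebra k F] [CharZero k] [IsFF k F] [IsAlgClosed k]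

/-- a function which vanishes at the places where the order of `D` is not zero and at the places of
the boundary -/
theorem exists_h (Bd : Finset (Place k F)) {D : Derivation k F F} (hD : D ≠ 0) :
    ∃ h : F, h ≠ 0 ∧ ∀ P : Place k F, (vo P D ≠ 0 ∨ P ∈ Bd) → 0 < P.ord h := by
  classical
  have hfin := vo_finite hD
  obtain ⟨P, hP⟩ := exists_notMem (hfin.toFinset ∪ Bd)
  obtain ⟨z, hz0, -, hz⟩ := Pool.Agent.W619.PQ.sep_many (hfin.toFinset ∪ Bd) P hP
  refine ⟨z, hz0, fun Q hQ => hz Q ?_⟩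
  rw [Finset.mem_union, Set.Finite.mem_toFinset]
  exact hQ

/-- the space of the `c` with `IsLogD Bd D c` is finite dimensional -/
theorem exists_gens (Bd : Finset (Place k F)) {D : Derivation k F F} (hD : D ≠ 0) :
    ∃ G : Finset F, ∀ c : F, IsLogD Bd D c → c ∈ Submodule.span k (G : Set F) := by
  classical
  let E : Place k F →₀ ℤ := Finsupp.ofSupportFinite (fun P => bt Bd P - vo P D) (by
    refine ((vo_finite hD).union Bd.finite_toSet).subset fun P hP => ?_
    rw [Function.mem_support] at hP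
    by_contra h
    rw [Set.mem_union, not_or] at h
    apply hP
    have h' : vo P D = 0 := by
      by_contra h1
      exact h.1 h1
    have h'' : bt Bd P = 0 := by
      unfold bt
      rw [if_neg]
      intro h1
      exact h.2 (Finset.mem_coe.2 h1)
    rw [h', h'', sub_zero])
  have hE : ∀ P, E P = bt Bd P - vo P D := fun P => rfl
  have hfg : (LL E).FG := Module.Finite.iff_fg.1 (finDim_LL E)
  obtain ⟨G, hG⟩ := hfg
  refine ⟨G, fun c hc => ?_⟩
  rw [hG, mem_LL]
  by_cases hc0 : c = 0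
  · exact Or.inl hc0
  · right
    intro P
    rw [hE, neg_sub]
    exact (hc P).resolve_left hc0

end

theorem main {k F Ω : Type} [Field k] [Field F] [Algebra k F] [CharZero k] [IsFF k F]
    [IsAlgClosed k] [Field Ω] [Algebra k Ω] (hRRL : S_RRL)
    (B : Finset (Place k F)) {T : Finset (F →ₐ[k] Ω)}
    {q : F →ₐ[k] Ω} (hqT : q ∉ T)
    (hgon : ∀ t : F, Transcendental k t → (∀ P ∈ B, 0 < P.ord t) →
      T.card + 2 ≤ Module.finrank (IntermediateField.adjoin k {t}) F)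
    {D : Derivation k F F} (hD : D ≠ 0) :
    ∃ w ∈ WspL Ω B D, w q ≠ 0 ∧ ∀ t ∈ T, w t = 0 := by
  classical
  by_contra hcon
  push Not at hcon
  -- the linear relation
  let L : T → (WspL Ω B D →ₗ[Ω] Ω) := fun t => (LinearMap.proj t.1).comp (WspL Ω B D).subtype
  let K : WspL Ω B D →ₗ[Ω] Ω := (LinearMap.proj q).comp (WspL Ω B D).subtype
  have hker : ⨅ i, LinearMap.ker (L i) ≤ LinearMap.ker K := by
    intro w hw
    rw [Submodule.mem_iInf] at hw
    rw [LinearMap.mem_ker]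
    by_contra hwq
    obtain ⟨t, ht, hwt⟩ := hcon w.1 w.2 hwq
    exact hwt (hw ⟨t, ht⟩)
  have hspan := mem_span_of_iInf_ker_le_ker hker
  rw [Submodule.mem_span_range_iff_exists_fun] at hspan
  obtain ⟨a, ha⟩ := hspan
  have hrel : ∀ c : F, IsLogD B D c → q c = ∑ t : T, a t * t.1 c := by
    intro c hc
    have hmem : (fun σ : F →ₐ[k] Ω => σ c) ∈ WspL Ω B D :=
      Submodule.subset_span ⟨⟨c, hc⟩, rfl⟩
    have h1 := LinearMap.congr_fun ha ⟨_, hmem⟩
    rw [LinearMap.sum_apply] at h1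
    exact h1.symm
  -- the affine model
  obtain ⟨x, hx⟩ := IsFF.exists_transcendental (k := k) (K := F)
  obtain ⟨h, hh0, hh⟩ := exists_h B hD
  obtain ⟨G, hG⟩ := exists_gens B hD
  have hu : ∀ t : T, ∃ u : F, t.1 u ≠ q u := by
    intro t
    by_contra hc
    push Not at hc
    exact hqT ((AlgHom.ext hc : t.1 = q) ▸ t.2)
  choose u hu using hu
  let Gen : Finset F := G ∪ {x, h} ∪ Finset.univ.image u
  let Bf : Subalgebra k F := Algebra.adjoin k (Gen : Set F)
  have hGB : ∀ b ∈ Gen, b ∈ Bf := fun b hb => Algebra.subset_adjoin hb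
  have hxB : x ∈ Bf := hGB x (by simp [Gen])
  have hhB : h ∈ Bf := hGB h (by simp [Gen])
  have huB : ∀ t, u t ∈ Bf := fun t => hGB _ (by simp [Gen])
  have hcB : ∀ c : F, IsLogD B D c → c ∈ Bf := by
    intro c hc
    have h1 : Submodule.span k (G : Set F) ≤ Subalgebra.toSubmodule Bf := by
      rw [Submodule.span_le]
      intro g hg
      exact hGB g (by simp only [Gen, Finset.mem_union]; exact Or.inl (Or.inl hg))
    exact h1 (hG c hc)
  -- the ring of the coefficients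
  let RG : Finset Ω := Finset.univ.image a ∪ Finset.univ.image (fun p : T × Gen => p.1.1 p.2.1) ∪
    Finset.univ.image (fun g : Gen => q g.1) ∪ Finset.univ.image (fun t : T => (t.1 h)⁻¹) ∪
    {(q h)⁻¹} ∪ Finset.univ.image (fun t : T => (t.1 (u t) - q (u t))⁻¹)
  let R : Subalgebra k Ω := Algebra.adjoin k (RG : Set Ω)
  have hRR : ∀ b ∈ RG, b ∈ R := fun b hb => Algebra.subset_adjoin hb
  have haR : ∀ t, a t ∈ R := fun t => hRR _ (by
    simp only [RG, Finset.mem_union, Finset.mem_image, Finset.mem_univ, true_and]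
    exact Or.inl (Or.inl (Or.inl (Or.inl (Or.inl ⟨t, rfl⟩)))))
  have htR : ∀ (t : T) (b : F), b ∈ Bf → t.1 b ∈ R := by
    intro t b hb
    have h1 : Bf ≤ R.comap t.1 := by
      rw [Algebra.adjoin_le_iff]
      intro g hg
      refine hRR _ ?_
      simp only [RG, Finset.mem_union, Finset.mem_image, Finset.mem_univ, true_and]
      exact Or.inl (Or.inl (Or.inl (Or.inl (Or.inr ⟨(t, ⟨g, hg⟩), rfl⟩))))
    exact h1 hb
  have hqR : ∀ (b : F), b ∈ Bf → q b ∈ R := by
    intro b hb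
    have h1 : Bf ≤ R.comap q := by
      rw [Algebra.adjoin_le_iff]
      intro g hg
      refine hRR _ ?_
      simp only [RG, Finset.mem_union, Finset.mem_image, Finset.mem_univ, true_and]
      exact Or.inl (Or.inl (Or.inl (Or.inr ⟨⟨g, hg⟩, rfl⟩)))
    exact h1 hb
  have hthR : ∀ t : T, (t.1 h)⁻¹ ∈ R := fun t => hRR _ (by
    simp only [RG, Finset.mem_union, Finset.mem_image, Finset.mem_univ, true_and]
    exact Or.inl (Or.inl (Or.inr ⟨t, rfl⟩)))
  have hqhR : (q h)⁻¹ ∈ R := hRR _ (by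
    simp only [RG, Finset.mem_union, Finset.mem_image, Finset.mem_univ, true_and,
      Finset.mem_singleton]
    exact Or.inl (Or.inr trivial))
  have huR : ∀ t : T, (t.1 (u t) - q (u t))⁻¹ ∈ R := fun t => hRR _ (by
    simp only [RG, Finset.mem_union, Finset.mem_image, Finset.mem_univ, true_and]
    exact Or.inr ⟨t, rfl⟩)
  have : Algebra.FiniteType k R := (Subalgebra.fg_iff_finiteType R).1 (Subalgebra.fg_adjoin_finset RG)
  obtain ⟨φ⟩ := exists_ev (k := k) (R := R)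
  -- the points
  let pt : T → (Bf →ₐ[k] k) := fun t =>
    φ.comp ((t.1.comp Bf.val).codRestrict R (fun b => htR t b.1 b.2))
  let pq : Bf →ₐ[k] k := φ.comp ((q.comp Bf.val).codRestrict R (fun b => hqR b.1 b.2))
  have hpt : ∀ (t : T) (b : Bf), pt t b = φ ⟨t.1 b.1, htR t b.1 b.2⟩ := fun t b => rfl
  have hpq : ∀ (b : Bf), pq b = φ ⟨q b.1, hqR b.1 b.2⟩ := fun b => rfl
  have hinv : ∀ (z : Ω) (hz : z ∈ R) (hz' : z⁻¹ ∈ R), z ≠ 0 → φ ⟨z, hz⟩ ≠ 0 := by
    intro z hz hz' hz0 h0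
    have h1 : (⟨z, hz⟩ : R) * ⟨z⁻¹, hz'⟩ = 1 := Subtype.ext (mul_inv_cancel₀ hz0)
    have h2 := congrArg φ h1
    rw [map_mul, h0, zero_mul, map_one] at h2
    exact zero_ne_one h2
  have hth0 : ∀ t : T, pt t ⟨h, hhB⟩ ≠ 0 := fun t =>
    hinv _ _ (hthR t) ((map_ne_zero_iff _ t.1.injective).2 hh0)
  have hqh0 : pq ⟨h, hhB⟩ ≠ 0 := hinv _ _ hqhR ((map_ne_zero_iff _ q.injective).2 hh0)
  have htu : ∀ t : T, pt t ⟨u t, huB t⟩ ≠ pq ⟨u t, huB t⟩ := by
    intro t h1
    have h2 : t.1 (u t) - q (u t) ∈ R := sub_mem (htR t _ (huB t)) (hqR _ (huB t))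
    have h3 := hinv _ h2 (huR t) (sub_ne_zero.2 (hu t))
    apply h3
    have h4 : (⟨t.1 (u t) - q (u t), h2⟩ : R) = ⟨t.1 (u t), htR t _ (huB t)⟩ -
        ⟨q (u t), hqR _ (huB t)⟩ := rfl
    rw [h4, map_sub]
    exact sub_eq_zero.2 h1
  -- the places
  choose Pt hPt using fun t : T => exists_pl Bf hxB hx (pt t)
  obtain ⟨Pq, hPq⟩ := exists_pl Bf hxB hx pq
  have hvo : ∀ (P : Place k F) (χ : Bf →ₐ[k] k),
      (∀ b : Bf, Ge P 1 ((b : F) - algebraMap k F (χ b))) → χ ⟨h, hhB⟩ ≠ 0 →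
        vo P D = 0 ∧ P ∉ B := by
    intro P χ h1 h2
    by_contra h3
    have h3' : vo P D ≠ 0 ∨ P ∈ B := by
      by_contra h3'
      rw [not_or, not_not] at h3'
      exact h3 h3'
    have h4 : Ge P 1 h := Or.inr (hh P h3')
    have h5 := h4.sub (h1 ⟨h, hhB⟩)
    have h6 : h - ((⟨h, hhB⟩ : Bf) : F) + algebraMap k F (χ ⟨h, hhB⟩) =
        algebraMap k F (χ ⟨h, hhB⟩) := by simp
    have h7 : h - (((⟨h, hhB⟩ : Bf) : F) - algebraMap k F (χ ⟨h, hhB⟩)) =
        algebraMap k F (χ ⟨h, hhB⟩) := by rw [← h6]; ring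
    rw [h7] at h5
    exact h2 (ge_const h5)
  have hne : ∀ t : T, Pt t ≠ Pq := by
    intro t h1
    apply htu t
    have h2 := hPt t ⟨u t, huB t⟩
    have h3 := hPq ⟨u t, huB t⟩
    rw [h1] at h2
    have h4 := h3.sub h2
    have h5 : ((⟨u t, huB t⟩ : Bf) : F) - algebraMap k F (pq ⟨u t, huB t⟩) -
        (((⟨u t, huB t⟩ : Bf) : F) - algebraMap k F (pt t ⟨u t, huB t⟩)) =
        algebraMap k F (pt t ⟨u t, huB t⟩ - pq ⟨u t, huB t⟩) := by
      rw [map_sub]; ring
    rw [h5] at h4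
    exact sub_eq_zero.1 (ge_const h4)
  let Tb : Finset (Place k F) := Finset.univ.image Pt
  have hTb : Tb.card ≤ T.card := by
    refine Finset.card_image_le.trans ?_
    rw [Finset.card_univ, Fintype.card_coe]
  have hPqT : Pq ∉ Tb := by
    intro h1
    obtain ⟨t, -, h2⟩ := Finset.mem_image.1 h1
    exact hne t h2
  have hbt0 : ∀ P : Place k F, P ∉ B → bt B P = 0 := by
    intro P hP
    unfold bt
    rw [if_neg hP]
  obtain ⟨hvq, hqB⟩ := hvo Pq pq hPq hqh0
  obtain ⟨f, hf0, hf1, hf2⟩ := hRRL B (fun Q => if Q ∈ Tb then 1 else 0) Tb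
    (fun Q hQ => if_neg hQ) (by
      intro Q hQ
      obtain ⟨t, -, rfl⟩ := Finset.mem_image.1 hQ
      exact (hvo (Pt t) (pt t) (hPt t) (hth0 t)).2) Pq hqB (by
      intro t ht htB
      have h1 := hgon t ht htB
      have h2 : ∑ Q ∈ Tb, (if Q ∈ Tb then 1 else 0) = Tb.card := by
        rw [Finset.sum_congr rfl (fun Q hQ => if_pos hQ), Finset.card_eq_sum_ones]
      rw [h2]
      omega) hD
  have hfr : IsLogD B D f := by
    intro P
    right
    have h1 := hf1 P
    have h2 : (0 : ℤ) ≤ ((if P ∈ Tb then 1 else 0 : ℕ) : ℤ) := Int.natCast_nonneg _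
    change vo P D + ((if P ∈ Tb then 1 else 0 : ℕ) : ℤ) - bt B P ≤ P.ord f at h1
    omega
  have hfB : f ∈ Bf := hcB f hfr
  have hf2' : Pq.ord f = 0 := by
    rw [hf2, hvq, zero_add]
    show ((if Pq ∈ Tb then 1 else 0 : ℕ) : ℤ) = 0
    rw [if_neg hPqT]
    rfl
  have hfq : pq ⟨f, hfB⟩ ≠ 0 := by
    intro h1
    have h2 := hPq ⟨f, hfB⟩
    rw [h1, map_zero, sub_zero] at h2
    have h3 := h2.resolve_left hf0
    have h4 : Pq.ord ((⟨f, hfB⟩ : Bf) : F) = 0 := hf2'
    omega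
  have hft : ∀ t : T, pt t ⟨f, hfB⟩ = 0 := by
    intro t
    obtain ⟨hvt, htB⟩ := hvo (Pt t) (pt t) (hPt t) (hth0 t)
    have h1 := hf1 (Pt t)
    change vo (Pt t) D + ((if Pt t ∈ Tb then 1 else 0 : ℕ) : ℤ) - bt B (Pt t) ≤ (Pt t).ord f at h1
    rw [hvt, hbt0 _ htB, if_pos (Finset.mem_image_of_mem _ (Finset.mem_univ _)), Nat.cast_one] at h1
    have h2 : Ge (Pt t) 1 f := Or.inr (by omega)
    have h3 := h2.sub (hPt t ⟨f, hfB⟩)
    have h4 : f - (((⟨f, hfB⟩ : Bf) : F) - algebraMap k F (pt t ⟨f, hfB⟩)) =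
        algebraMap k F (pt t ⟨f, hfB⟩) := by
      show f - (f - algebraMap k F (pt t ⟨f, hfB⟩)) = _
      ring
    rw [h4] at h3
    exact ge_const h3
  apply hfq
  have h1 := hrel f hfr
  have h2 : (⟨q f, hqR f hfB⟩ : R) = ∑ t : T, (⟨a t, haR t⟩ : R) * ⟨t.1 f, htR t f hfB⟩ := by
    apply Subtype.ext
    rw [AddSubmonoidClass.coe_finsetSum]
    exact h1
  have h3 := congrArg φ h2
  rw [map_sum] at h3
  rw [hpq]
  rw [h3]
  refine Finset.sum_eq_zero fun t _ => ?_
  rw [map_mul]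
  have h4 := hft t
  rw [hpt] at h4
  rw [h4, mul_zero]

end Pool.Agent.Helper320.PCL.SEPL

namespace Pool.Agent.Helper320.PCL

/-- TARGET -/
theorem t_SEPL (hRRL : S_RRL) : S_SEPL := by
  intro k F Ω _ _ _ _ _ _ _ _ B T q hq hgon D hD
  exact SEPL.main hRRL B hq hgon hD

end Pool.Agent.Helper320.PCL
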