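import Pool.Agent.Helper320.PC.Main2
import Pool.Agent.Helper320.PCL.Rrl
import Pool.Agent.Helper320.PCL.Sep
import Pool.Agent.Helper320.PCL.Sepj
import Pool.Agent.Helper320.PCL.Mull
import Pool.Agent.Helper320.PCL.Mulj
import Pool.Agent.Helper320.PCL.Core2
import Pool.Agent.Helper320.PCL.Corej
import Pool.Agent.Helper320.PCL.Reg
import Pool.Agent.R882.LTr

/-!
Images of products of open curves: the Kodaira dimension.
-/

set_option autoImplicit false
set_option linter.overlappingInstances false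
set_option linter.unusedSectionVars false
set_option maxHeartbeats 4000000
set_option synthInstance.maxHeartbeats 400000

open FF Pool.Agent.W603.LV
open Pool.Agent.W602.GT (IsPluri Divisorial RegAt LogAt KodGe)
open Pool.Agent.W619.PQ (extForm IsUniruled)
open Pool.Agent.W619.TW (MM Cur)
open Pool.Agent.Y172 (exists_crd exists_lift lift_dual pluri_coord)
open Pool.Agent.Y184.NT (trForm trForm_pluri trForm_reg)
open Pool.Agent.Helper320.PC (ess_sup form_eq der_prod der_mem)

namespace Pool.Agent.Helper320.PCL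

theorem t_CORE2L' : S_CORE2L :=
  t_CORE2L Pool.Agent.Helper320.PC.t_CBC (t_SEPL t_RRL) t_MULL Pool.Agent.Helper320.PC.t_FIX

theorem t_COREJL' : S_COREJL := t_COREJL (t_SEPJL t_RRL) t_MULJL

/-- **Dichotomy.** The Kodaira dimension is at least the number of the factors of large gonality, or
the relation holds over the compositum with these factors. -/
theorem dichotomyL (hCJ : S_COREJL) (hKOD : Pool.Agent.Helper320.PC.S_KOD) (hTRD : Pool.Agent.Helper320.PC.S_TRD) {n : ℕ} {K : Type} [Field K]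
    [Algebra ℂ K] (hK : Algebra.trdeg ℂ K = n) (F : Fin n → IntermediateField ℂ K)
    [hF : ∀ i, IsFF ℂ (F i)] (B : ∀ i, Finset (Place ℂ (F i))) (hsup : ⨆ i, F i = ⊤)
    (L : Type) [Field L] [Algebra ℂ L] [Algebra L K] [IsScalarTower ℂ L K]
    [FiniteDimensional L K] (I : Finset (Fin n)) (hI0 : I.Nonempty) (γ : Fin n → ℕ)
    (hγ : ∀ i, LGonGe ℂ (F i) (B i) (γ i)) (L' : IntermediateField L K)
    (hL' : L' = IntermediateField.adjoin L (⋃ i ∈ I, (F i : Set K)))
    (hI : ∀ i ∈ I, 2 * Module.finrank L (IntermediateField.adjoin L (F i : Set K)) < γ i)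
    (D0 : ∀ i, Derivation ℂ (F i) (F i)) (hD0 : ∀ i, D0 i ≠ 0) (x : ∀ i, F i)
    (hx : ∀ i, Transcendental ℂ (x i)) {z : Fin n → L} {E : Fin n → Derivation ℂ L L}
    (hz : IsTranscendenceBasis ℂ z) (hE : ∀ i j, E i (z j) = if i = j then 1 else 0)
    {E' : Fin n → Derivation ℂ K K}
    (hE' : ∀ i f, E' i (algebraMap L K f) = algebraMap L K (E i f)) (BL : Place ℂ L → Prop)
    (hBL : ∀ (P : Place ℂ L) (Q : Place ℂ K) (e : ℕ), Over Q P e → BdK F B Q → BL P) :
    KodGe ℂ L n BL I.card ∨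
      ∀ c : ∀ i, F i, (∀ i, i ∉ I → IsLogD (B i) (D0 i) (c i)) →
        Algebra.trace L' K (extForm (K := K) 1 D0 x c E') = 0 := by
  classical
  have hess : Algebra.EssFiniteType ℂ K := ess_sup F hsup
  have hessL : Algebra.EssFiniteType ℂ L := Pool.Agent.TH466.QG.ess_below (K := K)
  have hL : Algebra.trdeg ℂ L = n := Pool.Agent.Y184.NT.trdeg_below (K := K) hK
  have hzK : IsTranscendenceBasis ℂ (fun j => algebraMap L K (z j)) := hz.algebraMap_comp
  have hE'd := lift_dual hE hE'
  obtain ⟨δ, hδ⟩ : ∃ δ : K, δ = (∏ i, algebraMap (F i) K (1 / (D0 i (x i)) ^ 1)) *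
    (Matrix.det (Matrix.of fun j i => E' j (algebraMap (F i) K (x i)))) ^ 1 := ⟨_, rfl⟩
  have hform : ∀ c : ∀ i, F i, extForm (K := K) 1 D0 x c E' =
      (∏ i, (c i : K)) * δ := fun c => form_eq F D0 x c E' hδ
  have hxb : IsTranscendenceBasis ℂ fun i => algebraMap (F i) K (x i) :=
    Pool.Agent.W619.PQ.basis_of_iSup F hsup hK x hx
  -- the case of a derivation
  have hcase : ∀ (D : Derivation ℂ L L) (D' : Derivation ℂ K K) (θ : L),
      (∀ f : L, D' (algebraMap L K f) = algebraMap L K (D f)) →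
      (∀ c : ∀ i, F i, (∀ i, IsLogD (B i) (D0 i) (c i)) →
        D (Algebra.trace L K ((∏ i, (c i : K)) * δ)) =
          θ * Algebra.trace L K ((∏ i, (c i : K)) * δ)) →
      ∀ l₀ ∈ I, D' (x l₀ : K) ≠ 0 →
      ∀ c : ∀ i, F i, (∀ i, i ∉ I → IsLogD (B i) (D0 i) (c i)) →
        Algebra.trace L' K (extForm (K := K) 1 D0 x c E') = 0 := by
    intro D D' θ hD hθ l₀ hl₀ hne c hc
    rw [hform]
    have hD0x : ∀ l, ((D0 l (x l) : F l) : K) ≠ 0 := by
      intro l h
      exact der_ne_zero (hD0 l) (hx l) (Subtype.ext h)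
    refine hCJ F B hsup I γ hγ L' hL' hI D0 hD0 (D' δ - algebraMap L K θ * δ) δ
      (fun l => D' (x l : K) / (D0 l (x l) : K)) l₀ hl₀ (div_ne_zero hne (hD0x l₀)) ?_ ?_ c hc
    · have hmem : ∀ y ∈ F l₀, y ∈ L' := by
        intro y hy
        rw [hL']
        exact IntermediateField.subset_adjoin L _ (Set.mem_iUnion₂.2 ⟨l₀, hl₀, hy⟩)
      exact div_mem (der_mem hL D D' hD L' (hmem _ (x l₀).2)) (hmem _ (D0 l₀ (x l₀)).2)
    · intro c hc
      have hcl : ∀ l, D' (c l : K) = D' (x l : K) / (D0 l (x l) : K) * (D0 l (c l) : K) := by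
        intro l
        obtain ⟨r, hr1, hr2⟩ := Pool.Agent.W619.PQ.ratio' (K := K) (hx l) (c l)
        have h1 : D' (c l : K) = (r : K) * D' (x l : K) := hr2 D'
        have h2 : (D0 l (c l) : K) = (r : K) * (D0 l (x l) : K) :=
          congrArg Subtype.val (hr1 (D0 l))
        rw [h1, h2]
        have h3 := hD0x l
        field_simp
      have hprod : D' ((∏ i, (c i : K)) * δ) = (∏ i, (c i : K)) * D' δ +
          ∑ l, δ * (D' (x l : K) / (D0 l (x l) : K)) * (D0 l (c l) : K) *
            ∏ i ∈ Finset.univ.erase l, (c i : K) := by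
        rw [D'.leibniz, smul_eq_mul, smul_eq_mul, der_prod D' Finset.univ fun i => (c i : K),
          Finset.mul_sum]
        congr 1
        refine Finset.sum_congr rfl fun l _ => ?_
        rw [hcl l]
        ring
      have h1 : (∏ i, (c i : K)) * (D' δ - algebraMap L K θ * δ) +
          ∑ l, δ * (D' (x l : K) / (D0 l (x l) : K)) * (D0 l (c l) : K) *
            ∏ i ∈ Finset.univ.erase l, (c i : K) =
          D' ((∏ i, (c i : K)) * δ) - θ • ((∏ i, (c i : K)) * δ) := by
        rw [hprod, Algebra.smul_def]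
        ring
      rw [h1, map_sub, map_smul, hTRD D D' hD, hθ c hc, smul_eq_mul, sub_self]
  by_cases hall : ∀ c : ∀ i, F i, (∀ i, IsLogD (B i) (D0 i) (c i)) →
      Algebra.trace L K ((∏ i, (c i : K)) * δ) = 0
  · right
    obtain ⟨l₀, hl₀⟩ := hI0
    -- a derivation which does not vanish at `x l₀`
    obtain ⟨a, ha⟩ : ∃ a, E' a (x l₀ : K) ≠ 0 := by
      by_contra hcon
      push Not at hcon
      obtain ⟨G, hG⟩ := Pool.Agent.W619.PQ.exists_dual (fun i => algebraMap (F i) K (x i)) hxb l₀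
      have h1 := Pool.Agent.W73.PG.PULL.expand (fun j => algebraMap L K (z j)) hzK E' hE'd G
      have h2 := congrArg (fun D : Derivation ℂ K K => D (x l₀ : K)) h1
      have h3 : G (x l₀ : K) = 1 := by
        have := hG l₀
        simpa using this
      beta_reduce at h2
      rw [h3, ← Derivation.coeFnAddMonoidHom_apply, map_sum, Finset.sum_apply] at h2
      rw [Finset.sum_eq_zero (fun j _ => ?_)] at h2
      · exact zero_ne_one h2
      · change _ * E' j (x l₀ : K) = 0
        rw [hcon j, mul_zero]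
    exact hcase (E a) (E' a) 0 (hE' a) (fun c hc => by rw [hall c hc, map_zero, mul_zero]) l₀ hl₀
      ha
  · push Not at hall
    obtain ⟨c₀, hc₀, hne⟩ := hall
    by_cases hA : ∃ (D : Derivation ℂ L L) (D' : Derivation ℂ K K) (θ : L),
      (∀ f : L, D' (algebraMap L K f) = algebraMap L K (D f)) ∧
      (∀ c : ∀ i, F i, (∀ i, IsLogD (B i) (D0 i) (c i)) →
        D (Algebra.trace L K ((∏ i, (c i : K)) * δ)) =
          θ * Algebra.trace L K ((∏ i, (c i : K)) * δ)) ∧
      ∃ l₀ ∈ I, D' (x l₀ : K) ≠ 0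
    · obtain ⟨D, D', θ, h1, h2, l₀, h3, h4⟩ := hA
      exact Or.inr (hcase D D' θ h1 h2 l₀ h3 h4)
    left
    let S : Set L := {s | ∃ c : ∀ i, F i, (∀ i, IsLogD (B i) (D0 i) (c i)) ∧
      s = Algebra.trace L K ((∏ i, (c i : K)) * δ)}
    let e : Fin I.card ≃ I := I.equivFin.symm
    obtain ⟨s, hs, hind⟩ := hKOD (K := K) S _ ⟨c₀, hc₀, rfl⟩ hne (fun j => (x (e j) : K))
      (hxb.1.comp (fun j => (e j : Fin n)) (Subtype.val_injective.comp e.injective)) (by
        intro D D' hD hS j
        by_contra hcon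
        apply hA
        refine ⟨D, D', D (Algebra.trace L K ((∏ i, (c₀ i : K)) * δ)) /
          Algebra.trace L K ((∏ i, (c₀ i : K)) * δ), hD, fun c hc => ?_, e j, (e j).2, hcon⟩
        have h1 := hS _ ⟨c, hc, rfl⟩
        obtain ⟨u, hu⟩ : ∃ u : L, u = Algebra.trace L K ((∏ i, (c i : K)) * δ) := ⟨_, rfl⟩
        obtain ⟨v, hv⟩ : ∃ v : L, v = Algebra.trace L K ((∏ i, (c₀ i : K)) * δ) := ⟨_, rfl⟩
        rw [← hu, ← hv] at h1 ⊢
        rw [← hv] at hne
        have h2 : D u = D (u / v * v) := by rw [div_mul_cancel₀ _ hne]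
        rw [h2, D.leibniz, h1, smul_zero, add_zero, smul_eq_mul]
        field_simp)
    choose c hc hsc using hs
    let cc : Fin (I.card + 1) → ∀ i, F i := Fin.cons c₀ c
    have hcc : ∀ j i, IsLogD (B i) (D0 i) (cc j i) := by
      intro j
      refine Fin.cases ?_ (fun j => ?_) j
      · exact hc₀
      · exact hc j
    have hreg := fun j => t_REGL F B D0 hD0 x (cc j) hx (hcc j)
    let ω : Fin (I.card + 1) → (Fin n → Derivation ℂ L L) → L := fun j =>
      trForm z (Algebra.trace L K (extForm (K := K) 1 D0 x (cc j) E'))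
    have hω : ∀ j (P : Place ℂ L), Divisorial n P → Pool.Agent.R882.LT.SecAt BL P (ω j) :=
      fun j P hP => Pool.Agent.R882.LT.trForm_sec hL hz hE hE' _ (hreg j).1 hBL
        (fun Q _ => (hreg j).2 Q) P hP
    have hval : ∀ j, ω j E = Algebra.trace L K ((∏ i, (cc j i : K)) * δ) := by
      intro j
      change (Matrix.of fun i j => E i (z j) : Matrix (Fin n) (Fin n) L).det * _ = _
      have h1 : (Matrix.of fun i j => E i (z j) : Matrix (Fin n) (Fin n) L) = 1 := by
        ext a b
        rw [Matrix.of_apply, hE, Matrix.one_apply]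
      rw [h1, Matrix.det_one, one_mul, hform]
    refine ⟨1, one_pos, ω, fun j => ⟨trForm_pluri _ _, fun P hP => (hω j P hP).1,
        fun P hP hB => (hω j P hP).2 hB⟩, E, ?_, ?_⟩
    · rw [hval]
      exact hne
    · have h1 : (fun i : Fin I.card => ω i.succ E / ω 0 E) =
          fun j => s j / Algebra.trace L K ((∏ i, (c₀ i : K)) * δ) := by
        funext j
        rw [hval, hval, hsc j]
        rfl
      rw [h1]
      exact hind


end Pool.Agent.Helper320.PCL
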