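import Pool.Agent.Helper320.PCL.Stm2
import Pool.Agent.R882.GLd

/-!
Images of products of open curves: the geometric generic fibre.
-/

set_option autoImplicit false
set_option linter.overlappingInstances false
set_option linter.unusedSectionVars false
set_option maxHeartbeats 4000000
set_option synthInstance.maxHeartbeats 400000

open IntermediateField Module FF Pool.Agent.W619.PQ Pool.Agent.W603.LV
open Pool.Agent.W602.GT (Divisorial RegAt IsPluri)
open Pool.Agent.W619.TW (Cur)
open Pool.Agent.W619.PL (IsA1Uniruled)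
open Pool.Agent.R882.GL
open Pool.Agent.R882.LT (TraceNe)

namespace Pool.Agent.Helper320.PCL

section

variable {K : Type} [Field K] [Algebra ℂ K] {n : ℕ}

variable {B Λ F : Type} [Field B] [Field Λ] [Field F] [Algebra ℂ B] [Algebra B K]
  [IsScalarTower ℂ B K] [Algebra B Λ] [Algebra Λ F] [Algebra K F] [Algebra B F]
  [IsScalarTower B Λ F] [IsScalarTower B K F] [Algebra ℂ Λ] [Algebra ℂ F] [IsScalarTower ℂ Λ F]
  [IsScalarTower ℂ K F] [IsScalarTower ℂ B Λ] [Algebra.IsAlgebraic B Λ] [IsAlgClosed Λ]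

/-- **The geometric generic fibre is rational, abstract form.** -/
theorem geo_abs [hess : Algebra.EssFiniteType ℂ K] (hK : Algebra.trdeg ℂ K = (n + 1 : ℕ))
    (hB : Algebra.trdeg ℂ B = n)
    (hcl : ∀ x : K, IsIntegral B x → ∃ y : B, algebraMap B K y = x)
    (hgenF : IntermediateField.adjoin Λ (Set.range (algebraMap K F)) = ⊤)
    (E' : IntermediateField B K) [FiniteDimensional E' K] {J : Type} [Finite J]
    (ω : J → (Fin (n + 1) → Derivation ℂ K K) → K) (hω : ∀ j, IsPluri 1 (ω j))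
    (hspan : ∀ (t : Fin n → K) (ξ : K), (∀ j, t j ∈ Set.range (algebraMap B K)) →
      IsTranscendenceBasis ℂ (Fin.append t (fun _ : Fin 1 => ξ)) →
      ∀ E : Fin (n + 1) → Derivation ℂ K K,
      (∀ i j, E i (Fin.append t (fun _ : Fin 1 => ξ) j) = if i = j then 1 else 0) →
      ∀ D : Derivation Λ F F, D (algebraMap K F ξ) = 1 →
      ∀ f : F, f ≠ 0 → (∀ Q : Place Λ F, vo Q D ≤ Q.ord f) →
        f ∈ Submodule.span Λ (Set.range fun j => algebraMap K F (ω j E)))
    (htr : ∀ j, ¬ TraceNe (ω j) (E'.restrictScalars ℂ)) :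
    ∃ FE : IntermediateField Λ F, FiniteDimensional FE F ∧
      (∀ z : K, algebraMap K F z ∈ FE ↔ z ∈ E') ∧
      ∃ s : FE, IntermediateField.adjoin Λ {s} = ⊤ := by
  classical
  have hB0 : CharZero B := charZero_of_injective_algebraMap (algebraMap ℂ B).injective
  have hΛ0 : CharZero Λ := charZero_of_injective_algebraMap (algebraMap B Λ).injective
  -- the coordinates
  obtain ⟨tB, htB⟩ := Pool.Agent.W636.PG.exists_basis ℂ B n hB
  have hLK : Algebra.trdeg B K = (1 : ℕ) :=
    Pool.Agent.Y174.trdeg_LK (r := 1) hB hK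
  obtain ⟨ξ, hξE, hξ⟩ : ∃ ξ : K, ξ ∈ E' ∧ ¬ IsAlgebraic B ξ := by
    by_contra hcon
    push Not at hcon
    have h1 : Algebra.IsAlgebraic B E' := ⟨fun z => by
      have h2 := hcon (z : K) z.2
      exact (isAlgebraic_algebraMap_iff (R := B) (algebraMap E' K).injective).1 h2⟩
    have h2 : Algebra.IsAlgebraic B K := Algebra.IsAlgebraic.trans B E' K
    have h3 : Algebra.trdeg B K = 0 := trdeg_eq_zero
    rw [h3] at hLK
    have h4 : (0 : ℕ) = 1 := by exact_mod_cast hLK
    exact zero_ne_one h4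
  have hxB : IsTranscendenceBasis B (fun _ : Fin (0 + 1) => ξ) := by
    have h1 : AlgebraicIndependent B (fun _ : Fin (0 + 1) => ξ) := by
      have : Unique (Fin (0 + 1)) := inferInstanceAs (Unique (Fin 1))
      rw [algebraicIndependent_unique_type_iff]
      exact hξ
    refine h1.isTranscendenceBasis_of_lift_trdeg_le_of_finite ?_
    rw [hLK]
    simp
  have hZ := Pool.Agent.Y174.basis_append htB hxB
  -- the frame, lifted from `E'`
  obtain ⟨EE, hEE⟩ : ∃ EE : IntermediateField ℂ K, EE = E'.restrictScalars ℂ := ⟨_, rfl⟩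
  have hfinE : FiniteDimensional EE K := by
    rw [hEE]
    exact inferInstanceAs (FiniteDimensional E' K)
  have hEtr : Algebra.trdeg ℂ EE = (n + 1 : ℕ) :=
    Pool.Agent.Y184.NT.trdeg_below (K := K) hK
  have hmemE : ∀ i, Fin.append (algebraMap B K ∘ tB) (fun _ : Fin (0 + 1) => ξ) i ∈ EE := by
    intro i
    rw [hEE]
    refine Fin.addCases (fun i => ?_) (fun i => ?_) i
    · rw [Fin.append_left]
      exact E'.algebraMap_mem (tB i)
    · rw [Fin.append_right]
      exact hξE
  obtain ⟨zE, hzE⟩ : ∃ zE : Fin (n + 1) → EE, ∀ i, (zE i : K) =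
    Fin.append (algebraMap B K ∘ tB) (fun _ : Fin (0 + 1) => ξ) i :=
      ⟨fun i => ⟨_, hmemE i⟩, fun _ => rfl⟩
  have hzEb : IsTranscendenceBasis ℂ zE := by
    have h1 : AlgebraicIndependent ℂ zE := by
      refine AlgebraicIndependent.of_comp EE.val ?_
      have h2 : (EE.val ∘ zE) = Fin.append (algebraMap B K ∘ tB) (fun _ : Fin (0 + 1) => ξ) :=
        funext hzE
      rw [h2]
      exact hZ.1
    refine h1.isTranscendenceBasis_of_lift_trdeg_le_of_finite ?_
    rw [hEtr]
    simp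
  obtain ⟨D0, hD0⟩ := Pool.Agent.W636.PG.exists_duals ℂ EE (n + 1) zE hzEb
  choose Ef hEf using fun i => Pool.Agent.Y172.exists_lift (k := ℂ) (K := EE) (L := K) hEtr (D0 i)
  have hEd : ∀ i j, Ef i (Fin.append (algebraMap B K ∘ tB) (fun _ : Fin (0 + 1) => ξ) j) =
      if i = j then 1 else 0 := by
    intro i j
    rw [← hzE j]
    have h1 := hEf i (zE j)
    rw [hD0] at h1
    refine h1.trans ?_
    by_cases h : i = j
    · rw [if_pos h, if_pos h, map_one]
    · rw [if_neg h, if_neg h, map_zero]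
  have htr0 : ∀ j, Algebra.trace EE K (ω j Ef) = 0 := by
    intro j
    by_contra h
    refine htr j ?_
    rw [← hEE]
    exact ⟨D0, Ef, hEf, h⟩
  have htrE' : ∀ j, Algebra.trace E' K (ω j Ef) = 0 := by
    intro j
    have h1 := htr0 j
    subst hEE
    have h2 : ((Algebra.trace E' K (ω j Ef) : E') : K) = 0 := by
      have h3 := congrArg (fun z : (E'.restrictScalars ℂ : IntermediateField ℂ K) => (z : K)) h1
      exact h3
    exact Subtype.ext h2
  -- the fibre
  have htrF : Algebra.trdeg Λ F = (1 : ℕ) :=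
    Pool.Agent.Y174.trdeg_F (L := B) (K := K) hLK hgenF
  have hessF : Algebra.EssFiniteType Λ F := Pool.Agent.Y174.ess_F (k := ℂ) (K := K) hess hgenF
  have hFF : IsFF Λ F := ⟨hessF, by rw [htrF]; simp⟩
  have hKFalg : Algebra.IsAlgebraic K F := Pool.Agent.Y174.alg_KF (L := B) hgenF
  have hξF : Transcendental Λ (algebraMap K F ξ) := by
    intro h
    apply hξ
    have h1 : IsAlgebraic B (algebraMap K F ξ) := h.restrictScalars B
    exact (isAlgebraic_algebraMap_iff (R := B) (algebraMap K F).injective).1 h1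
  have hd0 := der_ne (k := Λ) (K := F)
  have hd1 := der_ne_zero hd0 hξF
  obtain ⟨D, hDd⟩ : ∃ D : Derivation Λ F F, D = (der Λ F (algebraMap K F ξ))⁻¹ • der Λ F :=
    ⟨_, rfl⟩
  have hD1 : D (algebraMap K F ξ) = 1 := by
    rw [hDd, Derivation.smul_apply, smul_eq_mul, inv_mul_cancel₀ hd1]
  -- the dichotomy
  obtain ⟨FE, hFE⟩ : ∃ FE : IntermediateField Λ F,
    FE = IntermediateField.adjoin Λ (algebraMap K F '' E') := ⟨_, rfl⟩
  obtain ⟨s, hs⟩ := dich_fib (J := J) hFF hcl hgenF E' FE hFE hξE hξF hD1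
    (fun j => ω j Ef) (fun f hf0 hf => hspan (algebraMap B K ∘ tB) ξ (fun j => ⟨tB j, rfl⟩) hZ
      Ef hEd D hD1 f hf0 hf) htrE'
  have hmemFE : ∀ e : K, e ∈ E' → algebraMap K F e ∈ FE := by
    intro e he
    rw [hFE]
    exact IntermediateField.subset_adjoin _ _ ⟨e, he, rfl⟩
  obtain ⟨hfinFE, htrFE⟩ := Pool.Agent.R882.GL.trace_fib (F := F) hcl hgenF E' FE hFE
  refine ⟨FE, hfinFE, fun z => ⟨fun hz => ?_, hmemFE z⟩, s, hs⟩
  have h1 := htrFE z
  have h2 : Algebra.trace FE F (algebraMap K F z) =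
      Module.finrank FE F • (⟨algebraMap K F z, hz⟩ : FE) := by
    have h3 : algebraMap K F z = algebraMap FE F ⟨algebraMap K F z, hz⟩ := rfl
    conv_lhs => rw [h3]
    exact Algebra.trace_algebraMap _
  rw [h2] at h1
  have h4 : algebraMap K F ((Module.finrank FE F : K) * z) =
      algebraMap K F ((Algebra.trace E' K z : E') : K) := by
    rw [← h1, map_mul, map_natCast]
    have h5 : ((Module.finrank FE F • (⟨algebraMap K F z, hz⟩ : FE) : FE) : F) =
        (Module.finrank FE F : F) * algebraMap K F z := by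
      rw [nsmul_eq_mul]
      rfl
    rw [h5]
  have h6 : (Module.finrank FE F : K) * z = ((Algebra.trace E' K z : E') : K) :=
    (algebraMap K F).injective h4
  have hK0 : CharZero K := charZero_of_injective_algebraMap (algebraMap ℂ K).injective
  have h7 : (Module.finrank FE F : K) ≠ 0 := by
    have : 0 < Module.finrank FE F := Module.finrank_pos
    exact_mod_cast this.ne'
  have h8 : z = (Module.finrank FE F : K)⁻¹ * ((Algebra.trace E' K z : E') : K) := by
    rw [← h6, inv_mul_cancel_left₀ h7]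
  rw [h8]
  exact mul_mem (inv_mem (IntermediateField.natCast_mem E' _)) (Algebra.trace E' K z).2

end

/-- The restrictions of the forms `ω j` generate the regular differentials of the geometric generic
fibre `F` over `Λ`. -/
def SpanFib' {K : Type} [Field K] [Algebra ℂ K] {n : ℕ} {J : Type} (B : IntermediateField ℂ K)
    (ω : J → (Fin (n + 1) → Derivation ℂ K K) → K) : Prop :=
  ∀ (Λ F : Type) [Field Λ] [IsAlgClosed Λ] [Algebra ℂ Λ] [Field F] [Algebra Λ F]
    [Algebra ℂ F] [IsScalarTower ℂ Λ F] (φ : K →ₐ[ℂ] F), IsFF Λ F →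
    IntermediateField.adjoin Λ (Set.range φ) = ⊤ →
    (∀ z ∈ B, ∃ a : Λ, algebraMap Λ F a = φ z) →
    (∀ z : K, ¬ IsAlgebraic B z → Transcendental Λ (φ z)) →
    ∀ (t : Fin n → K) (ξ : K), (∀ j, t j ∈ B) →
      IsTranscendenceBasis ℂ (Fin.append t (fun _ : Fin 1 => ξ)) →
    ∀ E : Fin (n + 1) → Derivation ℂ K K,
      (∀ i j, E i (Fin.append t (fun _ : Fin 1 => ξ) j) = if i = j then 1 else 0) →
    ∀ D : Derivation Λ F F, D (φ ξ) = 1 →
    ∀ f : F, f ≠ 0 → (∀ Q : Place Λ F, vo Q D ≤ Q.ord f) →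
      f ∈ Submodule.span Λ (Set.range fun j => φ (ω j E))

/-- **The dichotomy for the images of a fibration by open curves.** -/
theorem dichL (hUNI : S_UNI) (hA1 : S_A1) {K : Type} [Field K] [Algebra ℂ K] {n : ℕ}
    [hess : Algebra.EssFiniteType ℂ K] (hK : Algebra.trdeg ℂ K = (n + 1 : ℕ))
    (B Fi : IntermediateField ℂ K) (hcur : Cur B Fi) (hB : Algebra.trdeg ℂ B = n)
    (hcl : ∀ z : K, IsAlgebraic B z → z ∈ B) (E' : IntermediateField B K)
    [FiniteDimensional E' K] {J : Type} [Finite J]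
    (ω : J → (Fin (n + 1) → Derivation ℂ K K) → K) (hω : ∀ j, IsPluri 1 (ω j))
    (hspan : SpanFib' B ω) (htr : ∀ j, ¬ TraceNe (ω j) (E'.restrictScalars ℂ))
    (Bd : Finset (Place ℂ Fi)) (BE : Place ℂ (E'.restrictScalars ℂ) → Prop)
    (hBE : ∀ (v : Place ℂ (E'.restrictScalars ℂ)) (Q : Place ℂ K) (e : ℕ), Over Q v e →
      (∀ z ∈ B, Q.ord z = 0) → BE v → ∃ p ∈ Bd, ∃ e' : ℕ, Over Q p e')
    (hu : ∀ u : Fi, (u : K) ∈ (E'.restrictScalars ℂ) →
      (∀ P : Place ℂ Fi, P ∉ Bd → P.ord u = 0) → IsAlgebraic ℂ u) :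
    IsA1Uniruled ℂ (E'.restrictScalars ℂ) (n + 1) BE := by
  classical
  have hcl' : ∀ z : K, IsIntegral B z → ∃ y : B, algebraMap B K y = z := fun z hz =>
    ⟨⟨z, hcl z hz.isAlgebraic⟩, rfl⟩
  let Ω := AlgebraicClosure K
  let Λ : IntermediateField B Ω := algebraicClosure B Ω
  have hΛ : IsAlgClosed Λ := (algebraicClosure.isAlgClosure B Ω).isAlgClosed
  have hΛalg : Algebra.IsAlgebraic B Λ := inferInstance
  let F : IntermediateField Λ Ω := IntermediateField.adjoin Λ (Set.range (algebraMap K Ω))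
  have hTL : IsScalarTower ℂ B Ω := IsScalarTower.of_algebraMap_eq fun z => by
    rw [IsScalarTower.algebraMap_apply ℂ K Ω]
    rfl
  have hTΛ : IsScalarTower ℂ Λ Ω := IsScalarTower.of_algebraMap_eq fun z => by
    rw [IsScalarTower.algebraMap_apply ℂ B Ω]
    rfl
  let φ0 : K →+* F :=
    { toFun := fun z => ⟨algebraMap K Ω z, IntermediateField.subset_adjoin _ _ ⟨z, rfl⟩⟩
      map_one' := Subtype.ext (map_one _)
      map_mul' := fun a b => Subtype.ext (map_mul _ _ _)
      map_zero' := Subtype.ext (map_zero _)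
      map_add' := fun a b => Subtype.ext (map_add _ _ _) }
  let iKF : Algebra K F := φ0.toAlgebra
  have hKF : ∀ z : K, ((algebraMap K F z : F) : Ω) = algebraMap K Ω z := fun z => rfl
  have hT1 : IsScalarTower B K F := IsScalarTower.of_algebraMap_eq fun z => Subtype.ext rfl
  have hT2 : IsScalarTower ℂ K F := IsScalarTower.of_algebraMap_eq fun z => by
    apply Subtype.ext
    rw [hKF, ← IsScalarTower.algebraMap_apply ℂ K Ω]
    rfl
  have hT3 : IsScalarTower ℂ B Λ := inferInstance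
  have hT4 : IsScalarTower B Λ F := IsScalarTower.of_algebraMap_eq fun z => Subtype.ext rfl
  have hT5 : IsScalarTower ℂ Λ F := inferInstance
  have hgenF : IntermediateField.adjoin Λ (Set.range (algebraMap K F)) = ⊤ := by
    have h1 : (IntermediateField.adjoin Λ (Set.range (algebraMap K F))).map F.val =
        (⊤ : IntermediateField Λ F).map F.val := by
      rw [IntermediateField.adjoin_map, ← AlgHom.fieldRange_eq_map,
        IntermediateField.fieldRange_val]
      congr 1
      ext z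
      simp only [Set.mem_image, Set.mem_range]
      constructor
      · rintro ⟨_, ⟨y, rfl⟩, rfl⟩
        exact ⟨y, rfl⟩
      · rintro ⟨y, rfl⟩
        exact ⟨_, ⟨y, rfl⟩, rfl⟩
    exact IntermediateField.map_injective _ h1
  have hLK : Algebra.trdeg B K = (1 : ℕ) := Pool.Agent.Y174.trdeg_LK (r := 1) hB hK
  have htrF : Algebra.trdeg Λ F = (1 : ℕ) :=
    Pool.Agent.Y174.trdeg_F (L := B) (K := K) hLK hgenF
  have hessF : Algebra.EssFiniteType Λ F := Pool.Agent.Y174.ess_F (k := ℂ) (K := K) hess hgenF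
  have hFF : IsFF Λ F := ⟨hessF, by rw [htrF]; simp⟩
  have htransc : ∀ z : K, ¬ IsAlgebraic B z → Transcendental Λ (algebraMap K F z) := by
    intro z hz h
    apply hz
    have h1 : IsAlgebraic B (algebraMap K F z) := h.restrictScalars B
    exact (isAlgebraic_algebraMap_iff (R := B) (algebraMap K F).injective).1 h1
  obtain ⟨FE, hfin, hmem, s, hs⟩ := geo_abs (Λ := Λ) (F := F) hK hB hcl' hgenF E' ω hω (by
    intro t ξ ht hZ Ef hEf D hD f hf0 hf
    exact hspan Λ F (IsScalarTower.toAlgHom ℂ K F) hFF hgenF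
      (fun z hz => ⟨algebraMap B Λ ⟨z, hz⟩, Subtype.ext rfl⟩) (fun z hz => htransc z hz) t ξ
      (fun j => by
        obtain ⟨b, hb⟩ := ht j
        rw [← hb]
        exact b.2) hZ Ef hEf D hD f hf0 hf) htr
  have hKFalg : Algebra.IsAlgebraic K F := Pool.Agent.Y174.alg_KF (L := B) hgenF
  have hΛtr : Algebra.trdeg ℂ Λ = (n : ℕ) := by
    have h1 := trdeg_add_eq ℂ B (A := Λ)
    have h2 : Algebra.trdeg B Λ = 0 := trdeg_eq_zero
    rw [h2, add_zero, hB] at h1
    exact h1.symm
  have hmem' : ∀ z : K, algebraMap K F z ∈ FE ↔ z ∈ (E'.restrictScalars ℂ) := fun z => hmem z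
  have hfinE : FiniteDimensional (E'.restrictScalars ℂ : IntermediateField ℂ K) K :=
    inferInstanceAs (FiniteDimensional E' K)
  have hessE : Algebra.EssFiniteType ℂ (E'.restrictScalars ℂ) :=
    Pool.Agent.TH466.QG.ess_below (K := K)
  have hEtr' : Algebra.trdeg ℂ (E'.restrictScalars ℂ : IntermediateField ℂ K) = (n + 1 : ℕ) :=
    Pool.Agent.Y184.NT.trdeg_below (K := K) hK
  have hFFE : IsFF Λ FE := by
    have hessE : Algebra.EssFiniteType Λ FE := Pool.Agent.TH466.QG.ess_below (K := F)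
    have htrE : Algebra.trdeg Λ FE = 1 := by
      have h1 := trdeg_add_eq Λ FE (A := F)
      have h2 : Algebra.trdeg FE F = 0 := trdeg_eq_zero
      rw [h2, add_zero, hFF.trdeg] at h1
      exact h1
    exact ⟨hessE, htrE⟩
  let ψ : (E'.restrictScalars ℂ : IntermediateField ℂ K) →ₐ[ℂ] FE :=
    { toFun := fun f => ⟨algebraMap K F f, (hmem' f).2 f.2⟩
      map_one' := Subtype.ext (map_one _)
      map_mul' := fun a b => Subtype.ext (map_mul _ _ _)
      map_zero' := Subtype.ext (map_zero _)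
      map_add' := fun a b => Subtype.ext (map_add _ _ _)
      commutes' := fun c => Subtype.ext (by
        change algebraMap K F (algebraMap ℂ K c) = _
        rw [← IsScalarTower.algebraMap_apply ℂ K F, IsScalarTower.algebraMap_apply ℂ Λ F]
        rfl) }
  have hψ : ∀ f, ((ψ f : FE) : F) = algebraMap K F f := fun f => rfl
  refine hA1 hFFE hEtr' hΛtr ψ s hs BE ?_
  intro w1 w2 v1 v2 e1 e2 he1 he2 h1 h2 hb1 hb2
  refine hUNI B Fi hcur Bd (E'.restrictScalars ℂ) BE hBE hu Λ F hKFalg hFF hgenF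
    (fun z hz => ⟨algebraMap B Λ ⟨z, hz⟩, Subtype.ext rfl⟩) (fun z hz => htransc z hz) FE hmem'
    s hs w1 w2 v1 v2 e1 e2 he1 he2 (fun f g hg => ?_) (fun f g hg => ?_) hb1 hb2
  · have h3 : g = ψ f := Subtype.ext hg
    rw [h3, h1]
  · have h3 : g = ψ f := Subtype.ext hg
    rw [h3, h2]

end Pool.Agent.Helper320.PCL
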