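import Pool.Agent.Helper320.PCL.Reg
import Pool.Agent.W619.PL.LDefs
import Pool.Agent.W602.GT.PsefDefs

/-!
Images of products of open curves: statements on `A¹`-uniruled varieties.
-/

set_option autoImplicit false
set_option linter.overlappingInstances false
set_option linter.unusedSectionVars false

open FF Pool.Agent.W603.LV
open Pool.Agent.W602.GT (Psef)
open Pool.Agent.W619.PL (IsA1Uniruled)

namespace Pool.Agent.Helper320.PCL

/-- `K + D` is not pseudo-effective on `A¹`-uniruled varieties -/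
def S_NPS : Prop :=
  ∀ {L : Type} [Field L] [Algebra ℂ L] [Algebra.EssFiniteType ℂ L] {n : ℕ}
    (_ : Algebra.trdeg ℂ L = (n : ℕ)) (BL : Place ℂ L → Prop) (_ : IsA1Uniruled ℂ L n BL),
    ¬ Psef ℂ L n BL

/-- a product of open curves one of which is the line or the affine line is `A¹`-uniruled -/
def S_RAT : Prop :=
  ∀ {K : Type} [Field K] [Algebra ℂ K] {n : ℕ} (_ : Algebra.trdeg ℂ K = (n : ℕ))
    (F : Fin n → IntermediateField ℂ K) [∀ i, IsFF ℂ (F i)] (_ : ⨆ i, F i = ⊤)
    (B : ∀ i, Finset (Place ℂ (F i))) (i : Fin n) (t : F i)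
    (_ : IntermediateField.adjoin ℂ {t} = ⊤) (_ : ∀ P ∈ B i, 0 < P.ord t)
    (L : Type) [Field L] [Algebra ℂ L] [Algebra L K] [IsScalarTower ℂ L K]
    [FiniteDimensional L K] (BL : Place ℂ L → Prop)
    (_ : ∀ (P : Place ℂ L) (Q : Place ℂ K) (e : ℕ), Over Q P e → BL P → BdK F B Q),
    IsA1Uniruled ℂ L n BL

end Pool.Agent.Helper320.PCL
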