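import Pool.Agent.Helper320.PCL.Dich
import Pool.Agent.Helper320.PCL.Geo
import Pool.Agent.Helper320.PC.Main3
import Pool.Agent.Helper320.PCL.Stm3
import Pool.Agent.W619.Y.LRes

/-!
Images of products of open curves: logarithmic genus zero implies `A¹`-uniruled.
-/

set_option autoImplicit false
set_option linter.overlappingInstances false
set_option linter.unusedSectionVars false
set_option maxHeartbeats 4000000
set_option synthInstance.maxHeartbeats 400000

open FF Pool.Agent.W603.LV
open Pool.Agent.W602.GT (IsPluri Divisorial RegAt LogAt KodGe LogSec)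
open Pool.Agent.W619.PQ (extForm IsUniruled)
open Pool.Agent.W619.PL (IsA1Uniruled)
open Pool.Agent.W619.TW (MM Cur)
open Pool.Agent.Y172 (exists_crd exists_lift lift_dual pluri_coord)
open Pool.Agent.Y184.NT (trForm trForm_pluri trForm_reg)
open Pool.Agent.Helper320.PC (ess_sup form_eq exists_basis_reg alg_mem trdeg_MM)

namespace Pool.Agent.Helper320.PCL

/-- a nonzero logarithmic differential -/
theorem exists_log {F : Type} [Field F] [Algebra ℂ F] [IsFF ℂ F] {B : Finset (Place ℂ F)} {γ : ℕ}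
    (hγ : LGonGe ℂ F B γ) (h2 : 2 ≤ γ) {D : Derivation ℂ F F} (hD : D ≠ 0) :
    ∃ c : F, c ≠ 0 ∧ IsLogD B D c := by
  obtain ⟨P, hP⟩ := Pool.Agent.Helper320.PC.SEP.exists_notMem (k := ℂ) (F := F) B
  obtain ⟨f, hf0, hf, -⟩ := t_RRL B (fun _ => 0) ∅ (fun _ _ => rfl) (fun Q hQ => by simp at hQ) P hP
    (fun t ht htB => by
      have := hγ t ht htB
      simp only [Finset.sum_empty]
      omega) hD
  refine ⟨f, hf0, fun Q => Or.inr ?_⟩
  have := hf Q
  push_cast at this
  omega

/-- derivatives of regular functions -/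
theorem der_ge0 {F : Type} [Field F] [Algebra ℂ F] [IsFF ℂ F] (P : Place ℂ F)
    {D : Derivation ℂ F F} (hD : D ≠ 0) {f : F} (hf : Ge P 0 f) : Ge P (vo P D) (D f) := by
  obtain ⟨g, hg, h⟩ := der_mul P (ord_unif P) hD hf
  rw [h]
  have h1 : Ge P (vo P D) (D (unif P)) := Or.inr le_rfl
  have h2 := h1.mul hg
  simpa using h2

/-- the logarithmic derivative of a unit of the open curve is a logarithmic differential -/
theorem log_der {F : Type} [Field F] [Algebra ℂ F] [IsFF ℂ F] {B : Finset (Place ℂ F)}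
    {D : Derivation ℂ F F} (hD : D ≠ 0) {u : F} (hu : u ≠ 0)
    (huB : ∀ P : Place ℂ F, P ∉ B → P.ord u = 0) : IsLogD B D (D u / u) := by
  intro P
  by_cases h0 : D u = 0
  · left
    rw [h0, zero_div]
  right
  rw [P.ord_div h0 hu]
  by_cases hP : P.ord u = 0
  · have h1 := (der_ge0 P hD (f := u) (Or.inr hP.ge)).resolve_left h0
    have h2 := bt_nonneg B P
    omega
  · have h1 := (ord_der P hD hP).2
    have hPB : P ∈ B := by
      by_contra h
      exact hP (huB P h)
    have h2 : bt B P = 1 := by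
      unfold bt
      rw [if_pos hPB]
    omega

theorem isLogD_of_regD {F : Type} [Field F] [Algebra ℂ F] {B : Finset (Place ℂ F)}
    {D : Derivation ℂ F F} {c : F} (h : Pool.Agent.Helper320.PC.IsRegD D c) : IsLogD B D c := by
  intro P
  rcases h P with h1 | h1
  · exact Or.inl h1
  · right
    have := bt_nonneg B P
    omega

/-- **The relation over a field which contains all factors but one implies `A¹`-uniruled.** -/
theorem a1_of_rel (hUNI : S_UNI) (hA1 : S_A1) {m : ℕ} {K : Type} [Field K] [Algebra ℂ K]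
    (hK : Algebra.trdeg ℂ K = (m + 1 : ℕ)) (F : Fin (m + 1) → IntermediateField ℂ K)
    [hF : ∀ i, IsFF ℂ (F i)] (B : ∀ i, Finset (Place ℂ (F i))) (hsup : ⨆ i, F i = ⊤)
    (D0 : ∀ i, Derivation ℂ (F i) (F i)) (hD0 : ∀ i, D0 i ≠ 0) (x : ∀ i, F i)
    (hx : ∀ i, Transcendental ℂ (x i)) (c0 : ∀ i, F i) (hc0 : ∀ i, c0 i ≠ 0)
    (hc0r : ∀ i, IsLogD (B i) (D0 i) (c0 i)) (N : IntermediateField ℂ K) [FiniteDimensional N K]
    (i : Fin (m + 1)) (hN : ∀ j, j ≠ i → F j ≤ N) {z : Fin (m + 1) → K} (hzN : ∀ l, z l ∈ N)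
    (hz : IsTranscendenceBasis ℂ z) {E' : Fin (m + 1) → Derivation ℂ K K}
    (hE' : ∀ a l, E' a (z l) = if a = l then 1 else 0)
    (hrel : ∀ c : ∀ i, F i, (∀ i, IsLogD (B i) (D0 i) (c i)) →
      Algebra.trace N K (extForm (K := K) 1 D0 x c E') = 0)
    (BN : Place ℂ N → Prop)
    (hBN : ∀ (v : Place ℂ N) (Q : Place ℂ K) (e : ℕ), Over Q v e → BN v → BdK F B Q) :
    IsA1Uniruled ℂ N (m + 1) BN := by
  classical
  have hess : Algebra.EssFiniteType ℂ K := ess_sup F hsup
  have hcur := Pool.Agent.W619.TW.cur_MM F hsup hK i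
  have hB : MM F i ≤ N := iSup_le fun j => hN j.1 j.2
  obtain ⟨q, b, hbr, hbs⟩ := exists_basis_reg (hD0 i)
  have hcreg : ∀ j l, IsLogD (B l) (D0 l) (if h : l = i then h ▸ b j else c0 l) := by
    intro j l
    by_cases h : l = i
    · subst h
      rw [dif_pos rfl]
      exact isLogD_of_regD (hbr j)
    · rw [dif_neg h]
      exact hc0r l
  let ω : Fin q → (Fin (m + 1) → Derivation ℂ K K) → K := fun j =>
    extForm (K := K) 1 D0 x (fun l => if h : l = i then h ▸ b j else c0 l)
  have hω : ∀ j, IsPluri 1 (ω j) := fun j => (t_REGL F B D0 hD0 x _ hx (hcreg j)).1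
  have hspan : SpanFib' (MM F i) ω := by
    intro Λ A _ _ _ _ _ _ _ φ h3 h4 h5 h6 t ξ h7 h8 E3 h9 D3 h10 f h12 h13
    exact Pool.Agent.Helper320.PC.t_SPF' F hsup hK D0 hD0 x c0 hx hc0 i b hbs Λ A φ h3 h4 h5 h6 t
      ξ h7 h8 E3 h9 D3 h10 f h12 h13
  have hrelω : ∀ j, Algebra.trace N K (ω j E') = 0 := fun j => hrel _ (hcreg j)
  -- units of the open curve which are in `N`
  have hu : ∀ u : F i, (u : K) ∈ N → (∀ P : Place ℂ (F i), P ∉ B i → P.ord u = 0) →
      IsAlgebraic ℂ u := by
    intro u huN huB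
    by_contra hut
    have hu0 : u ≠ 0 := by
      rintro rfl
      exact hut isAlgebraic_zero
    obtain ⟨c, hcdef⟩ : ∃ c : ∀ l, F l, c = fun l => if h : l = i then h ▸ (D0 i u / u) else c0 l :=
      ⟨_, rfl⟩
    have hci : c i = D0 i u / u := by
      rw [hcdef]
      simp
    have hcl : ∀ l, l ≠ i → c l = c0 l := by
      intro l hl
      rw [hcdef]
      simp [hl]
    have hDu := der_ne_zero (hD0 i) hut
    have hc : ∀ l, IsLogD (B l) (D0 l) (c l) := by
      intro l
      by_cases h : l = i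
      · subst h
        rw [hci]
        exact log_der (hD0 l) hu0 huB
      · rw [hcl l h]
        exact hc0r l
    have hcne : ∀ l, c l ≠ 0 := by
      intro l
      by_cases h : l = i
      · subst h
        rw [hci]
        exact div_ne_zero hDu hu0
      · rw [hcl l h]
        exact hc0 l
    have hr := hrel c hc
    -- the value of the form is in `N`
    obtain ⟨y, hydef⟩ : ∃ y : ∀ l, F l, y = fun l => if h : l = i then h ▸ u else x l := ⟨_, rfl⟩
    have hyi : y i = u := by
      rw [hydef]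
      simp
    have hyl : ∀ l, l ≠ i → y l = x l := by
      intro l hl
      rw [hydef]
      simp [hl]
    have hyt : ∀ l, Transcendental ℂ (y l) := by
      intro l
      by_cases h : l = i
      · subst h
        rw [hyi]
        exact hut
      · rw [hyl l h]
        exact hx l
    have hyN : ∀ l, (y l : K) ∈ N := by
      intro l
      by_cases h : l = i
      · subst h
        rw [hyi]
        exact huN
      · exact hN l h (y l).2
    have hval := Pool.Agent.W619.PQ.extForm_eq (K := K) 1 D0 hD0 x c hx y hyt E'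
    have hstab : ∀ a, ∀ w ∈ N, E' a w ∈ N := by
      intro a w hw
      have hzb : IsTranscendenceBasis ℂ (fun l => (⟨z l, hzN l⟩ : N)) := by
        have h1 : AlgebraicIndependent ℂ (fun l => (⟨z l, hzN l⟩ : N)) :=
          AlgebraicIndependent.of_comp N.val hz.1
        have hNtr : Algebra.trdeg ℂ N = (m + 1 : ℕ) :=
          Pool.Agent.Y184.NT.trdeg_below (K := K) hK
        refine h1.isTranscendenceBasis_of_lift_trdeg_le_of_finite ?_
        rw [hNtr]
        simp
      refine Pool.Agent.Helper320.PC.SPF.stab_B N (fun l => (⟨z l, hzN l⟩ : N)) hzb (E' a)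
        (fun l => ?_) w hw
      change E' a (z l) ∈ N
      rw [hE']
      split_ifs
      · exact one_mem _
      · exact zero_mem _
    have hmem : extForm (K := K) 1 D0 x c E' ∈ N := by
      rw [hval]
      refine mul_mem (prod_mem fun l _ => ?_) (pow_mem ?_ 1)
      · by_cases h : l = i
        · subst h
          rw [hci, hyi]
          have h1 : D0 l u / u * (u / D0 l u) ^ 1 = 1 := by
            rw [pow_one]
            field_simp
          rw [h1, map_one]
          exact one_mem _
        · exact hN l h (c l * (y l / D0 l (y l)) ^ 1 : F l).2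
      · rw [Matrix.det_apply]
        refine sum_mem fun σ _ => ?_
        have h1 : ∏ l, (Matrix.of fun j l => E' j (algebraMap (F l) K (y l)) /
            algebraMap (F l) K (y l) : Matrix (Fin (m + 1)) (Fin (m + 1)) K) (σ l) l ∈ N := by
          refine prod_mem fun l _ => ?_
          rw [Matrix.of_apply]
          exact div_mem (hstab _ _ (hyN l)) (hyN l)
        rcases Int.units_eq_one_or (Equiv.Perm.sign σ) with h | h
        · rw [h, one_smul]
          exact h1
        · rw [h, Units.neg_smul, one_smul]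
          exact neg_mem h1
    have hne : extForm (K := K) 1 D0 x c E' ≠ 0 := by
      intro h0
      have hxb : IsTranscendenceBasis ℂ fun i => algebraMap (F i) K (x i) :=
        Pool.Agent.W619.PQ.basis_of_iSup F hsup hK x hx
      obtain ⟨G, hG⟩ := Pool.Agent.W619.PQ.extForm_ne 1 D0 x c hcne
        (fun i => der_ne_zero (hD0 i) (hx i)) hxb
      apply hG
      rw [pluri_coord hz hE' (Pool.Agent.W619.PQ.extForm_pluri 1 _ x _) G, h0, mul_zero]
    have hT : extForm (K := K) 1 D0 x c E' =
        algebraMap N K ⟨extForm (K := K) 1 D0 x c E', hmem⟩ := rfl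
    rw [hT, Algebra.trace_algebraMap, nsmul_eq_mul] at hr
    have hcN : CharZero N := charZero_of_injective_algebraMap (algebraMap ℂ N).injective
    rcases mul_eq_zero.1 hr with h2 | h2
    · have h3 : 0 < Module.finrank N K := Module.finrank_pos
      have h4 : (Module.finrank N K : N) ≠ 0 := by exact_mod_cast h3.ne'
      exact h4 h2
    · exact hne (congrArg Subtype.val h2)
  obtain ⟨E2, hE2⟩ : ∃ E2 : IntermediateField (MM F i) K, E2.restrictScalars ℂ = N :=
    ⟨IntermediateField.extendScalars hB, IntermediateField.extendScalars_restrictScalars hB⟩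
  subst hE2
  have htr : ∀ j, ¬ Pool.Agent.R882.LT.TraceNe (ω j) (E2.restrictScalars ℂ) := by
    rintro j ⟨D3, D3', hl, hne⟩
    apply hne
    obtain ⟨d, hd⟩ : ∃ d : (E2.restrictScalars ℂ : IntermediateField ℂ K),
      d = (Matrix.of fun a l => D3 a ⟨z l, hzN l⟩ :
      Matrix (Fin (m + 1)) (Fin (m + 1)) (E2.restrictScalars ℂ : IntermediateField ℂ K)).det :=
        ⟨_, rfl⟩
    have h3 : ω j D3' = d • ω j E' := by
      rw [pluri_coord hz hE' (hω j) D3', pow_one, Algebra.smul_def, hd, RingHom.map_det]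
      congr 1
      congr 1
      ext a l
      rw [RingHom.mapMatrix_apply, Matrix.map_apply, Matrix.of_apply, Matrix.of_apply]
      exact hl a ⟨z l, hzN l⟩
    rw [h3, map_smul, hrelω j, smul_zero]
  have hfin2 : FiniteDimensional E2 K :=
    inferInstanceAs (FiniteDimensional (E2.restrictScalars ℂ : IntermediateField ℂ K) K)
  refine dichL hUNI hA1 (n := m) hK (MM F i) (F i) hcur (trdeg_MM hK hcur)
    (fun z hz => alg_mem hcur z hz) E2 ω hω hspan htr (B i) BN ?_ hu
  intro v Q e hQ hQM hv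
  obtain ⟨l, p, hp, e', hpQ⟩ := hBN v Q e hQ hv
  by_cases h : l = i
  · subst h
    exact ⟨p, hp, e', hpQ⟩
  · exfalso
    obtain ⟨t, -, ht⟩ := p.surj
    have h1 := hpQ.2 t
    have h2 : (algebraMap (F l) K t) ∈ MM F i :=
      (le_iSup (fun j : {j // j ≠ i} => F j.1) ⟨l, h⟩ : F l ≤ MM F i) t.2
    rw [hQM _ h2, ht, mul_one] at h1
    have h3 : 0 < e' := hpQ.1
    omega

/-- the same for a subfield -/
theorem a1_sub {n : ℕ} {K : Type} [Field K] [Algebra ℂ K] (L : Type) [Field L]
    [Algebra ℂ L] [Algebra L K] [IsScalarTower ℂ L K] [FiniteDimensional L K]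
    (N : IntermediateField ℂ K) [FiniteDimensional N K]
    (hmem : ∀ z : L, algebraMap L K z ∈ N) (BL : Place ℂ L → Prop)
    (h : IsA1Uniruled ℂ N n (fun v => ∃ (Q : Place ℂ K) (e : ℕ) (P : Place ℂ L) (e' : ℕ),
      Over Q v e ∧ Over Q P e' ∧ BL P)) : IsA1Uniruled ℂ L n BL := by
  obtain ⟨M, i1, i2, φ, h1, h2, h3⟩ := h
  let ψ : L →ₐ[ℂ] N :=
    { toFun := fun f => ⟨algebraMap L K f, hmem f⟩
      map_one' := Subtype.ext (map_one _)
      map_mul' := fun f g => Subtype.ext (map_mul _ _ _)
      map_zero' := Subtype.ext (map_zero _)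
      map_add' := fun f g => Subtype.ext (map_add _ _ _)
      commutes' := fun c => Subtype.ext (IsScalarTower.algebraMap_apply ℂ L K c).symm }
  refine ⟨M, i1, i2, φ.comp ψ, h1, h2, fun w hX v e he hv hb => ?_⟩
  have hv' : ∀ f : L, w.ord (φ (ψ f)) = e * v.ord f := hv
  obtain ⟨t, ht0, ht⟩ := v.surj
  have he' : (0 : ℤ) < e := by exact_mod_cast he
  obtain ⟨w', a, ha, hw'⟩ := Pool.Agent.W619.Y.exists_restrict w (φ : N →+* RatFunc M)
    (fun c hc => by
      change w.ord (φ (algebraMap ℂ N c)) = 0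
      rw [φ.commutes, IsScalarTower.algebraMap_apply ℂ M (RatFunc M)]
      exact w.ord_const (by simpa using hc)) (f0 := ψ t) (by
      have h4 := hv' t
      rw [ht, mul_one] at h4
      change w.ord (φ (ψ t)) ≠ 0
      rw [h4]
      omega)
  have ha' : (0 : ℤ) < a := by exact_mod_cast ha
  have h5 : (a : ℤ) * w'.ord (ψ t) = e := by
    rw [← hw']
    have h4 := hv' t
    rw [ht, mul_one] at h4
    exact h4
  have h6 : 0 < w'.ord (ψ t) := by
    by_contra h
    have : (a : ℤ) * w'.ord (ψ t) ≤ 0 :=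
      mul_nonpos_of_nonneg_of_nonpos ha'.le (not_lt.1 h)
    omega
  obtain ⟨Q, b, hQ⟩ := Pool.Agent.Y172.exists_above (L := K) w'
  refine h3 w hX w' a ha (fun f => hw' f) ⟨Q, b, v, b * (w'.ord (ψ t)).toNat, hQ,
    ⟨Nat.mul_pos hQ.1 (by omega), fun f => ?_⟩, hb⟩
  have h7 : (a : ℤ) * w'.ord (ψ f) = e * v.ord f := by
    rw [← hw']
    exact hv' f
  have h8 : w'.ord (ψ f) = w'.ord (ψ t) * v.ord f := by
    apply mul_left_cancel₀ ha'.ne'
    rw [h7, ← h5]
    ring
  have h9 : Q.ord (algebraMap L K f) = b * w'.ord (ψ f) := hQ.2 (ψ f)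
  rw [h9, h8]
  push_cast
  rw [Int.toNat_of_nonneg h6.le]
  ring

end Pool.Agent.Helper320.PCL
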