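import Pool.Agent.Helper320.PCL.Stm
import Pool.Agent.W619.TW.Span
import Pool.Agent.W619.PL.LDefs
import Pool.Agent.Y172.Cov1

/-!
Images of products of open curves: statements on the geometric generic fibre.
-/

set_option autoImplicit false
set_option linter.overlappingInstances false
set_option linter.unusedSectionVars false

open FF Pool.Agent.W603.LV
open Pool.Agent.W619.TW (Cur)
open Pool.Agent.W619.PL (IsA1Uniruled)

namespace Pool.Agent.Helper320.PCL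

/-- a function on the product of a curve and a variety whose zeros and poles lie over points of `B`
is the product of a function of the curve and one of the variety -/
def S_TWO : Prop :=
  ∀ {k L : Type} [Field k] [Field L] [Algebra k L] [CharZero k] [IsAlgClosed k]
    (M F : IntermediateField k L) (_ : Cur M F) (B : Finset (Place k F)) (z : L) (_ : z ≠ 0)
    (_ : ∀ w : Place M L, w.ord z ≠ 0 → ∃ q ∈ B, ∀ β : F, w.ord (β : L) = q.ord β),
    ∃ u : F, u ≠ 0 ∧ (∀ P : Place k F, P ∉ B → P.ord u = 0) ∧ ∃ m ∈ M, z = m * (u : L)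

/-- extension of places to a larger field of constants -/
def S_EXT : Prop :=
  ∀ {M R Λ A : Type} [Field M] [Field R] [Field Λ] [Field A] [Algebra M R] [Algebra Λ A]
    [CharZero Λ] [IsAlgClosed Λ] (_ : IsFF Λ A) (ι : M →+* Λ) (ψ : R →+* A)
    (_ : ∀ m : M, ψ (algebraMap M R m) = algebraMap Λ A (ι m))
    (_ : ∀ c : Λ, ι.IsIntegralElem c) (w : Place M R),
    ∃ (W : Place Λ A) (e : ℕ), 0 < e ∧ ∀ f : R, W.ord (ψ f) = e * w.ord f

/-- functions on the projective line -/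
def S_P1 : Prop :=
  ∀ {Λ E : Type} [Field Λ] [Field E] [Algebra Λ E] [CharZero Λ] [IsAlgClosed Λ] (_ : IsFF Λ E)
    (s : E) (_ : IntermediateField.adjoin Λ {s} = ⊤),
    (∀ w : Place Λ E, ∃ s' : E, IntermediateField.adjoin Λ {s'} = ⊤ ∧ w.ord s' < 0) ∧
    ∀ w1 w2 : Place Λ E, w1 ≠ w2 →
      ∃ t : E, t ≠ 0 ∧ 0 < w1.ord t ∧ ∀ w, w ≠ w1 → w ≠ w2 → w.ord t = 0

/-- at most one place of the geometric generic fibre is in the boundary -/
def S_UNI : Prop :=
  ∀ {K : Type} [Field K] [Algebra ℂ K] (M0 Fi : IntermediateField ℂ K) (_ : Cur M0 Fi)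
    (B : Finset (Place ℂ Fi)) (N : IntermediateField ℂ K) [FiniteDimensional N K]
    (BN : Place ℂ N → Prop)
    (_ : ∀ (v : Place ℂ N) (Q : Place ℂ K) (e : ℕ), Over Q v e → (∀ z ∈ M0, Q.ord z = 0) →
      BN v → ∃ p ∈ B, ∃ e' : ℕ, Over Q p e')
    (_ : ∀ u : Fi, (u : K) ∈ N → (∀ P : Place ℂ Fi, P ∉ B → P.ord u = 0) → IsAlgebraic ℂ u)
    (Λ A : Type) [Field Λ] [IsAlgClosed Λ] [Algebra ℂ Λ] [Field A] [Algebra Λ A] [Algebra ℂ A]
    [IsScalarTower ℂ Λ A] [Algebra K A] [IsScalarTower ℂ K A] (_ : Algebra.IsAlgebraic K A)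
    (_ : IsFF Λ A) (_ : IntermediateField.adjoin Λ (Set.range (algebraMap K A)) = ⊤)
    (_ : ∀ z ∈ M0, ∃ a : Λ, algebraMap Λ A a = algebraMap K A z)
    (_ : ∀ z : K, ¬ IsAlgebraic M0 z → Transcendental Λ (algebraMap K A z))
    (FE : IntermediateField Λ A) [FiniteDimensional FE A]
    (_ : ∀ z : K, algebraMap K A z ∈ FE ↔ z ∈ N)
    (s : FE) (_ : IntermediateField.adjoin Λ {s} = ⊤)
    (w1 w2 : Place Λ FE) (v1 v2 : Place ℂ N) (e1 e2 : ℕ) (_ : 0 < e1) (_ : 0 < e2)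
    (_ : ∀ (f : N) (g : FE), (g : A) = algebraMap K A f → w1.ord g = e1 * v1.ord f)
    (_ : ∀ (f : N) (g : FE), (g : A) = algebraMap K A f → w2.ord g = e2 * v2.ord f)
    (_ : BN v1) (_ : BN v2), w1 = w2

/-- a variety whose geometric generic fibre over a base is the projective line with at most one
boundary point is `A¹`-uniruled -/
def S_A1 : Prop :=
  ∀ {n : ℕ} {N Λ A : Type} [Field N] [Field Λ] [Field A] [Algebra ℂ N] [Algebra ℂ Λ]
    [Algebra ℂ A] [Algebra Λ A] [IsScalarTower ℂ Λ A] [Algebra.EssFiniteType ℂ N]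
    [IsAlgClosed Λ] (_ : IsFF Λ A) (_ : Algebra.trdeg ℂ N = (n + 1 : ℕ))
    (_ : Algebra.trdeg ℂ Λ = (n : ℕ)) (ψ : N →ₐ[ℂ] A) (s : A)
    (_ : IntermediateField.adjoin Λ {s} = ⊤) (BN : Place ℂ N → Prop)
    (_ : ∀ (w1 w2 : Place Λ A) (v1 v2 : Place ℂ N) (e1 e2 : ℕ), 0 < e1 → 0 < e2 →
      (∀ f, w1.ord (ψ f) = e1 * v1.ord f) → (∀ f, w2.ord (ψ f) = e2 * v2.ord f) →
      BN v1 → BN v2 → w1 = w2),
    IsA1Uniruled ℂ N (n + 1) BN

end Pool.Agent.Helper320.PCL
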